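import Pool.Agent.H83M.Stm

/-!
# ZM, piece AREA (helper63): mean value over a disc
-/

set_option autoImplicit false

namespace Pool.Agent.H83M

open Complex MeasureTheory Set Filter
open scoped ENNReal

namespace AREA

/-- circle averages bound the value at the center -/
theorem circ {F : ℂ → ℂ} (hF : Differentiable ℂ F) {c : ℂ} {r β : ℝ} (hr : 0 < r) (hβ : 0 < β) :
    2 * Real.pi * ‖F c‖ ^ β ≤ ∫ θ in (-Real.pi)..Real.pi, ‖F (circleMap c r θ)‖ ^ β := by
  have h1 := Q97.RB.jensen_ineq hF (c := c) hr hβ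
  have h2 : 0 ≤ Q97.RB.NN F c r := Q97.RB.NN_nonneg hF c hr
  have h3 : ‖F c‖ ^ β ≤ ‖F c‖ ^ β * Real.exp (β * Q97.RB.NN F c r) :=
    le_mul_of_one_le_right (by positivity) (Real.one_le_exp (by positivity))
  have h4 := h3.trans h1
  rw [Real.circleAverage_def] at h4
  have h5 : (∫ θ in (0 : ℝ)..2 * Real.pi, ‖F (circleMap c r θ)‖ ^ β) =
      ∫ θ in (-Real.pi)..Real.pi, ‖F (circleMap c r θ)‖ ^ β := by
    have hp : Function.Periodic (fun θ => ‖F (circleMap c r θ)‖ ^ β) (2 * Real.pi) := by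
      intro θ
      change ‖F (circleMap c r (θ + 2 * Real.pi))‖ ^ β = ‖F (circleMap c r θ)‖ ^ β
      rw [periodic_circleMap c r θ]
    have := hp.intervalIntegral_add_eq 0 (-Real.pi)
    rw [zero_add] at this
    rw [this]
    congr 1
    ring
  rw [h5, smul_eq_mul] at h4
  have hpi := Real.pi_pos
  calc 2 * Real.pi * ‖F c‖ ^ β ≤ 2 * Real.pi *
      ((2 * Real.pi)⁻¹ * ∫ θ in (-Real.pi)..Real.pi, ‖F (circleMap c r θ)‖ ^ β) := by gcongr
    _ = _ := by field_simp

/-- the indicator function of the disc -/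
noncomputable def gg (F : ℂ → ℂ) (β ρ : ℝ) (c w : ℂ) : ℝ≥0∞ :=
  (Metric.ball (0 : ℂ) ρ).indicator (fun w => ENNReal.ofReal (‖F (c + w)‖ ^ β)) w

theorem meas {F : ℂ → ℂ} (hF : Differentiable ℂ F) {β : ℝ} (hβ : 0 < β) (c : ℂ) :
    Measurable (fun w : ℂ => ENNReal.ofReal (‖F (c + w)‖ ^ β)) := by
  have hc : Continuous F := hF.continuous
  have : Continuous (fun w : ℂ => ‖F (c + w)‖ ^ β) := by
    refine Continuous.rpow_const ?_ fun y => Or.inr hβ.le
    fun_prop
  exact this.measurable.ennreal_ofReal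

theorem gmeas {F : ℂ → ℂ} (hF : Differentiable ℂ F) {β : ℝ} (hβ : 0 < β) (ρ : ℝ) (c : ℂ) :
    Measurable (gg F β ρ c) := (meas hF hβ c).indicator measurableSet_ball

/-- lower bound by polar coordinates -/
theorem lower {F : ℂ → ℂ} (hF : Differentiable ℂ F) {β : ℝ} (hβ : 0 < β) {ρ : ℝ} (hρ : 0 < ρ)
    (c : ℂ) : ENNReal.ofReal (Real.pi * ρ ^ 2 * ‖F c‖ ^ β) ≤ ∫⁻ w, gg F β ρ c w := by
  have ht : polarCoord.target = Ioi (0 : ℝ) ×ˢ Ioo (-Real.pi) Real.pi := rfl
  rw [← Complex.lintegral_comp_polarCoord_symm, ht]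
  have hpi := Real.pi_pos
  have hm : Measurable (fun p : ℝ × ℝ =>
      ENNReal.ofReal p.1 • gg F β ρ c (Complex.polarCoord.symm p)) := by
    have h1 : Continuous (fun p : ℝ × ℝ => (Complex.polarCoord.symm p : ℂ)) := by
      have e : (fun p : ℝ × ℝ => (Complex.polarCoord.symm p : ℂ)) =
          fun p : ℝ × ℝ => (p.1 : ℂ) * ((Real.cos p.2 : ℂ) + (Real.sin p.2 : ℂ) * I) := by
        funext p
        rw [Complex.polarCoord_symm_apply]
      rw [e]
      fun_prop
    exact measurable_fst.ennreal_ofReal.smul ((gmeas hF hβ ρ c).comp h1.measurable)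
  rw [Measure.volume_eq_prod, ← Measure.prod_restrict, lintegral_prod _ hm.aemeasurable]
  have key : ∀ r : ℝ, 0 < r → r < ρ →
      ENNReal.ofReal (2 * Real.pi * r * ‖F c‖ ^ β) ≤
        ∫⁻ θ in Ioo (-Real.pi) Real.pi,
          ENNReal.ofReal r • gg F β ρ c (Complex.polarCoord.symm (r, θ)) := by
    intro r hr hrρ
    have e : ∀ θ : ℝ, ENNReal.ofReal r • gg F β ρ c (Complex.polarCoord.symm (r, θ)) =
        ENNReal.ofReal (r * ‖F (circleMap c r θ)‖ ^ β) := by
      intro θ
      have e1 : (Complex.polarCoord.symm (r, θ) : ℂ) = r * Complex.exp (θ * I) := by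
        rw [Complex.polarCoord_symm_apply, Complex.exp_mul_I]
        push_cast
        ring
      have e2 : (Complex.polarCoord.symm (r, θ) : ℂ) ∈ Metric.ball (0 : ℂ) ρ := by
        rw [mem_ball_zero_iff, e1, norm_mul, Complex.norm_exp_ofReal_mul_I, mul_one,
          Complex.norm_real, Real.norm_of_nonneg hr.le]
        exact hrρ
      unfold gg
      rw [indicator_of_mem e2, smul_eq_mul, ← ENNReal.ofReal_mul hr.le, e1]
      rfl
    simp only [e]
    have hcont : Continuous (fun θ : ℝ => r * ‖F (circleMap c r θ)‖ ^ β) := by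
      have hc : Continuous F := hF.continuous
      have h1 : Continuous (fun θ : ℝ => ‖F (circleMap c r θ)‖ ^ β) := by
        refine Continuous.rpow_const ?_ fun y => Or.inr hβ.le
        exact (hc.comp (continuous_circleMap c r)).norm
      exact continuous_const.mul h1
    rw [← ofReal_integral_eq_lintegral_ofReal]
    · apply ENNReal.ofReal_le_ofReal
      rw [← integral_Ioc_eq_integral_Ioo, ← intervalIntegral.integral_of_le (by linarith),
        intervalIntegral.integral_const_mul]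
      have := circ hF (c := c) hr hβ
      nlinarith
    · exact (hcont.integrableOn_Icc (a := -Real.pi) (b := Real.pi)).mono_set Ioo_subset_Icc_self
    · exact Eventually.of_forall fun θ => by positivity
  calc ENNReal.ofReal (Real.pi * ρ ^ 2 * ‖F c‖ ^ β)
      = ∫⁻ r in Ioo 0 ρ, ENNReal.ofReal (2 * Real.pi * r * ‖F c‖ ^ β) := by
        rw [← ofReal_integral_eq_lintegral_ofReal]
        · congr 1
          rw [← integral_Ioc_eq_integral_Ioo, ← intervalIntegral.integral_of_le hρ.le]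
          have e : (fun r : ℝ => 2 * Real.pi * r * ‖F c‖ ^ β) =
              fun r : ℝ => (2 * Real.pi * ‖F c‖ ^ β) * r := by
            funext r
            ring
          rw [e, intervalIntegral.integral_const_mul, integral_id]
          ring
        · have hc : Continuous (fun r : ℝ => 2 * Real.pi * r * ‖F c‖ ^ β) := by fun_prop
          exact (hc.integrableOn_Icc (a := 0) (b := ρ)).mono_set Ioo_subset_Icc_self
        · refine (ae_restrict_iff' measurableSet_Ioo).2 (Eventually.of_forall fun r hr => ?_)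
          have := hr.1
          simp only [Pi.zero_apply]
          positivity
    _ ≤ ∫⁻ r in Ioo 0 ρ, ∫⁻ θ in Ioo (-Real.pi) Real.pi,
          ENNReal.ofReal r • gg F β ρ c (Complex.polarCoord.symm (r, θ)) := by
        refine setLIntegral_mono' measurableSet_Ioo fun r hr => key r hr.1 hr.2
    _ ≤ _ := lintegral_mono_set fun r hr => hr.1

/-- upper bound by the strip -/
theorem upper {F : ℂ → ℂ} (hF : Differentiable ℂ F) {β α α' x₀ y₀ ρ B : ℝ} (hβ : 0 < β)
    (hG : Q97.RB.Gd F α α') (hρ : 0 < ρ) (h1 : α ≤ x₀ - ρ) (h2 : x₀ + ρ ≤ α')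
    (hB : ∀ x, x₀ - ρ ≤ x → x ≤ x₀ + ρ → Q97.RB.LI F β x ≤ B) :
    ∫⁻ w, gg F β ρ (x₀ + y₀ * I) w ≤ ENNReal.ofReal (2 * ρ * B) := by
  rw [← (Complex.volume_preserving_equiv_real_prod.symm).lintegral_comp_emb
    Complex.measurableEquivRealProd.symm.measurableEmbedding]
  have hm : Measurable (fun p : ℝ × ℝ => gg F β ρ (x₀ + y₀ * I)
      (Complex.measurableEquivRealProd.symm p)) :=
    (gmeas hF hβ ρ _).comp Complex.measurableEquivRealProd.symm.measurable
  rw [Measure.volume_eq_prod, lintegral_prod _ hm.aemeasurable]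
  have hle : ∀ x y : ℝ, gg F β ρ (x₀ + y₀ * I) (Complex.measurableEquivRealProd.symm (x, y)) ≤
      (Ioo (-ρ) ρ).indicator (fun x : ℝ =>
        ENNReal.ofReal (‖F (((x₀ + x : ℝ) : ℂ) + ((y₀ + y : ℝ) : ℂ) * I)‖ ^ β)) x := by
    intro x y
    have e : (Complex.measurableEquivRealProd.symm (x, y) : ℂ) = x + y * I := by
      rw [Complex.measurableEquivRealProd_symm_apply]
      apply Complex.ext <;> simp
    rw [e]
    unfold gg
    by_cases hw : ((x : ℂ) + y * I) ∈ Metric.ball (0 : ℂ) ρ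
    · have hx : x ∈ Ioo (-ρ) ρ := by
        rw [mem_ball_zero_iff] at hw
        have h3 := (Complex.abs_re_le_norm ((x : ℂ) + y * I)).trans_lt hw
        simp only [Complex.add_re, Complex.ofReal_re, Complex.mul_re, Complex.I_re, mul_zero,
          Complex.ofReal_im, Complex.I_im, mul_one, sub_self, add_zero] at h3
        exact abs_lt.1 h3
      rw [indicator_of_mem hw, indicator_of_mem hx]
      apply le_of_eq
      congr 4
      push_cast
      ring
    · rw [indicator_of_notMem hw]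
      exact zero_le
  calc ∫⁻ x, ∫⁻ y, gg F β ρ (x₀ + y₀ * I) (Complex.measurableEquivRealProd.symm (x, y))
      ≤ ∫⁻ x, ∫⁻ y, (Ioo (-ρ) ρ).indicator (fun x : ℝ =>
        ENNReal.ofReal (‖F (((x₀ + x : ℝ) : ℂ) + ((y₀ + y : ℝ) : ℂ) * I)‖ ^ β)) x :=
        lintegral_mono fun x => lintegral_mono fun y => hle x y
    _ = ∫⁻ x in Ioo (-ρ) ρ, ∫⁻ y : ℝ,
        ENNReal.ofReal (‖F (((x₀ + x : ℝ) : ℂ) + ((y₀ + y : ℝ) : ℂ) * I)‖ ^ β) := by
        rw [← lintegral_indicator measurableSet_Ioo]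
        refine lintegral_congr fun x => ?_
        by_cases hx : x ∈ Ioo (-ρ) ρ
        · simp only [indicator_of_mem hx]
        · simp only [indicator_of_notMem hx, lintegral_zero]
    _ ≤ ∫⁻ x in Ioo (-ρ) ρ, ENNReal.ofReal B := by
        refine setLIntegral_mono' measurableSet_Ioo fun x hx => ?_
        have ha : α ≤ x₀ + x := by linarith [hx.1]
        have hb : x₀ + x ≤ α' := by linarith [hx.2]
        have hint := Q97.RB.li_int hF hβ hG ha hb
        have e := lintegral_add_left_eq_self (μ := (volume : Measure ℝ)) (fun y : ℝ =>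
          ENNReal.ofReal (‖F (((x₀ + x : ℝ) : ℂ) + (y : ℂ) * I)‖ ^ β)) y₀
        rw [e, ← ofReal_integral_eq_lintegral_ofReal hint (Eventually.of_forall fun y => by
          positivity)]
        exact ENNReal.ofReal_le_ofReal (hB _ (by linarith [hx.1]) (by linarith [hx.2]))
    _ = _ := by
        rw [lintegral_const, Measure.restrict_apply_univ, Real.volume_Ioo,
          ← ENNReal.ofReal_mul']
        · congr 1
          ring
        · linarith

end AREA

open AREA in
theorem t_AREA : S_AREA := by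
  intro F β α α' x₀ y₀ ρ B hF hβ hG hρ h1 h2 hB
  have hB0 : 0 ≤ B := (Q97.RB.LI_nonneg F β x₀).trans (hB x₀ (by linarith) (by linarith))
  have h := (lower hF hβ hρ (x₀ + y₀ * I)).trans (upper hF hβ hG hρ h1 h2 hB)
  rw [ENNReal.ofReal_le_ofReal_iff (by positivity)] at h
  rw [le_div_iff₀ hρ]
  have hpi := Real.pi_gt_three
  have hn : 0 ≤ ‖F (x₀ + y₀ * I)‖ ^ β := by positivity
  have h3 : Real.pi * (‖F (x₀ + y₀ * I)‖ ^ β * ρ) ≤ 2 * B := by
    have : ρ * (Real.pi * (‖F (x₀ + y₀ * I)‖ ^ β * ρ)) ≤ ρ * (2 * B) := by nlinarith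
    exact le_of_mul_le_mul_left this hρ
  have h4 : 0 ≤ ‖F (x₀ + y₀ * I)‖ ^ β * ρ := by positivity
  nlinarith

end Pool.Agent.H83M
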