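import Pool.Agent.H83M.Stm

/-!
# ZM, piece CRI (helper70)
-/

set_option autoImplicit false

namespace Pool.Agent.H83M

open Complex MeasureTheory Set Filter

namespace CRI

lemma Z_cont : Continuous Z := by
  unfold Z
  refine Continuous.norm (continuous_iff_continuousAt.2 fun t => ?_)
  have h : (1 / 2 + (t : ℂ) * I) ≠ 1 := by
    intro h
    have := congrArg Complex.re h
    simp at this
  exact ContinuousAt.comp (f := fun t : ℝ => (1 / 2 + (t : ℂ) * I)) (g := riemannZeta)
    (differentiableAt_riemannZeta h).continuousAt (by fun_prop)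

lemma Z_nonneg (t : ℝ) : 0 ≤ Z t := norm_nonneg _

lemma ev1 (c : ℝ) : ∀ᶠ T : ℝ in atTop, c * Real.log (Real.log T) ≤ Real.log T := by
  have h1 := Real.isLittleO_log_id_atTop.bound (show (0 : ℝ) < 1 / (|c| + 1) by positivity)
  filter_upwards [Real.tendsto_log_atTop.eventually h1, eventually_ge_atTop (Real.exp (Real.exp 1))]
    with T hT hT2
  have hl : Real.exp 1 ≤ Real.log T := by
    rw [Real.le_log_iff_exp_le (lt_of_lt_of_le (Real.exp_pos _) hT2)]
    exact hT2
  have hl1 : 0 < Real.log T := lt_of_lt_of_le (Real.exp_pos _) hl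
  have hll : 1 ≤ Real.log (Real.log T) := by
    rw [Real.le_log_iff_exp_le hl1]
    exact hl
  rw [id, Real.norm_of_nonneg (by linarith), Real.norm_of_nonneg hl1.le] at hT
  have h2 : (|c| + 1) * Real.log (Real.log T) ≤ Real.log T := by
    calc (|c| + 1) * Real.log (Real.log T) ≤ (|c| + 1) * (1 / (|c| + 1) * Real.log T) := by
          gcongr
      _ = Real.log T := by
          have : (0 : ℝ) < |c| + 1 := by positivity
          field_simp
  have h3 : c ≤ |c| + 1 := by linarith [le_abs_self c]
  nlinarith

lemma big {T : ℝ} (hT : Real.exp (Real.exp 1) ≤ T) :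
    0 < T ∧ 1 ≤ Real.log T ∧ 1 ≤ Real.log (Real.log T) := by
  have h0 : 0 < T := lt_of_lt_of_le (Real.exp_pos _) hT
  have hl : Real.exp 1 ≤ Real.log T := by
    rw [Real.le_log_iff_exp_le h0]
    exact hT
  have hl1 : 0 < Real.log T := lt_of_lt_of_le (Real.exp_pos _) hl
  refine ⟨h0, ?_, ?_⟩
  · have : (1 : ℝ) ≤ Real.exp 1 := Real.one_le_exp (by norm_num)
    linarith
  · rw [Real.le_log_iff_exp_le hl1]
    exact hl

lemma M_le (k T B : ℝ) (hk : 0 ≤ k) (hT : 0 ≤ T) (hB : ∀ t, 0 ≤ t → t ≤ T → Z t ≤ B) :
    M k T ≤ B ^ (2 * k) * T := by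
  unfold M
  have h := intervalIntegral.norm_integral_le_of_norm_le_const (a := 0) (b := T)
    (f := fun t => Z t ^ (2 * k)) (C := B ^ (2 * k)) (fun t ht => by
      rw [uIoc_of_le hT] at ht
      rw [Real.norm_of_nonneg (Real.rpow_nonneg (Z_nonneg t) _)]
      exact Real.rpow_le_rpow (Z_nonneg t) (hB t ht.1.le ht.2) (by linarith))
  rw [sub_zero, abs_of_nonneg hT] at h
  exact (le_abs_self _).trans h

end CRI

open CRI in
theorem t_CRI (h : S_SUP) : S_CRI := by
  constructor
  · rintro ⟨A, t₀, hA⟩
    set B := max A 0 + 1 with hBdef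
    have hA0 : (0 : ℝ) ≤ max A 0 := le_max_right _ _
    have hAA : A ≤ max A 0 := le_max_left _ _
    have hB1 : 1 ≤ B := by linarith
    set t₁ := max t₀ (Real.exp 1) with ht₁
    obtain ⟨K, hK⟩ := (isCompact_Icc (a := (0 : ℝ)) (b := t₁)).exists_bound_of_continuousOn
      Z_cont.continuousOn
    have hten : Tendsto (fun T : ℝ => Real.exp (Real.sqrt (Real.log T))) atTop atTop :=
      Real.tendsto_exp_atTop.comp (Real.tendsto_sqrt_atTop.comp Real.tendsto_log_atTop)
    have ev : ∀ᶠ T : ℝ in atTop, ∀ k : ℝ, 2 ≤ k → T ^ (4 * B ^ 2) ≤ Real.log T ^ (k ^ 2) →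
        Good k T := by
      filter_upwards [eventually_ge_atTop (Real.exp (Real.exp 1)), hten.eventually_ge_atTop K]
        with T h1 h2 k hk hC
      obtain ⟨hT0, hL, hLL⟩ := big h1
      set L := Real.log T with hLdef
      set LL := Real.log L with hLLdef
      set s := Real.sqrt (L * LL) with hs
      have hs2 : s ^ 2 = L * LL := Real.sq_sqrt (by positivity)
      have hs0 : 0 ≤ s := Real.sqrt_nonneg _
      have hsL : Real.sqrt L ≤ s := Real.sqrt_le_sqrt (by nlinarith)
      have key : ∀ t, 0 ≤ t → t ≤ T → Z t ≤ Real.exp (B * s) := by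
        intro t ht ht2
        by_cases hc : t ≤ t₁
        · have h3 := hK t ⟨ht, hc⟩
          rw [Real.norm_of_nonneg (Z_nonneg t)] at h3
          refine h3.trans (h2.trans (Real.exp_le_exp.2 (hsL.trans ?_)))
          nlinarith
        · have hc' : t₁ < t := not_le.1 hc
          have h3 := hA t ((le_max_left _ _).trans hc'.le)
          refine h3.trans (Real.exp_le_exp.2 ?_)
          have h4 : Real.exp 1 ≤ t := (le_max_right _ _).trans hc'.le
          have ht0 : 0 < t := lt_of_lt_of_le (Real.exp_pos _) h4
          have h5 : 1 ≤ Real.log t := by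
            rw [Real.le_log_iff_exp_le ht0]
            exact h4
          have h6 : 0 ≤ Real.log (Real.log t) := Real.log_nonneg h5
          have h7 : Real.log t ≤ L := Real.log_le_log ht0 ht2
          have h8 : Real.log (Real.log t) ≤ LL := Real.log_le_log (by linarith) h7
          have h9 : Real.sqrt (Real.log t * Real.log (Real.log t)) ≤ s :=
            Real.sqrt_le_sqrt (mul_le_mul h7 h8 h6 (by linarith))
          have h10 := Real.sqrt_nonneg (Real.log t * Real.log (Real.log t))
          nlinarith
      have h3 := M_le k T (Real.exp (B * s)) (by linarith) hT0.le key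
      unfold Good
      refine h3.trans ?_
      rw [mul_comm]
      refine mul_le_mul_of_nonneg_left ?_ hT0.le
      rw [← Real.exp_mul, Real.rpow_def_of_pos (by linarith : 0 < L)]
      rw [Real.exp_le_exp]
      have h4 : L * (4 * B ^ 2) ≤ LL * k ^ 2 := by
        rw [Real.rpow_def_of_pos hT0, Real.rpow_def_of_pos (by linarith : 0 < L),
          Real.exp_le_exp] at hC
        exact hC
      have h5 : 2 * B * s ≤ k * LL := by
        have h6 : (2 * B * s) ^ 2 ≤ (k * LL) ^ 2 := by
          have e1 : (2 * B * s) ^ 2 = L * (4 * B ^ 2) * LL := by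
            calc (2 * B * s) ^ 2 = 4 * B ^ 2 * s ^ 2 := by ring
              _ = _ := by rw [hs2]; ring
          have e2 : (k * LL) ^ 2 = LL * k ^ 2 * LL := by ring
          rw [e1, e2]
          exact mul_le_mul_of_nonneg_right h4 (by linarith)
        exact le_of_sq_le_sq h6 (by positivity)
      calc B * s * (2 * k) = (2 * B * s) * k := by ring
        _ ≤ (k * LL) * k := mul_le_mul_of_nonneg_right h5 (by linarith)
        _ = Real.log L * k ^ 2 := by rw [← hLLdef]; ring
    obtain ⟨T₀, hT₀⟩ := eventually_atTop.1 ev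
    exact ⟨4 * B ^ 2, T₀, fun T k hT hk hC => hT₀ T hT k hk hC⟩
  · rintro ⟨C, T₀, hC⟩
    obtain ⟨T₁, hT₁⟩ := h 1 one_pos
    set C' := max C 1 with hC'
    have hC1 : 1 ≤ C' := le_max_right _ _
    have hCC : C ≤ C' := le_max_left _ _
    set r := Real.sqrt (2 * C') with hr
    have hr2 : r ^ 2 = 2 * C' := Real.sq_sqrt (by positivity)
    have hr0 : 0 < r := Real.sqrt_pos.2 (by positivity)
    have ev : ∀ᶠ T : ℝ in atTop,
        Z T ≤ Real.exp ((1 / r + r / 2) * Real.sqrt (Real.log T * Real.log (Real.log T))) := by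
      filter_upwards [eventually_ge_atTop (Real.exp (Real.exp 1)), eventually_ge_atTop T₀,
        eventually_ge_atTop T₁, eventually_ge_atTop (2 : ℝ), ev1 2, ev1 (2 * C')]
        with T h1 hT0' hT1' h2T h2 h3
      obtain ⟨hT0, hL, hLL⟩ := big h1
      set L := Real.log T with hLdef
      set LL := Real.log L with hLLdef
      set s := Real.sqrt (L * LL) with hs
      have hs2 : s ^ 2 = L * LL := Real.sq_sqrt (by positivity)
      have hs0 : 0 < s := Real.sqrt_pos.2 (by positivity)
      set j := Real.sqrt (2 * C' * L / LL) with hj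
      have hj2 : j ^ 2 = 2 * C' * L / LL := Real.sq_sqrt (by positivity)
      have hj0 : 0 < j := Real.sqrt_pos.2 (by positivity)
      have hj3 : j ^ 2 * LL = 2 * C' * L := by
        rw [hj2]
        field_simp
      have hjge : 2 ≤ j := by
        rw [hj]
        refine Real.le_sqrt_of_sq_le ?_
        rw [le_div_iff₀ (by linarith)]
        nlinarith
      have hjs : j * LL = r * s := by
        have e1 : (j * LL) ^ 2 = (r * s) ^ 2 := by
          calc (j * LL) ^ 2 = (j ^ 2 * LL) * LL := by ring
            _ = 2 * C' * L * LL := by rw [hj3]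
            _ = r ^ 2 * s ^ 2 := by rw [hr2, hs2]; ring
            _ = (r * s) ^ 2 := by ring
        exact (sq_eq_sq₀ (by positivity) (by positivity)).1 e1
      have hjL : j * LL ≤ L := by
        have e1 : (j * LL) ^ 2 ≤ L ^ 2 := by
          calc (j * LL) ^ 2 = (j ^ 2 * LL) * LL := by ring
            _ = (2 * C' * LL) * L := by rw [hj3]; ring
            _ ≤ L * L := mul_le_mul_of_nonneg_right h3 (by linarith)
            _ = L ^ 2 := by ring
        exact le_of_sq_le_sq e1 (by linarith)
      have hjT : L ^ j ≤ T := by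
        rw [Real.rpow_def_of_pos (by linarith : 0 < L)]
        calc Real.exp (Real.log L * j) ≤ Real.exp L := Real.exp_le_exp.2 (by
              rw [← hLLdef]
              linarith)
          _ = T := Real.exp_log hT0
      have hgood : Good j (2 * T) := by
        refine hC (2 * T) j (by linarith) hjge ?_
        calc (2 * T) ^ C ≤ (2 * T) ^ C' := Real.rpow_le_rpow_of_exponent_le (by linarith) hCC
          _ ≤ (T * T) ^ C' := Real.rpow_le_rpow (by positivity) (by nlinarith) (by linarith)
          _ = Real.log T ^ (j ^ 2) := by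
              rw [Real.mul_rpow hT0.le hT0.le, Real.rpow_def_of_pos hT0,
                Real.rpow_def_of_pos (by linarith : 0 < Real.log T), ← Real.exp_add]
              congr 1
              rw [← hLdef, ← hLLdef, mul_comm LL, hj3]
              ring
          _ ≤ Real.log (2 * T) ^ (j ^ 2) := by
              refine Real.rpow_le_rpow (by linarith) (Real.log_le_log hT0 (by linarith))
                (by positivity)
      have hfin := hT₁ T j hT1' (by linarith) hjT hgood T hT0.le le_rfl
      refine hfin.trans (le_of_eq ?_)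
      rw [Real.rpow_def_of_pos hT0, Real.rpow_def_of_pos (by linarith : 0 < Real.log T),
        ← Real.exp_add]
      congr 1
      rw [← hLdef, ← hLLdef]
      have e2 : L * r = s * j := by
        have e3 : (L * r) * LL = (s * j) * LL := by
          calc (L * r) * LL = (L * LL) * r := by ring
            _ = s ^ 2 * r := by rw [hs2]
            _ = s * (r * s) := by ring
            _ = s * (j * LL) := by rw [hjs]
            _ = (s * j) * LL := by ring
        exact mul_right_cancel₀ (by linarith : LL ≠ 0) e3
      have e4 : L / j = s / r := by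
        rw [div_eq_div_iff hj0.ne' hr0.ne', e2]
      calc L * ((1 + 1) / (2 * j)) + LL * (j / 2) = L / j + (j * LL) / 2 := by
            field_simp
            ring
        _ = s / r + (r * s) / 2 := by rw [e4, hjs]
        _ = (1 / r + r / 2) * s := by ring
    obtain ⟨t₀, ht₀⟩ := eventually_atTop.1 ev
    exact ⟨_, t₀, fun t ht => ht₀ t ht⟩

end Pool.Agent.H83M
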