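import Pool.Agent.H83M.Stm
import Pool.Agent.TH158.FM.Rng

/-! PROJECT ZM (helper83), MP_3d0d30_nt: the convexity bound from the library of the starting files. -/

set_option autoImplicit false

namespace Pool.Agent.H83M

open Complex MeasureTheory Set Filter

theorem t_CVX : S_CVX := by
  refine ⟨10 ^ 12, fun T t hT h0 ht => ?_⟩
  have hT0 : (0:ℝ) < T := by linarith
  have hq : (10:ℝ) ^ 3 ≤ T ^ (1 / 4 : ℝ) := by
    calc (10:ℝ) ^ 3 = ((10:ℝ) ^ (12:ℝ)) ^ (1 / 4 : ℝ) := by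
          rw [← Real.rpow_mul (by norm_num)]
          norm_num
      _ ≤ T ^ (1 / 4 : ℝ) := by
          have e : (10:ℝ) ^ (12:ℝ) = 10 ^ 12 := by norm_cast
          rw [e]
          exact Real.rpow_le_rpow (by positivity) hT (by norm_num)
  have h47 : 47 ≤ Pool.Agent.TH158.FM.VV T := by
    unfold Pool.Agent.TH158.FM.VV
    have h1 : (12:ℝ) ≤ (T / (2 * Real.pi)) ^ (1 / 4 : ℝ) := by
      have h2 : (12 : ℝ) ^ (4 : ℝ) ≤ T / (2 * Real.pi) := by
        have : (12 : ℝ) ^ (4 : ℝ) = 12 ^ 4 := by norm_cast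
        rw [this, le_div_iff₀ (by positivity)]
        have := Real.pi_lt_d2
        nlinarith
      calc (12:ℝ) = ((12 : ℝ) ^ (4 : ℝ)) ^ (1 / 4 : ℝ) := by
            rw [← Real.rpow_mul (by norm_num)]
            norm_num
        _ ≤ _ := Real.rpow_le_rpow (by positivity) h2 (by norm_num)
    linarith
  have h := Pool.Agent.TH158.FM.sup_le Pool.Agent.TH158.FM.zb_true Pool.Agent.TH158.FM.pw_true
    h47 le_rfl t ⟨h0, ht⟩
  have e : ‖riemannZeta (Pool.Agent.TH158.FM.pt (1 / 2) t)‖ = Z t := by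
    rw [Pool.Agent.TH158.FM.pt_half]
    rfl
  rw [e] at h
  refine h.trans ?_
  unfold Pool.Agent.TH158.FM.VV
  have h3 : (T / (2 * Real.pi)) ^ (1 / 4 : ℝ) ≤ T ^ (1 / 4 : ℝ) := by
    apply Real.rpow_le_rpow (by positivity) _ (by norm_num)
    apply div_le_self hT0.le
    have := Real.pi_gt_three
    linarith
  have h4 : T ^ (1 / 2 : ℝ) = T ^ (1 / 4 : ℝ) * T ^ (1 / 4 : ℝ) := by
    rw [← Real.rpow_add hT0]
    norm_num
  rw [h4]
  nlinarith

end Pool.Agent.H83M
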