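import Pool.Agent.H83M.Stm

/-!
# Project ZM, piece EDGE (helper23): Gaussian integral bound
-/

set_option autoImplicit false

namespace Pool.Agent.H83M

open Complex MeasureTheory Set Filter

theorem EDGE.sq_exp (u : ℝ) : (1 + |u|) ^ 2 * Real.exp (-(u ^ 2 / 2)) ≤ 4 := by
  have h1 : (1 + |u|) ^ 2 ≤ 4 * (1 + u ^ 2 / 2) := by
    have := sq_nonneg (|u| - 1)
    have h2 : |u| ^ 2 = u ^ 2 := sq_abs u
    nlinarith
  have h2 : 1 + u ^ 2 / 2 ≤ Real.exp (u ^ 2 / 2) := by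
    have := Real.add_one_le_exp (u ^ 2 / 2)
    linarith
  have h3 : (1 + |u|) ^ 2 ≤ 4 * Real.exp (u ^ 2 / 2) := by linarith
  rw [Real.exp_neg, ← div_eq_mul_inv, div_le_iff₀ (Real.exp_pos _)]
  exact h3

theorem EDGE.norm_exp (x y t : ℝ) :
    ‖Complex.exp (((x : ℂ) + y * I - (((1 / 2 : ℝ) : ℂ) + t * I)) ^ 2)‖ =
      Real.exp ((x - 1 / 2) ^ 2 - (y - t) ^ 2) := by
  rw [Complex.norm_exp]
  congr 1
  have h : (x : ℂ) + y * I - (((1 / 2 : ℝ) : ℂ) + t * I) =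
      ((x - 1 / 2 : ℝ) : ℂ) + ((y - t : ℝ) : ℂ) * I := by
    push_cast
    ring
  rw [h, pow_two, Complex.mul_re]
  simp only [Complex.add_re, Complex.ofReal_re, Complex.mul_re, Complex.I_re, mul_zero,
    Complex.ofReal_im, Complex.I_im, mul_one, sub_self, add_zero, Complex.add_im,
    Complex.mul_im, zero_add]
  ring

theorem EDGE.pt {t x : ℝ} (ht : 0 ≤ t) (h1 : 1 / 4 ≤ x) (h2 : x ≤ 3) (y : ℝ) :
    ‖FF t (x + y * I)‖ ≤
      180 * Real.exp (25 / 4) * (1 + t) * Real.exp (-(1 / 2) * (y - t) ^ 2) := by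
  have ht1 : (0 : ℝ) < 1 + t := by linarith
  have h3 := Q97.MM.Z1_growth (y := y) h1 h2
  have hn : ‖(1 : ℂ) + t‖ = 1 + t := by
    have : (1 : ℂ) + t = ((1 + t : ℝ) : ℂ) := by push_cast; ring
    rw [this, Complex.norm_real, Real.norm_of_nonneg ht1.le]
  unfold FF
  rw [norm_div, norm_mul, EDGE.norm_exp, hn, div_le_iff₀ ht1]
  have h4 : (x - 1 / 2) ^ 2 ≤ 25 / 4 := by nlinarith
  have h5 : Real.exp ((x - 1 / 2) ^ 2 - (y - t) ^ 2) ≤
      Real.exp (25 / 4) * (Real.exp (-((y - t) ^ 2 / 2)) * Real.exp (-((y - t) ^ 2 / 2))) := by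
    rw [← Real.exp_add, ← Real.exp_add]
    apply Real.exp_le_exp.mpr
    linarith
  have h6 : 1 + |y| ≤ (1 + t) * (1 + |y - t|) := by
    have h7 : |y| ≤ |y - t| + t := by
      have := abs_add_le (y - t) t
      rw [sub_add_cancel, abs_of_nonneg ht] at this
      exact this
    nlinarith [abs_nonneg (y - t)]
  have h8 : (1 + |y|) ^ 2 ≤ (1 + t) ^ 2 * (1 + |y - t|) ^ 2 := by
    rw [← mul_pow]
    exact pow_le_pow_left₀ (by positivity) h6 2
  have h9 := EDGE.sq_exp (y - t)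
  have h10 : Real.exp (-(1 / 2) * (y - t) ^ 2) = Real.exp (-((y - t) ^ 2 / 2)) := by
    congr 1
    ring
  rw [h10]
  set E := Real.exp (-((y - t) ^ 2 / 2)) with hE
  have hE0 : 0 < E := Real.exp_pos _
  set K := Real.exp (25 / 4) with hK
  have hK0 : 0 < K := Real.exp_pos _
  calc ‖Q97.MM.Z1 (x + y * I)‖ * Real.exp ((x - 1 / 2) ^ 2 - (y - t) ^ 2)
      ≤ (45 * (1 + |y|) ^ 2) * (K * (E * E)) :=
        mul_le_mul h3 h5 (Real.exp_pos _).le (by positivity)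
    _ ≤ (45 * ((1 + t) ^ 2 * (1 + |y - t|) ^ 2)) * (K * (E * E)) := by
        apply mul_le_mul_of_nonneg_right _ (by positivity)
        linarith
    _ = 45 * (1 + t) ^ 2 * K * E * ((1 + |y - t|) ^ 2 * E) := by ring
    _ ≤ 45 * (1 + t) ^ 2 * K * E * 4 := by
        apply mul_le_mul_of_nonneg_left h9 (by positivity)
    _ = 180 * K * (1 + t) * E * (1 + t) := by ring

theorem t_EDGE : S_EDGE := by
  have hK1 : (1 : ℝ) ≤ Real.exp (25 / 4) := Real.one_le_exp (by norm_num)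
  refine ⟨540 * Real.exp (25 / 4), by linarith, fun t p x ht hp h1 h2 => ?_⟩
  have ht1 : (1 : ℝ) ≤ 1 + t := by linarith
  set A := 180 * Real.exp (25 / 4) * (1 + t) with hA
  have hA0 : 0 < A := by positivity
  have hp0 : (0 : ℝ) < p := by linarith
  have hint : Integrable (fun y : ℝ => Real.exp (-(1 / 2) * (y - t) ^ 2)) :=
    (integrable_exp_neg_mul_sq (b := 1 / 2) (by norm_num)).comp_sub_right t
  have hpt : ∀ y : ℝ, ‖FF t (x + y * I)‖ ^ p ≤ A ^ p * Real.exp (-(1 / 2) * (y - t) ^ 2) := by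
    intro y
    calc ‖FF t (x + y * I)‖ ^ p ≤ (A * Real.exp (-(1 / 2) * (y - t) ^ 2)) ^ p :=
          Real.rpow_le_rpow (norm_nonneg _) (EDGE.pt ht h1 h2 y) hp0.le
      _ = A ^ p * Real.exp (-(1 / 2) * (y - t) ^ 2) ^ p := by
          rw [Real.mul_rpow hA0.le (Real.exp_pos _).le]
      _ ≤ A ^ p * Real.exp (-(1 / 2) * (y - t) ^ 2) := by
          apply mul_le_mul_of_nonneg_left _ (Real.rpow_nonneg hA0.le _)
          rw [← Real.exp_mul]
          apply Real.exp_le_exp.mpr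
          nlinarith [sq_nonneg (y - t)]
  have hI : ∫ y : ℝ, Real.exp (-(1 / 2) * (y - t) ^ 2) ≤ 3 := by
    rw [integral_sub_right_eq_self (fun y : ℝ => Real.exp (-(1 / 2) * y ^ 2)) t,
      integral_gaussian]
    rw [Real.sqrt_le_left (by norm_num)]
    have := Real.pi_le_four
    have := Real.pi_lt_d2
    linarith
  have h3 : Q97.RB.LI (FF t) p x ≤ A ^ p * 3 := by
    unfold Q97.RB.LI
    calc ∫ y : ℝ, ‖FF t (x + y * I)‖ ^ p
        ≤ ∫ y : ℝ, A ^ p * Real.exp (-(1 / 2) * (y - t) ^ 2) :=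
          integral_mono_of_nonneg (Eventually.of_forall fun y =>
            Real.rpow_nonneg (norm_nonneg _) _) (hint.const_mul _) (Eventually.of_forall hpt)
      _ = A ^ p * ∫ y : ℝ, Real.exp (-(1 / 2) * (y - t) ^ 2) := integral_const_mul _ _
      _ ≤ A ^ p * 3 := mul_le_mul_of_nonneg_left hI (Real.rpow_nonneg hA0.le _)
  have h4 : (3 : ℝ) ≤ 3 ^ p := by
    have := Real.rpow_le_rpow_of_exponent_le (by norm_num : (1 : ℝ) ≤ 3) hp
    rwa [Real.rpow_one] at this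
  calc Q97.RB.LI (FF t) p x ≤ A ^ p * 3 := h3
    _ ≤ A ^ p * 3 ^ p := mul_le_mul_of_nonneg_left h4 (Real.rpow_nonneg hA0.le _)
    _ = (A * 3) ^ p := (Real.mul_rpow hA0.le (by norm_num)).symm
    _ ≤ (540 * Real.exp (25 / 4) * (1 + t) ^ 2) ^ p := by
        apply Real.rpow_le_rpow (by positivity) _ hp0.le
        rw [hA]
        have : (1 + t) ≤ (1 + t) ^ 2 := by nlinarith
        have hE : (0 : ℝ) < Real.exp (25 / 4) := Real.exp_pos _
        nlinarith

end Pool.Agent.H83M
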