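import Pool.Agent.H83M.Stm
import Pool.Agent.Q97.RB.Gab

/-!
# Project ZM, piece GAB (helper12): Gabriel's convexity theorem for `FF t`
-/

set_option autoImplicit false

namespace Pool.Agent.H83M

open Complex MeasureTheory Set Filter Topology

namespace GAB

theorem line_ne {F : ℂ → ℂ} (hF : Differentiable ℂ F) (x : ℝ) (hne : ∃ z, F z ≠ 0) :
    ∃ y : ℝ, F (x + y * I) ≠ 0 := by
  by_contra hcon
  push Not at hcon
  obtain ⟨z, hz⟩ := hne
  apply hz
  have hA : AnalyticOnNhd ℂ F Set.univ := fun z _ => hF.analyticAt z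
  have ht : Tendsto (fun y : ℝ => (x : ℂ) + y * I) (𝓝[≠] 0) (𝓝[≠] (x : ℂ)) := by
    rw [tendsto_nhdsWithin_iff]
    constructor
    · have hc : Continuous (fun y : ℝ => (x : ℂ) + y * I) := by fun_prop
      have h3 := hc.tendsto 0
      simp only [Complex.ofReal_zero, zero_mul, add_zero] at h3
      exact h3.mono_left nhdsWithin_le_nhds
    · filter_upwards [self_mem_nhdsWithin] with y hy
      intro h
      apply hy
      have h4 : (x : ℂ) + y * I = x := h
      have h5 : (y : ℂ) * I = 0 := by simpa using h4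
      have h6 : (y : ℂ) = 0 := (mul_eq_zero.1 h5).resolve_right I_ne_zero
      exact_mod_cast h6
  have hfr : ∃ᶠ z in 𝓝[≠] (x : ℂ), F z = 0 :=
    ht.frequently (Filter.Eventually.frequently (Filter.Eventually.of_forall hcon))
  exact hA.eqOn_zero_of_preconnected_of_frequently_eq_zero isPreconnected_univ (mem_univ _) hfr
    (mem_univ z)

theorem LI_pos {F : ℂ → ℂ} (hF : Differentiable ℂ F) {α α' p x : ℝ} (hG : Q97.RB.Gd F α α')
    (hp : 0 < p) (h1 : α ≤ x) (h2 : x ≤ α') (hne : ∃ z, F z ≠ 0) : 0 < Q97.RB.LI F p x := by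
  obtain ⟨y, hy⟩ := line_ne hF x hne
  have hc := Q97.RB.li_cont hF hp x
  unfold Q97.RB.LI
  rw [integral_pos_iff_support_of_nonneg (fun y => by positivity) (Q97.RB.li_int hF hp hG h1 h2)]
  refine hc.isOpen_support.measure_pos _ ⟨y, ?_⟩
  rw [Function.mem_support]
  exact (Real.rpow_pos_of_pos (norm_pos_iff.2 hy) _).ne'

theorem FF_ne (t : ℝ) (ht : 0 ≤ t) : ∃ z, FF t z ≠ 0 := by
  refine ⟨1, ?_⟩
  unfold FF
  rw [Q97.MM.Z1_one, one_mul]
  refine div_ne_zero (Complex.exp_ne_zero _) ?_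
  intro h
  have h1 : ((1 + t : ℝ) : ℂ) = 0 := by push_cast; exact h
  have h2 : (1 + t : ℝ) = 0 := by exact_mod_cast h1
  linarith

theorem rpow_le_add_one {A θ : ℝ} (hA : 0 ≤ A) (h0 : 0 ≤ θ) (h1 : θ ≤ 1) : A ^ θ ≤ A + 1 := by
  rcases le_total A 1 with h | h
  · exact (Real.rpow_le_one hA h h0).trans (by linarith)
  · have := Real.rpow_le_rpow_of_exponent_le h h1
    rw [Real.rpow_one] at this
    linarith

theorem E_bound {C₀ T t p θ : ℝ} (hC : 1 ≤ C₀) (hT : Real.exp 4 ≤ T) (ht : 0 ≤ t) (htT : t ≤ T)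
    (hp : 1 ≤ p) (h0 : 0 ≤ θ) (h1 : θ ≤ 4 / Real.log T) :
    ((C₀ * (1 + t) ^ 2) ^ p) ^ θ ≤ (4 * C₀ * Real.exp 8) ^ p := by
  have hTpos : 0 < T := (Real.exp_pos 4).trans_le hT
  have hT1 : 1 ≤ T := (Real.one_le_exp (by norm_num)).trans hT
  have hL : 4 ≤ Real.log T := by
    rw [Real.le_log_iff_exp_le hTpos]
    exact hT
  have hLpos : 0 < Real.log T := by linarith
  obtain ⟨E, hE⟩ : ∃ E, E = C₀ * (1 + t) ^ 2 := ⟨_, rfl⟩
  have hE1 : 1 ≤ E := by
    rw [hE]
    have : 1 ≤ (1 + t) ^ 2 := by nlinarith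
    nlinarith
  have hE2 : E ≤ 4 * C₀ * T ^ 2 := by
    rw [hE]
    have : (1 + t) ^ 2 ≤ 4 * T ^ 2 := by nlinarith
    nlinarith
  rw [← hE, ← Real.rpow_mul (by linarith), mul_comm p θ, Real.rpow_mul (by linarith)]
  refine Real.rpow_le_rpow (by positivity) ?_ (by linarith)
  have h2 : Real.log E ≤ Real.log (4 * C₀) + 2 * Real.log T := by
    have h3 := Real.log_le_log (by linarith) hE2
    rw [Real.log_mul (by positivity) (by positivity), Real.log_pow] at h3
    push_cast at h3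
    exact h3
  have h3 : 0 ≤ Real.log E := Real.log_nonneg hE1
  have h4 : 0 ≤ Real.log (4 * C₀) := Real.log_nonneg (by linarith)
  rw [Real.rpow_def_of_pos (by linarith)]
  have h5 : 4 * C₀ * Real.exp 8 = Real.exp (Real.log (4 * C₀) + 8) := by
    rw [Real.exp_add, Real.exp_log (by linarith)]
  rw [h5]
  apply Real.exp_le_exp.2
  have h6 : Real.log E * θ ≤ Real.log E * (4 / Real.log T) := mul_le_mul_of_nonneg_left h1 h3
  refine h6.trans ?_
  rw [← mul_div_assoc, div_le_iff₀ hLpos]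
  nlinarith

end GAB

open GAB in
theorem t_GAB (h1 : S_GDF) (h2 : S_EDGE) : S_GAB := by
  obtain ⟨C₀, hC₀, hE⟩ := h2
  have h8 : (1:ℝ) ≤ Real.exp 8 := Real.one_le_exp (by norm_num)
  have h89 : (9:ℝ) ≤ Real.exp 8 := by
    have := Real.add_one_le_exp (8:ℝ)
    linarith
  refine ⟨4 * C₀ * Real.exp 8, by nlinarith, ?_⟩
  intro T t p x hT ht htT hp hx
  obtain ⟨hF, hG⟩ := h1 t ht
  have hne := FF_ne t ht
  have hT4 : Real.exp 4 ≤ T := by
    refine le_trans ?_ hT
    have h9 : Real.exp 4 ≤ Real.exp 8 := Real.exp_le_exp.2 (by norm_num)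
    nlinarith
  have hTpos : 0 < T := (Real.exp_pos 4).trans_le hT4
  have hL : 4 ≤ Real.log T := by
    rw [Real.le_log_iff_exp_le hTpos]
    exact hT4
  have hLpos : 0 < Real.log T := by linarith
  have hp0 : 0 < p := by linarith
  have hL4 : 1 / Real.log T ≤ 1 / 4 := one_div_le_one_div_of_le (by norm_num) hL
  have hA := Q97.RB.LI_nonneg (FF t) p (1 / 2)
  have hA' := LI_pos (x := 1 / 2) hF hG hp0 (by norm_num) (by norm_num) hne
  obtain ⟨K, hK⟩ : ∃ K, K = (4 * C₀ * Real.exp 8) ^ p := ⟨_, rfl⟩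
  have hK1 : 1 ≤ K := by
    rw [hK]
    exact Real.one_le_rpow (by nlinarith) hp0.le
  rw [← hK]
  have hK0 : 0 ≤ K := by linarith
  rcases lt_trichotomy x (1 / 2) with hlt | heq | hgt
  · -- the lines 1/4 and 1/2
    rw [abs_of_neg (by linarith)] at hx
    have hB' := LI_pos (x := 1 / 4) hF hG hp0 (by norm_num) (by norm_num) hne
    have hB := hE t p (1 / 4) ht hp le_rfl (by norm_num)
    have h4 := Q97.RB.LI_logconv (x₁ := 1 / 4) (x₂ := 1 / 2) (θ := 4 * x - 1) hF hp0 hG
      (by norm_num) (by norm_num) (by norm_num) (by linarith) (by linarith) hB' hA'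
    have h5 : (1 - (4 * x - 1)) * (1 / 4) + (4 * x - 1) * (1 / 2) = x := by ring
    rw [h5] at h4
    refine h4.trans ?_
    have h6 : Q97.RB.LI (FF t) p (1 / 4) ^ (1 - (4 * x - 1)) ≤ K := by
      rw [hK]
      refine (Real.rpow_le_rpow hB'.le hB (by linarith)).trans ?_
      apply E_bound hC₀ hT4 ht htT hp (by linarith)
      have h7 : (4:ℝ) / Real.log T = 4 * (1 / Real.log T) := by ring
      rw [h7]
      linarith
    exact mul_le_mul h6 (rpow_le_add_one hA (by linarith) (by linarith)) (by positivity) hK0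
  · rw [heq]
    nlinarith
  · -- the lines 1/2 and 1
    rw [abs_of_pos (by linarith)] at hx
    have hB' := LI_pos (x := 1) hF hG hp0 (by norm_num) (by norm_num) hne
    have hB := hE t p 1 ht hp (by norm_num) (by norm_num)
    have h4 := Q97.RB.LI_logconv (x₁ := 1 / 2) (x₂ := 1) (θ := 2 * x - 1) hF hp0 hG
      (by norm_num) (by norm_num) (by norm_num) (by linarith) (by linarith) hA' hB'
    have h5 : (1 - (2 * x - 1)) * (1 / 2) + (2 * x - 1) * 1 = x := by ring
    rw [h5] at h4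
    refine h4.trans ?_
    have h6 : Q97.RB.LI (FF t) p 1 ^ (2 * x - 1) ≤ K := by
      rw [hK]
      refine (Real.rpow_le_rpow hB'.le hB (by linarith)).trans ?_
      apply E_bound hC₀ hT4 ht htT hp (by linarith)
      have h7 : (4:ℝ) / Real.log T = 4 * (1 / Real.log T) := by ring
      rw [h7]
      linarith
    rw [mul_comm K]
    exact mul_le_mul (rpow_le_add_one hA (by linarith) (by linarith)) h6 (by positivity)
      (by positivity)

end Pool.Agent.H83M
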