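import Pool.Agent.H83M.Stm

/-!
# ZM, piece GDF (helper63): the test function is entire with Gaussian decay
-/

set_option autoImplicit false

namespace Pool.Agent.H83M

open Complex MeasureTheory Set Filter

namespace GDF

theorem nexp (t x y : ℝ) :
    ‖Complex.exp ((((x : ℂ) + y * I) - (((1 / 2 : ℝ) : ℂ) + t * I)) ^ 2)‖ =
      Real.exp ((x - 1 / 2) ^ 2 - (y - t) ^ 2) := by
  rw [Complex.norm_exp]
  congr 1
  rw [sq, Complex.mul_re]
  simp
  ring

theorem bound {t x y : ℝ} (ht : 0 ≤ t) (h1 : 1 / 4 ≤ x) (h2 : x ≤ 3) :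
    ‖FF t (x + y * I)‖ ≤ 45 * (1 + |y|) ^ 2 * (Real.exp (25 / 4) * Real.exp (-(y - t) ^ 2)) := by
  unfold FF
  rw [norm_div, norm_mul, nexp]
  have hd : 1 ≤ ‖(1 + (t : ℂ))‖ := by
    have e : (1 + (t : ℂ)) = ((1 + t : ℝ) : ℂ) := by push_cast; ring
    rw [e, Complex.norm_real, Real.norm_of_nonneg (by linarith)]
    linarith
  have hg := Q97.MM.Z1_growth (y := y) h1 h2
  have he : Real.exp ((x - 1 / 2) ^ 2 - (y - t) ^ 2) ≤
      Real.exp (25 / 4) * Real.exp (-(y - t) ^ 2) := by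
    rw [← Real.exp_add]
    apply Real.exp_le_exp.2
    nlinarith
  refine (div_le_self (by positivity) hd).trans ?_
  exact mul_le_mul hg he (by positivity) (by positivity)

end GDF

open GDF in
theorem t_GDF : S_GDF := by
  intro t ht
  refine ⟨?_, ?_⟩
  · unfold FF
    have h1 := Q97.MM.Z1_differentiable
    have h2 : Differentiable ℂ (fun s : ℂ =>
        Complex.exp ((s - (((1 / 2 : ℝ) : ℂ) + t * I)) ^ 2)) := by fun_prop
    exact (h1.mul h2).div_const _
  · refine ⟨45 * 8 * Real.exp (25 / 4) * Real.exp (t ^ 2), 1 / 4, by positivity, by norm_num, ?_⟩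
    intro x y h1 h2
    refine (bound ht h1 h2).trans ?_
    have ha : (1 + |y|) ^ 2 ≤ 8 * Real.exp (y ^ 2 / 4) := by
      have hb : y ^ 2 / 4 + 1 ≤ Real.exp (y ^ 2 / 4) := Real.add_one_le_exp _
      have hc : |y| ^ 2 = y ^ 2 := sq_abs y
      nlinarith [sq_nonneg (1 - |y|)]
    have hb : Real.exp (-(y - t) ^ 2) ≤ Real.exp (t ^ 2) * Real.exp (-(y ^ 2) / 2) := by
      rw [← Real.exp_add]
      apply Real.exp_le_exp.2
      nlinarith [sq_nonneg (y - 2 * t)]
    have hc : Real.exp (y ^ 2 / 4) * Real.exp (-(y ^ 2) / 2) = Real.exp (-(1 / 4) * y ^ 2) := by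
      rw [← Real.exp_add]
      congr 1
      ring
    calc 45 * (1 + |y|) ^ 2 * (Real.exp (25 / 4) * Real.exp (-(y - t) ^ 2))
        ≤ 45 * (8 * Real.exp (y ^ 2 / 4)) *
          (Real.exp (25 / 4) * (Real.exp (t ^ 2) * Real.exp (-(y ^ 2) / 2))) := by gcongr
      _ = 45 * 8 * Real.exp (25 / 4) * Real.exp (t ^ 2) *
          (Real.exp (y ^ 2 / 4) * Real.exp (-(y ^ 2) / 2)) := by ring
      _ = _ := by rw [hc]

end Pool.Agent.H83M
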