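import Pool.Agent.H83M.CRI

/-!
# ZM, piece GEN (helper83): all scales between `√(log t log log t)` and `log t`
-/

set_option autoImplicit false

namespace Pool.Agent.H83M

open Complex MeasureTheory Set Filter

/-- GEN: the inequality for `k log log T ≥ C φ(T)` and the bound `log |ζ(1/2 + it)| = O(φ(t))` -/
def S_GEN : Prop := ∀ (φ : ℝ → ℝ) (B t₁ : ℝ), MonotoneOn φ (Ici t₁) →
  (∀ t, t₁ ≤ t → φ (2 * t) ≤ B * φ t) →
  (∀ t, t₁ ≤ t → Real.sqrt (Real.log t * Real.log (Real.log t)) ≤ φ t) →
  ((∃ A t₀ : ℝ, ∀ t : ℝ, t₀ ≤ t → Z t ≤ Real.exp (A * φ t)) ↔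
    ∃ C T₀ : ℝ, ∀ T k : ℝ, T₀ ≤ T → 2 ≤ k → C * φ T ≤ k * Real.log (Real.log T) → Good k T)

open CRI in
theorem t_GEN (h : S_SUP) (hc : S_CVX) : S_GEN := by
  intro φ B t₁ hmono hdbl hlow
  constructor
  · rintro ⟨A, t₀, hA⟩
    set B' := max A 0 + 1 with hB'
    have hA0 : (0 : ℝ) ≤ max A 0 := le_max_right _ _
    have hAA : A ≤ max A 0 := le_max_left _ _
    have hB1 : 1 ≤ B' := by linarith
    set t₂ := max t₀ t₁ with ht₂
    obtain ⟨K, hK⟩ := (isCompact_Icc (a := (0 : ℝ)) (b := t₂)).exists_bound_of_continuousOn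
      Z_cont.continuousOn
    have hten : Tendsto (fun T : ℝ => Real.exp (Real.sqrt (Real.log T))) atTop atTop :=
      Real.tendsto_exp_atTop.comp (Real.tendsto_sqrt_atTop.comp Real.tendsto_log_atTop)
    have ev : ∀ᶠ T : ℝ in atTop, ∀ k : ℝ, 2 ≤ k →
        (2 * B') * φ T ≤ k * Real.log (Real.log T) → Good k T := by
      filter_upwards [eventually_ge_atTop (Real.exp (Real.exp 1)), hten.eventually_ge_atTop K,
        eventually_ge_atTop t₁] with T h1 h2 h3 k hk hC
      obtain ⟨hT0, hL, hLL⟩ := big h1
      have hs := hlow T h3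
      set L := Real.log T with hLdef
      set LL := Real.log L with hLLdef
      have hsL : Real.sqrt L ≤ Real.sqrt (L * LL) := Real.sqrt_le_sqrt (by nlinarith)
      have hs0 : 0 ≤ Real.sqrt (L * LL) := Real.sqrt_nonneg _
      have hφ0 : 0 ≤ φ T := hs0.trans hs
      have key : ∀ t, 0 ≤ t → t ≤ T → Z t ≤ Real.exp (B' * φ T) := by
        intro t ht ht2
        by_cases hcs : t ≤ t₂
        · have h4 := hK t ⟨ht, hcs⟩
          rw [Real.norm_of_nonneg (Z_nonneg t)] at h4
          refine h4.trans (h2.trans (Real.exp_le_exp.2 (hsL.trans ?_)))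
          nlinarith
        · have hc' : t₂ < t := not_le.1 hcs
          have h4 := hA t ((le_max_left _ _).trans hc'.le)
          refine h4.trans (Real.exp_le_exp.2 ?_)
          have h5 : t₁ ≤ t := (le_max_right _ _).trans hc'.le
          have h6 : φ t ≤ φ T := hmono h5 h3 ht2
          have h7 : 0 ≤ φ t := (Real.sqrt_nonneg _).trans (hlow t h5)
          calc A * φ t ≤ max A 0 * φ t := mul_le_mul_of_nonneg_right hAA h7
            _ ≤ max A 0 * φ T := mul_le_mul_of_nonneg_left h6 hA0
            _ ≤ B' * φ T := mul_le_mul_of_nonneg_right (by linarith) hφ0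
      have h3 := M_le k T (Real.exp (B' * φ T)) (by linarith) hT0.le key
      unfold Good
      refine h3.trans ?_
      rw [mul_comm]
      refine mul_le_mul_of_nonneg_left ?_ hT0.le
      rw [← Real.exp_mul, Real.rpow_def_of_pos (by linarith : 0 < L)]
      rw [Real.exp_le_exp]
      calc B' * φ T * (2 * k) = (2 * B' * φ T) * k := by ring
        _ ≤ (k * LL) * k := mul_le_mul_of_nonneg_right hC (by linarith)
        _ = Real.log L * k ^ 2 := by rw [← hLLdef]; ring
    obtain ⟨T₀, hT₀⟩ := eventually_atTop.1 ev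
    exact ⟨2 * B', T₀, fun T k hT hk hC => hT₀ T hT k hk hC⟩
  · rintro ⟨C, T₀, hC⟩
    obtain ⟨T₁, hT₁⟩ := h 1 one_pos
    obtain ⟨T₂, hT₂⟩ := hc
    set C' := max C 1 with hC'
    have hC1 : 1 ≤ C' := le_max_right _ _
    have hCC : C ≤ C' := le_max_left _ _
    set B₁ := max B 1 with hB₁
    have hB1 : 1 ≤ B₁ := le_max_right _ _
    have hBB : B ≤ B₁ := le_max_left _ _
    set D := C' * B₁ with hD
    have hD1 : 1 ≤ D := by nlinarith
    have ev : ∀ᶠ T : ℝ in atTop, Z T ≤ Real.exp ((1 + D / 2) * φ T) := by
      filter_upwards [eventually_ge_atTop (Real.exp (Real.exp 1)), eventually_ge_atTop T₀,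
        eventually_ge_atTop T₁, eventually_ge_atTop T₂, eventually_ge_atTop t₁, ev1 4]
        with T h1 hT0' hT1' hT2' ht1' h2
      obtain ⟨hT0, hL, hLL⟩ := big h1
      have hs := hlow T ht1'
      have hdb := hdbl T ht1'
      have hmo : φ T ≤ φ (2 * T) := hmono ht1' (show t₁ ≤ 2 * T by linarith) (by linarith)
      set L := Real.log T with hLdef
      set LL := Real.log L with hLLdef
      set s := Real.sqrt (L * LL) with hsdef
      have hs2 : s ^ 2 = L * LL := Real.sq_sqrt (by positivity)
      have hs0 : 0 < s := Real.sqrt_pos.2 (by positivity)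
      have hφ0 : 0 < φ T := lt_of_lt_of_le hs0 hs
      have hDφ : φ T ≤ D * φ T := by nlinarith
      rcases le_or_gt (D * φ T) L with hcase | hcase
      · set j := D * φ T / LL with hj
        have hjLL : j * LL = D * φ T := by
          rw [hj]
          field_simp
        have hj2 : 2 ≤ j := by
          rw [hj, le_div_iff₀ (by linarith)]
          have e1 : (2 * LL) ^ 2 ≤ s ^ 2 := by
            rw [hs2]
            nlinarith
          have e2 : 2 * LL ≤ s := le_of_sq_le_sq e1 hs0.le
          linarith
        have hj0 : 0 < j := by linarith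
        have hjT : L ^ j ≤ T := by
          rw [Real.rpow_def_of_pos (by linarith : 0 < L)]
          calc Real.exp (Real.log L * j) ≤ Real.exp L := Real.exp_le_exp.2 (by
                rw [← hLLdef]
                linarith)
            _ = T := Real.exp_log hT0
        have hgood : Good j (2 * T) := by
          refine hC (2 * T) j (by linarith) hj2 ?_
          have e1 : LL ≤ Real.log (Real.log (2 * T)) :=
            Real.log_le_log (by linarith) (Real.log_le_log hT0 (by linarith))
          calc C * φ (2 * T) ≤ C' * φ (2 * T) := mul_le_mul_of_nonneg_right hCC (by linarith)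
            _ ≤ C' * (B * φ T) := mul_le_mul_of_nonneg_left hdb (by linarith)
            _ ≤ C' * (B₁ * φ T) := by gcongr
            _ = j * LL := by rw [hjLL, hD]; ring
            _ ≤ j * Real.log (Real.log (2 * T)) := mul_le_mul_of_nonneg_left e1 hj0.le
        have hfin := hT₁ T j hT1' (by linarith) hjT hgood T hT0.le le_rfl
        refine hfin.trans ?_
        rw [Real.rpow_def_of_pos hT0, Real.rpow_def_of_pos (by linarith : 0 < Real.log T),
          ← Real.exp_add]
        apply Real.exp_le_exp.2
        rw [← hLdef, ← hLLdef]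
        have e4 : L / j ≤ φ T := by
          rw [div_le_iff₀ hj0]
          have e5 : L * LL ≤ φ T * j * LL := by
            calc L * LL = s ^ 2 := hs2.symm
              _ ≤ φ T ^ 2 := by gcongr
              _ = φ T * φ T := by ring
              _ ≤ φ T * (D * φ T) := mul_le_mul_of_nonneg_left hDφ hφ0.le
              _ = φ T * (j * LL) := by rw [hjLL]
              _ = φ T * j * LL := by ring
          exact le_of_mul_le_mul_right e5 (by linarith)
        calc L * ((1 + 1) / (2 * j)) + LL * (j / 2) = L / j + (j * LL) / 2 := by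
              field_simp
              ring
          _ ≤ φ T + (D * φ T) / 2 := by rw [hjLL]; linarith
          _ = (1 + D / 2) * φ T := by ring
      · refine (hT₂ T T hT2' hT0.le le_rfl).trans ?_
        rw [Real.rpow_def_of_pos hT0]
        apply Real.exp_le_exp.2
        rw [← hLdef]
        nlinarith
    obtain ⟨t₀, ht₀⟩ := eventually_atTop.1 ev
    exact ⟨_, t₀, fun t ht => ht₀ t ht⟩

end Pool.Agent.H83M
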