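import Pool.Agent.H83M.GEN

/-!
# ZM, piece GEN2 (helper83): a single order at every scale
-/

set_option autoImplicit false

namespace Pool.Agent.H83M

open Complex MeasureTheory Set Filter

/-- GEN2: the bound `log |ζ(1/2 + it)| = O(φ(t))` and the single order `C φ(T) / log log T` -/
def S_GEN2 : Prop := ∀ (φ : ℝ → ℝ) (B t₁ : ℝ), MonotoneOn φ (Ici t₁) →
  (∀ t, t₁ ≤ t → φ (2 * t) ≤ B * φ t) →
  (∀ t, t₁ ≤ t → Real.sqrt (Real.log t * Real.log (Real.log t)) ≤ φ t) →
  ((∃ A t₀ : ℝ, ∀ t : ℝ, t₀ ≤ t → Z t ≤ Real.exp (A * φ t)) ↔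
    ∃ C T₀ : ℝ, 0 < C ∧ ∀ T : ℝ, T₀ ≤ T → Good (C * φ T / Real.log (Real.log T)) T)

namespace GEN2

/-- `φ(T) / log log T` is large -/
lemma ratio {φ : ℝ → ℝ} {t₁ : ℝ} (a : ℝ)
    (hlow : ∀ t, t₁ ≤ t → Real.sqrt (Real.log t * Real.log (Real.log t)) ≤ φ t) :
    ∀ᶠ T : ℝ in atTop, a * Real.log (Real.log T) ≤ φ T := by
  filter_upwards [eventually_ge_atTop (Real.exp (Real.exp 1)), eventually_ge_atTop t₁,
    CRI.ev1 (a ^ 2)] with T h1 h2 h3
  obtain ⟨hT0, hL, hLL⟩ := CRI.big h1
  have hs := hlow T h2
  have hs2 : Real.sqrt (Real.log T * Real.log (Real.log T)) ^ 2 =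
      Real.log T * Real.log (Real.log T) := Real.sq_sqrt (by positivity)
  have e1 : (a * Real.log (Real.log T)) ^ 2 ≤
      Real.sqrt (Real.log T * Real.log (Real.log T)) ^ 2 := by
    rw [hs2]
    nlinarith
  exact (le_of_sq_le_sq e1 (Real.sqrt_nonneg _)).trans hs

end GEN2

open CRI in
theorem t_GEN2 (h : S_SUP) (hc : S_CVX) : S_GEN2 := by
  intro φ B t₁ hmono hdbl hlow
  constructor
  · intro hA
    obtain ⟨C, T₀, hC⟩ := (t_GEN h hc φ B t₁ hmono hdbl hlow).1 hA
    have hC1 : 1 ≤ max C 1 := le_max_right _ _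
    have ev : ∀ᶠ T : ℝ in atTop, Good (max C 1 * φ T / Real.log (Real.log T)) T := by
      filter_upwards [eventually_ge_atTop (Real.exp (Real.exp 1)), eventually_ge_atTop t₁,
        eventually_ge_atTop T₀, GEN2.ratio 2 hlow] with T h1 h2 h3 h4
      obtain ⟨hT0, hL, hLL⟩ := big h1
      have hφ0 : 0 ≤ φ T := (Real.sqrt_nonneg _).trans (hlow T h2)
      refine hC T _ h3 ?_ ?_
      · rw [le_div_iff₀ (by linarith)]
        nlinarith
      · rw [div_mul_cancel₀ _ (by linarith)]
        exact mul_le_mul_of_nonneg_right (le_max_left _ _) hφ0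
    obtain ⟨T₁, hT₁⟩ := eventually_atTop.1 ev
    exact ⟨max C 1, T₁, by linarith, hT₁⟩
  · rintro ⟨C, T₀, hC0, hC⟩
    obtain ⟨T₁, hT₁⟩ := h 1 one_pos
    obtain ⟨T₂, hT₂⟩ := hc
    set B₁ := max B 1 with hB₁
    have hB1 : 1 ≤ B₁ := le_max_right _ _
    have hBB : B ≤ B₁ := le_max_left _ _
    have hC3 : (0:ℝ) < 1 / C := by positivity
    obtain ⟨T₃, hT₃⟩ := eventually_atTop.1 (GEN2.ratio (1 / C) hlow)
    have ev : ∀ᶠ T : ℝ in atTop, Z T ≤ Real.exp ((2 / C + C * B₁ / 2) * φ T) := by
      filter_upwards [eventually_ge_atTop (Real.exp (Real.exp 1)), eventually_ge_atTop T₀,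
        eventually_ge_atTop T₁, eventually_ge_atTop T₂, eventually_ge_atTop t₁,
        eventually_ge_atTop T₃]
        with T h1 hT0' hT1' hT2' ht1' hT3'
      obtain ⟨hT0, hL, hLL⟩ := big h1
      have hs := hlow T ht1'
      have hdb := hdbl T ht1'
      have h2T : Real.exp (Real.exp 1) ≤ 2 * T := by linarith
      obtain ⟨hT0'', hL2, hLL2⟩ := big h2T
      have hmo : φ T ≤ φ (2 * T) := hmono ht1' (show t₁ ≤ 2 * T by linarith) (by linarith)
      have hr := hT₃ (2 * T) (by linarith)
      -- the logarithms of `2T`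
      have hlog2 : Real.log (2 * T) ≤ 2 * Real.log T := by
        rw [Real.log_mul (by norm_num) hT0.ne']
        have : Real.log 2 ≤ 1 := by
          have := Real.log_two_lt_d9
          linarith
        linarith
      have hlog1 : Real.log T ≤ Real.log (2 * T) := Real.log_le_log hT0 (by linarith)
      have hll1 : Real.log (Real.log T) ≤ Real.log (Real.log (2 * T)) :=
        Real.log_le_log (by linarith) hlog1
      have hll2 : Real.log (Real.log (2 * T)) ≤ 2 * Real.log (Real.log T) := by
        have e1 : Real.log (Real.log (2 * T)) ≤ Real.log (2 * Real.log T) :=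
          Real.log_le_log (by linarith) hlog2
        have e2 : Real.log (2 * Real.log T) = Real.log 2 + Real.log (Real.log T) :=
          Real.log_mul (by norm_num) (by linarith)
        rw [e2] at e1
        have : Real.log 2 ≤ 1 := by
          have := Real.log_two_lt_d9
          linarith
        linarith
      set L := Real.log T with hLdef
      set LL := Real.log L with hLLdef
      set L2 := Real.log (Real.log (2 * T)) with hL2def
      set s := Real.sqrt (L * LL) with hsdef
      have hs2 : s ^ 2 = L * LL := Real.sq_sqrt (by positivity)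
      have hs0 : 0 < s := Real.sqrt_pos.2 (by positivity)
      have hφ0 : 0 < φ T := lt_of_lt_of_le hs0 hs
      have hφB : φ (2 * T) ≤ B₁ * φ T := hdb.trans (mul_le_mul_of_nonneg_right hBB hφ0.le)
      set j := C * φ (2 * T) / L2 with hj
      have hjL2 : j * L2 = C * φ (2 * T) := by
        rw [hj]
        field_simp
      have hj1 : 1 ≤ j := by
        rw [hj, le_div_iff₀ (by linarith)]
        have e1 : C * (1 / C * L2) ≤ C * φ (2 * T) := mul_le_mul_of_nonneg_left hr hC0.le
        have e2 : C * (1 / C * L2) = L2 := by field_simp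
        linarith
      have hj0 : 0 < j := by linarith
      have hjLL : j * LL ≤ C * B₁ * φ T := by
        calc j * LL ≤ j * L2 := mul_le_mul_of_nonneg_left hll1 hj0.le
          _ = C * φ (2 * T) := hjL2
          _ ≤ C * (B₁ * φ T) := mul_le_mul_of_nonneg_left hφB hC0.le
          _ = C * B₁ * φ T := by ring
      have hC2 : 0 < 2 / C := by positivity
      rcases le_or_gt (j * LL) L with hcase | hcase
      · have hjT : L ^ j ≤ T := by
          rw [Real.rpow_def_of_pos (by linarith : 0 < L)]
          calc Real.exp (Real.log L * j) ≤ Real.exp L := Real.exp_le_exp.2 (by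
                rw [← hLLdef]
                linarith)
            _ = T := Real.exp_log hT0
        have hfin := hT₁ T j hT1' hj1 hjT (hC (2 * T) (by linarith)) T hT0.le le_rfl
        refine hfin.trans ?_
        rw [Real.rpow_def_of_pos hT0, Real.rpow_def_of_pos (by linarith : 0 < Real.log T),
          ← Real.exp_add]
        apply Real.exp_le_exp.2
        rw [← hLdef, ← hLLdef]
        have e4 : L / j ≤ 2 / C * φ T := by
          rw [div_le_iff₀ hj0]
          have e5 : L * LL ≤ 2 / C * φ T * j * LL := by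
            have e6 : C * φ T ≤ j * (2 * LL) := by
              calc C * φ T ≤ C * φ (2 * T) := mul_le_mul_of_nonneg_left hmo hC0.le
                _ = j * L2 := hjL2.symm
                _ ≤ j * (2 * LL) := mul_le_mul_of_nonneg_left hll2 hj0.le
            calc L * LL = s ^ 2 := hs2.symm
              _ ≤ φ T ^ 2 := by gcongr
              _ = 1 / C * φ T * (C * φ T) := by field_simp
              _ ≤ 1 / C * φ T * (j * (2 * LL)) :=
                  mul_le_mul_of_nonneg_left e6 (mul_nonneg hC3.le hφ0.le)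
              _ = 2 / C * φ T * j * LL := by ring
          exact le_of_mul_le_mul_right e5 (by linarith)
        calc L * ((1 + 1) / (2 * j)) + LL * (j / 2) = L / j + (j * LL) / 2 := by
              field_simp
              ring
          _ ≤ 2 / C * φ T + (C * B₁ * φ T) / 2 := by linarith
          _ = (2 / C + C * B₁ / 2) * φ T := by ring
      · refine (hT₂ T T hT2' hT0.le le_rfl).trans ?_
        rw [Real.rpow_def_of_pos hT0]
        apply Real.exp_le_exp.2
        rw [← hLdef]
        have e1 : 0 < 2 / C * φ T := mul_pos hC2 hφ0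
        calc L * (1 / 2) ≤ (C * B₁ * φ T) / 2 := by linarith
          _ ≤ 2 / C * φ T + (C * B₁ * φ T) / 2 := by linarith
          _ = (2 / C + C * B₁ / 2) * φ T := by ring
    obtain ⟨t₀, ht₀⟩ := eventually_atTop.1 ev
    exact ⟨_, t₀, fun t ht => ht₀ t ht⟩

end Pool.Agent.H83M
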