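import Pool.Agent.H83M.Stm

/-!
# PROJECT ZM (helper83), piece HALF: the line `1/2`, Gaussian tails
-/

set_option autoImplicit false

namespace Pool.Agent.H83M

open Complex MeasureTheory Set Filter

noncomputable section

namespace HALF

theorem Z_cont : Continuous Z := by
  unfold Z
  refine Continuous.norm ?_
  rw [continuous_iff_continuousAt]
  intro t
  have h1 : (1 / 2 + (t : ℂ) * I) ≠ 1 := by
    intro h
    have h2 := congrArg Complex.re h
    simp at h2
  exact (differentiableAt_riemannZeta h1).continuousAt.comp (f := fun t : ℝ => 1 / 2 + (t : ℂ) * I)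
    (by fun_prop)

theorem Z_neg (t : ℝ) : Z (-t) = Z t := by
  unfold Z
  have h1 : (1 / 2 + ((-t : ℝ) : ℂ) * I) = (starRingEnd ℂ) (1 / 2 + (t : ℂ) * I) := by
    apply Complex.ext <;> simp
  rw [h1, riemannZeta_conj, Complex.norm_conj]

theorem Z_nonneg (t : ℝ) : 0 ≤ Z t := norm_nonneg _

theorem norm_FF {t : ℝ} (ht : 0 ≤ t) (y : ℝ) :
    ‖FF t (((1 / 2 : ℝ) : ℂ) + y * I)‖ =
      ‖Q97.MM.Z1 (((1 / 2 : ℝ) : ℂ) + y * I)‖ * Real.exp (-(y - t) ^ 2) / (1 + t) := by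
  unfold FF
  have h1 : (((1 / 2 : ℝ) : ℂ) + y * I - (((1 / 2 : ℝ) : ℂ) + t * I)) ^ 2 =
      ((-(y - t) ^ 2 : ℝ) : ℂ) := by
    push_cast
    have : ((1 / 2 : ℂ) + y * I - ((1 / 2 : ℂ) + t * I)) = (y - t) * I := by ring
    rw [this, mul_pow, Complex.I_sq]
    ring
  rw [h1, norm_div, norm_mul, ← Complex.ofReal_exp, Complex.norm_real, Real.norm_eq_abs,
    Real.abs_exp]
  congr 1
  rw [← Complex.ofReal_one, ← Complex.ofReal_add, Complex.norm_real, Real.norm_eq_abs,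
    abs_of_nonneg (by linarith)]

theorem abs_bd {t : ℝ} (ht : 0 ≤ t) (y : ℝ) : 1 + |y| ≤ (1 + t) * (1 + |y - t|) := by
  have h1 : |y| ≤ |y - t| + t := by
    have := abs_add_le (y - t) t
    rw [sub_add_cancel, abs_of_nonneg ht] at this
    exact this
  have h2 : 0 ≤ |y - t| := abs_nonneg _
  nlinarith [mul_nonneg ht h2]

theorem exp_bd1 (v : ℝ) : (1 + v) * Real.exp (-v ^ 2) ≤ 2 := by
  have h1 : v ^ 2 + 1 ≤ Real.exp (v ^ 2) := Real.add_one_le_exp _
  have h2 : 1 + v ≤ 2 * Real.exp (v ^ 2) := by nlinarith [sq_nonneg (v - 1)]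
  rw [Real.exp_neg]
  have h3 : 0 < Real.exp (v ^ 2) := Real.exp_pos _
  rw [← div_eq_mul_inv, div_le_iff₀ h3]
  exact h2

theorem exp_bd2 (v : ℝ) : (1 + v) ^ 2 ≤ 4 * Real.exp (v ^ 2 / 2) := by
  have h1 : v ^ 2 / 2 + 1 ≤ Real.exp (v ^ 2 / 2) := Real.add_one_le_exp _
  nlinarith [sq_nonneg (v - 1)]

theorem bd_all {t : ℝ} (ht : 0 ≤ t) (y : ℝ) :
    ‖FF t (((1 / 2 : ℝ) : ℂ) + y * I)‖ ≤ 2 * Z y := by
  rw [norm_FF ht]
  have hne : (((1 / 2 : ℝ) : ℂ) + y * I) ≠ 1 := by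
    intro h
    have h2 := congrArg Complex.re h
    simp at h2
  rw [Q97.MM.Z1_of_ne hne, norm_mul]
  have h1 : ‖(((1 / 2 : ℝ) : ℂ) + y * I) - 1‖ ≤ 1 + |y| := by
    have e : (((1 / 2 : ℝ) : ℂ) + y * I) - 1 = ((-1 / 2 : ℝ) : ℂ) + y * I := by
      push_cast
      ring
    rw [e]
    refine (norm_add_le _ _).trans ?_
    rw [norm_mul, Complex.norm_I, mul_one, Complex.norm_real, Complex.norm_real, Real.norm_eq_abs,
      Real.norm_eq_abs]
    have : |(-1 / 2 : ℝ)| ≤ 1 := by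
      rw [abs_le]
      constructor <;> norm_num
    linarith
  have h2 : ‖riemannZeta (((1 / 2 : ℝ) : ℂ) + y * I)‖ = Z y := by
    unfold Z
    push_cast
    rfl
  rw [h2]
  have h3 := h1.trans (abs_bd ht y)
  have h4 : (1 + |y - t|) * Real.exp (-(y - t) ^ 2) ≤ 2 := by
    have := exp_bd1 |y - t|
    rwa [sq_abs] at this
  rw [div_le_iff₀ (by linarith)]
  have hZ := Z_nonneg y
  have hE := Real.exp_pos (-(y - t) ^ 2)
  calc ‖(((1 / 2 : ℝ) : ℂ) + y * I) - 1‖ * Z y * Real.exp (-(y - t) ^ 2)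
      ≤ ((1 + t) * (1 + |y - t|)) * Z y * Real.exp (-(y - t) ^ 2) := by gcongr
    _ = (1 + t) * Z y * ((1 + |y - t|) * Real.exp (-(y - t) ^ 2)) := by ring
    _ ≤ (1 + t) * Z y * 2 := by
        apply mul_le_mul_of_nonneg_left h4
        exact mul_nonneg (by linarith) hZ
    _ = 2 * Z y * (1 + t) := by ring

theorem bd_far {T t : ℝ} (hT : 36 ≤ T) (ht : 0 ≤ t) (htT : t ≤ T) {y : ℝ} (hy : 2 * T < |y|) :
    ‖FF t (((1 / 2 : ℝ) : ℂ) + y * I)‖ ≤ 1 / 4 * Real.exp (-(1 / 4) * (y - t) ^ 2) := by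
  rw [norm_FF ht]
  have h1 := Q97.MM.Z1_growth (x := 1 / 2) (y := y) (by norm_num) (by norm_num)
  have hu : T ≤ |y - t| := by
    have := abs_add_le (y - t) t
    rw [sub_add_cancel, abs_of_nonneg ht] at this
    linarith
  set v := |y - t| with hv
  have hv2 : (y - t) ^ 2 = v ^ 2 := by rw [hv, sq_abs]
  have hab : 1 + |y| ≤ (1 + t) * (1 + v) := abs_bd ht y
  have h0 : 0 ≤ 1 + |y| := by positivity
  rw [hv2, div_le_iff₀ (by linarith)]
  have hexp : Real.exp (-v ^ 2) = Real.exp (-(v ^ 2 / 2)) * Real.exp (-(v ^ 2 / 4)) *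
      Real.exp (-(1 / 4) * v ^ 2) := by
    rw [← Real.exp_add, ← Real.exp_add]
    congr 1
    ring
  have h2 : (1 + v) ^ 2 * Real.exp (-(v ^ 2 / 2)) ≤ 4 := by
    rw [Real.exp_neg, ← div_eq_mul_inv, div_le_iff₀ (Real.exp_pos _)]
    exact exp_bd2 v
  have h3 : 720 * (1 + T) * Real.exp (-(v ^ 2 / 4)) ≤ 1 := by
    rw [Real.exp_neg, ← div_eq_mul_inv, div_le_iff₀ (Real.exp_pos _), one_mul]
    have h5 : T ^ 2 ≤ v ^ 2 := by nlinarith
    have h6 : Real.exp (T ^ 2 / 4) ≤ Real.exp (v ^ 2 / 4) := Real.exp_le_exp.mpr (by linarith)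
    have h7 := Real.quadratic_le_exp_of_nonneg (x := T ^ 2 / 4) (by positivity)
    have h8 : 46656 ≤ T ^ 3 := by
      have : (36 : ℝ) ^ 3 ≤ T ^ 3 := by gcongr
      norm_num at this
      exact this
    have h9 : T * 46656 ≤ T * T ^ 3 := by
      apply mul_le_mul_of_nonneg_left h8
      linarith
    nlinarith
  have hE2 := Real.exp_pos (-(v ^ 2 / 4))
  have hE3 := Real.exp_pos (-(1 / 4) * v ^ 2)
  have hE1 := Real.exp_pos (-(v ^ 2 / 2))
  calc ‖Q97.MM.Z1 (((1 / 2 : ℝ) : ℂ) + y * I)‖ * Real.exp (-v ^ 2)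
      ≤ 45 * ((1 + t) * (1 + v)) ^ 2 * Real.exp (-v ^ 2) := by
        refine mul_le_mul_of_nonneg_right (h1.trans ?_) (Real.exp_pos _).le
        have : (1 + |y|) ^ 2 ≤ ((1 + t) * (1 + v)) ^ 2 := by gcongr
        linarith
    _ = 45 * (1 + t) * (((1 + v) ^ 2 * Real.exp (-(v ^ 2 / 2))) *
          ((1 + t) * Real.exp (-(v ^ 2 / 4)))) * Real.exp (-(1 / 4) * v ^ 2) := by
        rw [hexp]
        ring
    _ ≤ 45 * (1 + t) * (4 * ((1 + T) * Real.exp (-(v ^ 2 / 4)))) *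
          Real.exp (-(1 / 4) * v ^ 2) := by
        refine mul_le_mul_of_nonneg_right (mul_le_mul_of_nonneg_left ?_ (by linarith)) hE3.le
        refine mul_le_mul h2 ?_ (by positivity) (by norm_num)
        exact mul_le_mul_of_nonneg_right (by linarith) hE2.le
    _ = 1 / 4 * (720 * (1 + T) * Real.exp (-(v ^ 2 / 4))) * (1 + t) *
          Real.exp (-(1 / 4) * v ^ 2) := by ring
    _ ≤ 1 / 4 * 1 * (1 + t) * Real.exp (-(1 / 4) * v ^ 2) := by
        refine mul_le_mul_of_nonneg_right (mul_le_mul_of_nonneg_right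
          (mul_le_mul_of_nonneg_left h3 (by norm_num)) (by linarith)) hE3.le
    _ = 1 / 4 * Real.exp (-(1 / 4) * v ^ 2) * (1 + t) := by ring

end HALF

open HALF

theorem t_HALF : S_HALF := by
  refine ⟨36, by norm_num, fun T t p hT ht htT hp => ?_⟩
  have hp0 : 0 < p := by linarith
  have hT0 : 0 < T := by linarith
  set G1 : ℝ → ℝ := (Icc (-(2 * T)) (2 * T)).indicator (fun y => 2 ^ p * Z y ^ p) with hG1
  set G2 : ℝ → ℝ := fun y => 1 / 4 * Real.exp (-(1 / 4) * (y - t) ^ 2) with hG2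
  have hZc : Continuous fun y => Z y ^ p := Z_cont.rpow_const fun _ => Or.inr hp0.le
  have hG1i : Integrable G1 := by
    rw [hG1, integrable_indicator_iff measurableSet_Icc]
    exact (continuous_const.mul hZc).continuousOn.integrableOn_compact isCompact_Icc
  have hG2i : Integrable G2 := by
    rw [hG2]
    exact ((integrable_exp_neg_mul_sq (b := 1 / 4) (by norm_num)).comp_sub_right t).const_mul _
  have hpt : ∀ y : ℝ, ‖FF t (((1 / 2 : ℝ) : ℂ) + y * I)‖ ^ p ≤ G1 y + G2 y := by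
    intro y
    have hG2n : 0 ≤ G2 y := by rw [hG2]; positivity
    by_cases hy : y ∈ Icc (-(2 * T)) (2 * T)
    · rw [hG1, indicator_of_mem hy]
      have h1 : ‖FF t (((1 / 2 : ℝ) : ℂ) + y * I)‖ ^ p ≤ (2 * Z y) ^ p :=
        Real.rpow_le_rpow (norm_nonneg _) (bd_all ht y) hp0.le
      rw [Real.mul_rpow (by norm_num) (Z_nonneg y)] at h1
      linarith
    · rw [hG1, indicator_of_notMem hy, zero_add]
      have hy' : 2 * T < |y| := by
        rw [mem_Icc, not_and_or, not_le, not_le] at hy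
        rcases hy with hy | hy
        · have : -y ≤ |y| := neg_le_abs y
          linarith
        · exact hy.trans_le (le_abs_self y)
      have h1 := bd_far hT ht htT hy'
      have h2 : 1 / 4 * Real.exp (-(1 / 4) * (y - t) ^ 2) ≤ 1 := by
        have : Real.exp (-(1 / 4) * (y - t) ^ 2) ≤ 1 := by
          rw [Real.exp_le_one_iff]
          nlinarith [sq_nonneg (y - t)]
        linarith
      calc ‖FF t (((1 / 2 : ℝ) : ℂ) + y * I)‖ ^ p
          ≤ (1 / 4 * Real.exp (-(1 / 4) * (y - t) ^ 2)) ^ p :=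
            Real.rpow_le_rpow (norm_nonneg _) h1 hp0.le
        _ ≤ (1 / 4 * Real.exp (-(1 / 4) * (y - t) ^ 2)) ^ (1 : ℝ) :=
            Real.rpow_le_rpow_of_exponent_ge (by positivity) h2 hp
        _ = G2 y := Real.rpow_one _
  have h1 : Q97.RB.LI (FF t) p (1 / 2) ≤ ∫ y, (G1 y + G2 y) := by
    unfold Q97.RB.LI
    exact integral_mono_of_nonneg (Eventually.of_forall fun y => by positivity)
      (hG1i.add hG2i) (Eventually.of_forall hpt)
  have hI1 : ∫ y, G1 y = 2 * 2 ^ p * ∫ y in (0:ℝ)..(2 * T), Z y ^ p := by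
    rw [hG1, integral_indicator measurableSet_Icc, integral_Icc_eq_integral_Ioc,
      ← intervalIntegral.integral_of_le (by linarith), intervalIntegral.integral_const_mul]
    have h2 : ∫ y in (-(2 * T))..(2 * T), Z y ^ p =
        (∫ y in (-(2 * T))..0, Z y ^ p) + ∫ y in (0:ℝ)..(2 * T), Z y ^ p :=
      (intervalIntegral.integral_add_adjacent_intervals (hZc.intervalIntegrable _ _)
        (hZc.intervalIntegrable _ _)).symm
    have h3 : (∫ y in (-(2 * T))..0, Z y ^ p) = ∫ y in (0:ℝ)..(2 * T), Z y ^ p := by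
      have h4 := intervalIntegral.integral_comp_neg (a := 0) (b := 2 * T) (fun y => Z y ^ p)
      rw [neg_zero] at h4
      rw [← h4]
      simp only [Z_neg]
    rw [h2, h3]
    ring
  have hI2 : ∫ y, G2 y ≤ 1 := by
    rw [hG2, integral_const_mul, integral_sub_right_eq_self (fun y => Real.exp (-(1 / 4) * y ^ 2)) t,
      integral_gaussian]
    have h2 : √(Real.pi / (1 / 4)) ≤ 4 := by
      rw [Real.sqrt_le_left (by norm_num)]
      have := Real.pi_lt_four
      linarith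
    linarith
  rw [integral_add hG1i hG2i, hI1] at h1
  linarith

end

end Pool.Agent.H83M
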