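import Pool.Agent.H83M.Stm

set_option autoImplicit false

namespace Pool.Agent.H83M

open Complex MeasureTheory Set Filter

namespace LIN

theorem loglog (c : ℝ) (hc : 0 < c) :
    ∀ᶠ t : ℝ in atTop, Real.log (Real.log t) ≤ c * Real.log t := by
  have h1 := (Real.isLittleO_log_id_atTop).bound hc
  have h2 := Real.tendsto_log_atTop.eventually h1
  filter_upwards [h2, eventually_ge_atTop (1 : ℝ)] with t ht h1t
  have h3 : 0 ≤ Real.log t := Real.log_nonneg h1t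
  have h4 : ‖Real.log (Real.log t)‖ ≤ c * ‖Real.log t‖ := ht
  rw [Real.norm_of_nonneg h3] at h4
  exact (le_abs_self _).trans h4

theorem Z_cont : Continuous Z := by
  unfold Z
  refine Continuous.norm ?_
  rw [continuous_iff_continuousAt]
  intro t
  have h1 : (1 / 2 + (t : ℂ) * I) ≠ 1 := by
    intro h
    have := congrArg Complex.re h
    simp at this
  have h2 : ContinuousAt riemannZeta (1 / 2 + (t : ℂ) * I) :=
    (differentiableAt_riemannZeta h1).continuousAt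
  have h3 : ContinuousAt (fun t : ℝ => (1 / 2 + (t : ℂ) * I)) t := by fun_prop
  exact ContinuousAt.comp (f := fun t : ℝ => (1 / 2 + (t : ℂ) * I)) h2 h3

theorem Z_nonneg (t : ℝ) : 0 ≤ Z t := norm_nonneg _

theorem fwd (h : ∀ ε : ℝ, 0 < ε → ∃ t₀ : ℝ, ∀ t : ℝ, t₀ ≤ t → Z t ≤ t ^ ε) (ε : ℝ) (hε : 0 < ε) :
    ∃ T₀ : ℝ, ∀ T k : ℝ, T₀ ≤ T → 2 ≤ k → T ^ ε ≤ Real.log T ^ k → Good k T := by
  obtain ⟨t₀, ht₀⟩ := h (ε / 2) (half_pos hε)
  obtain ⟨B, hB⟩ := (isCompact_Icc (a := (0 : ℝ)) (b := t₀)).exists_bound_of_continuousOn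
    Z_cont.continuousOn
  have e1 : ∀ᶠ T : ℝ in atTop, B ≤ T ^ (ε / 2) :=
    (tendsto_rpow_atTop (half_pos hε)).eventually_ge_atTop B
  obtain ⟨T₀, hT₀⟩ := Filter.eventually_atTop.1 (e1.and (eventually_ge_atTop (3 : ℝ)))
  refine ⟨T₀, fun T k hT hk hTk => ?_⟩
  obtain ⟨hB', hT3⟩ := hT₀ T hT
  have hT0 : 0 ≤ T := by linarith
  have hT1 : 1 ≤ T := by linarith
  have hk0 : 0 ≤ k := by linarith
  have hlog : 0 ≤ Real.log T := Real.log_nonneg hT1
  have hZ : ∀ t, 0 ≤ t → t ≤ T → Z t ≤ T ^ (ε / 2) := by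
    intro t h0 h1
    rcases le_total t₀ t with h2 | h2
    · exact (ht₀ t h2).trans (Real.rpow_le_rpow h0 h1 (half_pos hε).le)
    · have h3 := hB t ⟨h0, h2⟩
      rw [Real.norm_of_nonneg (Z_nonneg t)] at h3
      exact h3.trans hB'
  have h1 : ‖∫ t in (0:ℝ)..T, Z t ^ (2 * k)‖ ≤ (T ^ (ε / 2)) ^ (2 * k) * |T - 0| := by
    refine intervalIntegral.norm_integral_le_of_norm_le_const fun t ht => ?_
    rw [uIoc_of_le hT0] at ht
    rw [Real.norm_of_nonneg (Real.rpow_nonneg (Z_nonneg t) _)]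
    exact Real.rpow_le_rpow (Z_nonneg t) (hZ t ht.1.le ht.2) (by positivity)
  have h2 : (T ^ (ε / 2)) ^ (2 * k) = (T ^ ε) ^ k := by
    rw [← Real.rpow_mul hT0, ← Real.rpow_mul hT0]
    congr 1
    ring
  have h3 : (T ^ ε) ^ k ≤ Real.log T ^ (k ^ 2) := by
    have h4 : Real.log T ^ (k ^ 2) = (Real.log T ^ k) ^ k := by
      rw [← Real.rpow_mul hlog, sq]
    rw [h4]
    exact Real.rpow_le_rpow (Real.rpow_nonneg hT0 _) hTk hk0
  unfold Good M
  refine (le_abs_self _).trans (h1.trans ?_)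
  rw [h2, sub_zero, abs_of_nonneg hT0, mul_comm]
  exact mul_le_mul_of_nonneg_left h3 hT0

theorem bwd (hS : S_SUP) (h : ∀ ε : ℝ, 0 < ε → ∃ T₀ : ℝ, ∀ T k : ℝ, T₀ ≤ T → 2 ≤ k →
    T ^ ε ≤ Real.log T ^ k → Good k T) (ε : ℝ) (hε : 0 < ε) (hε1 : ε ≤ 1) :
    ∃ t₀ : ℝ, ∀ t : ℝ, t₀ ≤ t → Z t ≤ t ^ ε := by
  obtain ⟨T₁, hT₁⟩ := h (ε / 2) (half_pos hε)
  obtain ⟨T₂, hT₂⟩ := hS 1 one_pos
  have e1 := loglog (ε / 2) (half_pos hε)
  have e2 := loglog (ε ^ 2 / 2) (by positivity)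
  have e3 : ∀ᶠ t : ℝ in atTop, (Real.exp 1 : ℝ) ≤ Real.log t :=
    Real.tendsto_log_atTop.eventually_ge_atTop _
  obtain ⟨t₀, ht₀⟩ := Filter.eventually_atTop.1 (((e1.and e2).and e3).and
    (((eventually_ge_atTop T₁).and (eventually_ge_atTop T₂)).and (eventually_ge_atTop (2 : ℝ))))
  refine ⟨t₀, fun t ht => ?_⟩
  obtain ⟨⟨⟨e1, e2⟩, e3⟩, ⟨e4, e5⟩, e6⟩ := ht₀ t ht
  have ht0 : 0 < t := by linarith
  have hl0 : 0 < Real.log t := lt_of_lt_of_le (Real.exp_pos 1) e3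
  have hll : 1 ≤ Real.log (Real.log t) := by
    rw [Real.le_log_iff_exp_le hl0]
    exact e3
  have hll0 : 0 < Real.log (Real.log t) := by linarith
  obtain ⟨j, hj⟩ : ∃ j : ℝ, j = ε * Real.log t / Real.log (Real.log t) := ⟨_, rfl⟩
  have hjl : j * Real.log (Real.log t) = ε * Real.log t := by
    rw [hj]
    field_simp
  have hj2 : 2 ≤ j := by
    rw [hj, le_div_iff₀ hll0]
    linarith
  have hj0 : 0 < j := by linarith
  have hpow : Real.log t ^ j = t ^ ε := by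
    rw [Real.rpow_def_of_pos hl0, Real.rpow_def_of_pos ht0, mul_comm, hjl, mul_comm]
  have hle : Real.log t ^ j ≤ t := by
    rw [hpow]
    calc t ^ ε ≤ t ^ (1 : ℝ) := Real.rpow_le_rpow_of_exponent_le (by linarith) hε1
      _ = t := Real.rpow_one t
  have hgood : Good j (2 * t) := by
    apply hT₁ (2 * t) j (by linarith) hj2
    have h1 : Real.log t ^ j ≤ Real.log (2 * t) ^ j :=
      Real.rpow_le_rpow hl0.le (Real.log_le_log ht0 (by linarith)) hj0.le
    refine le_trans ?_ h1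
    rw [hpow]
    have h2 : t ^ ε = (t ^ (2 : ℝ)) ^ (ε / 2) := by
      rw [← Real.rpow_mul ht0.le]
      congr 1
      ring
    rw [h2]
    refine Real.rpow_le_rpow (by linarith) ?_ (half_pos hε).le
    rw [Real.rpow_two]
    nlinarith
  have h1 := hT₂ t j e5 (by linarith) hle hgood t ht0.le le_rfl
  refine h1.trans ?_
  rw [Real.rpow_def_of_pos ht0, Real.rpow_def_of_pos hl0, Real.rpow_def_of_pos ht0, ← Real.exp_add]
  apply Real.exp_le_exp.2
  have h3 : Real.log (Real.log t) * (j / 2) = ε * Real.log t / 2 := by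
    rw [← hjl]
    ring
  have h4 : Real.log t * ((1 + 1) / (2 * j)) = Real.log (Real.log t) / ε := by
    have h5 : Real.log t = j * Real.log (Real.log t) / ε := by
      rw [hjl]
      field_simp
    rw [h5]
    have h6 : Real.log (j * Real.log (Real.log t) / ε) = Real.log (Real.log t) := by
      rw [← h5]
    rw [h6]
    field_simp
    ring
  rw [h3, h4]
  have h5 : Real.log (Real.log t) / ε ≤ ε * Real.log t / 2 := by
    rw [div_le_iff₀ hε]
    calc Real.log (Real.log t) ≤ ε ^ 2 / 2 * Real.log t := e2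
      _ = ε * Real.log t / 2 * ε := by ring
  linarith

end LIN

/-- LIN: the Lindelöf hypothesis -/
theorem t_LIN (h : S_SUP) : S_LIN := by
  constructor
  · intro h1 ε hε
    exact LIN.fwd h1 ε hε
  · intro h1 ε hε
    obtain ⟨t₀, ht₀⟩ := LIN.bwd h h1 (min ε 1) (lt_min hε one_pos) (min_le_right _ _)
    refine ⟨max t₀ 1, fun t ht => ?_⟩
    exact (ht₀ t ((le_max_left _ _).trans ht)).trans
      (Real.rpow_le_rpow_of_exponent_le ((le_max_right _ _).trans ht) (min_le_left _ _))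

end Pool.Agent.H83M
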