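import Pool.Agent.H83M.Stm2
import Pool.Agent.H83M.LIN

/-!
# Piece LIN1 (helper58): the Lindelöf hypothesis and one order for every `T`
-/

set_option autoImplicit false

namespace Pool.Agent.H83M

open Complex MeasureTheory Set Filter

namespace LIN1

theorem fwd (h : ∀ ε : ℝ, 0 < ε → ∃ t₀ : ℝ, ∀ t : ℝ, t₀ ≤ t → Z t ≤ t ^ ε) (ε : ℝ) (hε : 0 < ε) :
    ∃ T₀ : ℝ, ∀ T : ℝ, T₀ ≤ T → Good (ε * LL T) T := by
  obtain ⟨T₁, hT₁⟩ := LIN.fwd h ε hε
  have e1 := LIN.loglog (ε / 2) (half_pos hε)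
  have e3 : ∀ᶠ t : ℝ in atTop, (Real.exp 1 : ℝ) ≤ Real.log t :=
    Real.tendsto_log_atTop.eventually_ge_atTop _
  obtain ⟨T₀, hT₀⟩ := Filter.eventually_atTop.1 ((e1.and e3).and
    ((eventually_ge_atTop T₁).and (eventually_ge_atTop (2 : ℝ))))
  refine ⟨T₀, fun T hT => ?_⟩
  obtain ⟨⟨e1, e3⟩, e4, e5⟩ := hT₀ T hT
  have ht0 : 0 < T := by linarith
  have hl0 : 0 < Real.log T := lt_of_lt_of_le (Real.exp_pos 1) e3
  have hll : 1 ≤ Real.log (Real.log T) := by
    rw [Real.le_log_iff_exp_le hl0]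
    exact e3
  have hll0 : 0 < Real.log (Real.log T) := by linarith
  have hjl : ε * LL T * Real.log (Real.log T) = ε * Real.log T := by
    unfold LL
    field_simp
  refine hT₁ T _ e4 ?_ ?_
  · have h1 : 2 * Real.log (Real.log T) ≤ ε * LL T * Real.log (Real.log T) := by
      rw [hjl]
      linarith
    exact le_of_mul_le_mul_right h1 hll0
  · rw [Real.rpow_def_of_pos hl0, Real.rpow_def_of_pos ht0]
    apply Real.exp_le_exp.2
    rw [mul_comm (Real.log (Real.log T)), hjl]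
    exact le_of_eq (mul_comm _ _)

theorem bwd (hS : S_SUP) (h : ∀ ε : ℝ, 0 < ε → ∃ T₀ : ℝ, ∀ T : ℝ, T₀ ≤ T → Good (ε * LL T) T)
    (ε : ℝ) (hε : 0 < ε) (hε1 : ε ≤ 1) :
    ∃ t₀ : ℝ, ∀ t : ℝ, t₀ ≤ t → Z t ≤ t ^ ε := by
  obtain ⟨T₁, hT₁⟩ := h (ε / 2) (half_pos hε)
  obtain ⟨T₂, hT₂⟩ := hS 1 one_pos
  have e1 := LIN.loglog (ε / 4) (by positivity)
  have e2 := LIN.loglog (ε ^ 2 / 8) (by positivity)
  have e3 : ∀ᶠ t : ℝ in atTop, (Real.exp 1 : ℝ) ≤ Real.log t :=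
    Real.tendsto_log_atTop.eventually_ge_atTop _
  obtain ⟨t₀, ht₀⟩ := Filter.eventually_atTop.1 (((e1.and e2).and e3).and
    (((eventually_ge_atTop T₁).and (eventually_ge_atTop T₂)).and (eventually_ge_atTop (2 : ℝ))))
  refine ⟨t₀, fun t ht => ?_⟩
  obtain ⟨⟨⟨e1, e2⟩, e3⟩, ⟨e4, e5⟩, e6⟩ := ht₀ t ht
  have ht0 : 0 < t := by linarith
  have hl0 : 0 < Real.log t := lt_of_lt_of_le (Real.exp_pos 1) e3
  have hll : 1 ≤ Real.log (Real.log t) := by
    rw [Real.le_log_iff_exp_le hl0]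
    exact e3
  have hll0 : 0 < Real.log (Real.log t) := by linarith
  -- the logarithms of `2 t`
  have hlog2 : Real.log 2 ≤ 1 := by
    have := Real.log_two_lt_d9
    linarith
  have hlog20 : 0 ≤ Real.log 2 := Real.log_nonneg (by norm_num)
  have hL' : Real.log (2 * t) = Real.log 2 + Real.log t := Real.log_mul (by norm_num) ht0.ne'
  have hexp : (1 : ℝ) ≤ Real.exp 1 := by
    have := Real.add_one_le_exp (1 : ℝ)
    linarith
  have hL1 : Real.log t ≤ Real.log (2 * t) := by rw [hL']; linarith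
  have hL2 : Real.log (2 * t) ≤ 2 * Real.log t := by rw [hL']; linarith
  have hl1 : Real.log (Real.log t) ≤ Real.log (Real.log (2 * t)) := Real.log_le_log hl0 hL1
  have hl2 : Real.log (Real.log (2 * t)) ≤ 2 * Real.log (Real.log t) := by
    have h1 := Real.log_le_log (lt_of_lt_of_le hl0 hL1) hL2
    rw [Real.log_mul (by norm_num) hl0.ne'] at h1
    linarith
  obtain ⟨L, hL⟩ : ∃ L, L = Real.log t := ⟨_, rfl⟩
  obtain ⟨l, hl⟩ : ∃ l, l = Real.log (Real.log t) := ⟨_, rfl⟩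
  obtain ⟨L2, hLL2⟩ : ∃ L2, L2 = Real.log (2 * t) := ⟨_, rfl⟩
  obtain ⟨l2, hll2⟩ : ∃ l2, l2 = Real.log (Real.log (2 * t)) := ⟨_, rfl⟩
  have hj' : LL (2 * t) = L2 / l2 := by rw [hLL2, hll2]; rfl
  rw [← hl] at e1 e2 hll hll0 hl1 hl2
  rw [← hL] at e1 e2 e3 hl0 hL1 hL2
  rw [← hLL2] at hL1 hL2
  rw [← hll2] at hl1 hl2
  have hl20 : 0 < l2 := by linarith
  have hL20 : 0 < L2 := by linarith
  obtain ⟨j, hj⟩ : ∃ j : ℝ, j = ε / 2 * (L2 / l2) := ⟨_, rfl⟩
  have hjl : j * l2 = ε / 2 * L2 := by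
    rw [hj]
    field_simp
  have hj0 : 0 < j := by rw [hj]; positivity
  have hjl' : j * l ≤ ε * L := by
    calc j * l ≤ j * l2 := mul_le_mul_of_nonneg_left hl1 hj0.le
      _ = ε / 2 * L2 := hjl
      _ ≤ ε / 2 * (2 * L) := mul_le_mul_of_nonneg_left hL2 (half_pos hε).le
      _ = ε * L := by ring
  have hjlow : ε / 2 * L ≤ j * (2 * l) := by
    calc ε / 2 * L ≤ ε / 2 * L2 := mul_le_mul_of_nonneg_left hL1 (half_pos hε).le
      _ = j * l2 := hjl.symm
      _ ≤ j * (2 * l) := mul_le_mul_of_nonneg_left hl2 hj0.le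
  have hj1 : 1 ≤ j := by
    have h1 : 1 * (2 * l) ≤ j * (2 * l) := by linarith
    exact le_of_mul_le_mul_right h1 (by linarith)
  have hle : Real.log t ^ j ≤ t := by
    rw [← hL, Real.rpow_def_of_pos hl0]
    calc Real.exp (Real.log L * j) ≤ Real.exp L := by
          apply Real.exp_le_exp.2
          have h1 : Real.log L = l := by rw [hl, hL]
          rw [h1, mul_comm]
          refine hjl'.trans ?_
          calc ε * L ≤ 1 * L := mul_le_mul_of_nonneg_right hε1 hl0.le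
            _ = L := one_mul L
      _ = t := by rw [hL, Real.exp_log ht0]
  have hgood : Good j (2 * t) := by
    have h1 := hT₁ (2 * t) (by linarith)
    rwa [hj', ← hj] at h1
  have h1 := hT₂ t j e5 hj1 hle hgood t ht0.le le_rfl
  refine h1.trans ?_
  rw [Real.rpow_def_of_pos ht0, ← hL, Real.rpow_def_of_pos hl0, Real.rpow_def_of_pos ht0, ← hL,
    ← Real.exp_add]
  apply Real.exp_le_exp.2
  have h2 : Real.log L = l := by rw [hl, hL]
  rw [h2]
  have h3 : l * (j / 2) ≤ ε * L / 2 := by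
    have : l * (j / 2) = j * l / 2 := by ring
    rw [this]
    linarith
  have h4 : L * ((1 + 1) / (2 * j)) ≤ ε * L / 2 := by
    have h5 : L * ((1 + 1) / (2 * j)) = L / j := by
      field_simp
      ring
    rw [h5, div_le_iff₀ hj0]
    -- `ε² L / 4 ≥ 2 l`, `j l ≥ ε L / 4`
    have h6 : l ≤ ε ^ 2 / 8 * L := e2
    have h7 : ε / 2 * L * (ε / 2) ≤ j * (2 * l) * (ε / 2) :=
      mul_le_mul_of_nonneg_right hjlow (half_pos hε).le
    have h8 : j * (2 * l) * (ε / 2) ≤ j * (ε * (ε ^ 2 / 8 * L)) := by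
      have : j * (2 * l) * (ε / 2) = j * (ε * l) := by ring
      rw [this]
      exact mul_le_mul_of_nonneg_left (mul_le_mul_of_nonneg_left h6 hε.le) hj0.le
    have h9 : L * (ε ^ 2 / 4) ≤ ε * L / 2 * j * (ε ^ 2 / 4) := by
      have a1 : L * (ε ^ 2 / 4) = ε / 2 * L * (ε / 2) := by ring
      have a2 : ε * L / 2 * j * (ε ^ 2 / 4) = j * (ε * (ε ^ 2 / 8 * L)) := by ring
      rw [a1, a2]
      exact h7.trans h8
    exact le_of_mul_le_mul_right h9 (by positivity)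
  linarith

end LIN1

/-- LIN1: the Lindelöf hypothesis -/
theorem t_LIN1 (h : S_SUP) : S_LIN1 := by
  constructor
  · intro h1 ε hε
    exact LIN1.fwd h1 ε hε
  · intro h1 ε hε
    obtain ⟨t₀, ht₀⟩ := LIN1.bwd h h1 (min ε 1) (lt_min hε one_pos) (min_le_right _ _)
    refine ⟨max t₀ 1, fun t ht => ?_⟩
    exact (ht₀ t ((le_max_left _ _).trans ht)).trans
      (Real.rpow_le_rpow_of_exponent_le ((le_max_right _ _).trans ht) (min_le_left _ _))

end Pool.Agent.H83M
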