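import Pool.Agent.H83M.Stm

set_option autoImplicit false

namespace Pool.Agent.H83M

open Filter

namespace MAX

lemma ev : ∃ t₀ : ℝ, ∀ t : ℝ, t₀ ≤ t →
    0 < t ∧ 1 ≤ Real.log (Real.log t) ∧ 4 * Real.log (Real.log t) ≤ Real.log t := by
  have h1 : ∀ᶠ x : ℝ in atTop, 4 * Real.log x ≤ x := by
    have := (Real.isLittleO_log_id_atTop).bound (show (0:ℝ) < 1 / 4 by norm_num)
    filter_upwards [this, eventually_ge_atTop (1:ℝ)] with x hx hx1
    rw [Real.norm_eq_abs, Real.norm_eq_abs, id, abs_of_nonneg (Real.log_nonneg hx1),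
      abs_of_pos (by linarith)] at hx
    linarith
  have h2 := Real.tendsto_log_atTop.eventually h1
  have h3 := (Real.tendsto_log_atTop.comp Real.tendsto_log_atTop).eventually
    (eventually_ge_atTop (1:ℝ))
  obtain ⟨t₀, ht₀⟩ := eventually_atTop.1 (h2.and (h3.and (eventually_gt_atTop (0:ℝ))))
  exact ⟨t₀, fun t ht => ⟨(ht₀ t ht).2.2, (ht₀ t ht).2.1, (ht₀ t ht).1⟩⟩

lemma sq1 {L l : ℝ} (hL : 0 < L) (hl : 0 < l) : Real.sqrt (L / l) * l = Real.sqrt (L * l) := by
  have h : L * l = (L / l) * (l * l) := by field_simp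
  rw [h, Real.sqrt_mul (by positivity), Real.sqrt_mul_self hl.le]

lemma sq2 {L l : ℝ} (hL : 0 < L) (hl : 0 < l) : L / Real.sqrt (L / l) = Real.sqrt (L * l) := by
  have hj : 0 < Real.sqrt (L / l) := Real.sqrt_pos.2 (by positivity)
  rw [div_eq_iff hj.ne', ← sq1 hL hl]
  have := Real.mul_self_sqrt (show 0 ≤ L / l by positivity)
  calc L = (L / l) * l := by field_simp
    _ = (Real.sqrt (L / l) * Real.sqrt (L / l)) * l := by rw [this]
    _ = _ := by ring

end MAX

theorem t_MAX (h : S_SUP) : S_MAX := by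
  rintro ⟨T₀, hG⟩ ε hε
  obtain ⟨T₁, hT₁⟩ := h ε hε
  obtain ⟨T₂, hT₂⟩ := MAX.ev
  refine ⟨max T₀ (max T₁ T₂), fun t ht => ?_⟩
  obtain ⟨ht0, hl1, hlL⟩ := hT₂ t (le_trans (le_trans (le_max_right _ _) (le_max_right _ _)) ht)
  have hTa : T₀ ≤ 2 * t := by
    have : T₀ ≤ t := le_trans (le_max_left _ _) ht
    linarith
  have hTb : T₁ ≤ t := le_trans (le_trans (le_max_left _ _) (le_max_right _ _)) ht
  set L := Real.log t with hLdef
  set l := Real.log L with hldef
  have hl0 : 0 < l := by linarith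
  have hL0 : 0 < L := by linarith
  set j := Real.sqrt (L / l) with hjdef
  have hj2 : 2 ≤ j := by
    rw [hjdef]
    apply Real.le_sqrt_of_sq_le
    rw [le_div_iff₀ hl0]
    linarith
  have hj0 : 0 < j := by linarith
  have e1 : j * l = Real.sqrt (L * l) := MAX.sq1 hL0 hl0
  have e2 : L / j = Real.sqrt (L * l) := MAX.sq2 hL0 hl0
  have e3 : t = Real.exp L := (Real.exp_log ht0).symm
  have hpow : L ^ j ≤ t := by
    rw [Real.rpow_def_of_pos hL0, ← hldef]
    conv_rhs => rw [e3]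
    apply Real.exp_le_exp.2
    rw [mul_comm, e1]
    apply Real.sqrt_le_iff.2
    constructor
    · exact hL0.le
    · nlinarith
  have key := hT₁ t j hTb (by linarith) hpow (hG (2 * t) j hTa hj2) t ht0.le le_rfl
  refine key.trans (le_of_eq ?_ |>.trans (Real.exp_le_exp.2 (show
    (1 + ε) / 2 * Real.sqrt (L * l) + 1 / 2 * Real.sqrt (L * l) ≤
      (1 + ε) * Real.sqrt (L * l) from ?_)))
  · rw [Real.exp_add, Real.rpow_def_of_pos ht0, Real.rpow_def_of_pos hL0, ← hLdef, ← hldef]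
    congr 2
    · rw [← e2]
      field_simp
    · rw [← e1]
      ring
  · have := Real.sqrt_nonneg (L * l)
    nlinarith

end Pool.Agent.H83M
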