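import Pool.Agent.H83M.Stm2
import Pool.Agent.H83M.MAX

/-!
# Project ZM part 2, piece MAX1 (helper23): the single order `√L(T)`
-/

set_option autoImplicit false

namespace Pool.Agent.H83M

open Filter

theorem t_MAX1 (h : S_SUP) : S_MAX1 := by
  rintro ⟨T₀, hG⟩ ε hε
  obtain ⟨T₁, hT₁⟩ := h ε hε
  obtain ⟨T₂, hT₂⟩ := MAX.ev
  obtain ⟨T₃, hT₃⟩ := eventually_atTop.1 (Real.tendsto_log_atTop.eventually
    (eventually_ge_atTop (Real.log 2 / ε)))
  refine ⟨max T₀ (max T₁ (max T₂ T₃)), fun t ht => ?_⟩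
  have ht4 : T₀ ≤ t := le_trans (le_max_left _ _) ht
  have ht5 : T₁ ≤ t := le_trans (le_trans (le_max_left _ _) (le_max_right _ _)) ht
  have ht6 : T₂ ≤ t := le_trans (le_trans (le_max_left _ _)
    (le_trans (le_max_right _ _) (le_max_right _ _))) ht
  have ht7 : T₃ ≤ t := le_trans (le_trans (le_max_right _ _)
    (le_trans (le_max_right _ _) (le_max_right _ _))) ht
  obtain ⟨ht0, hl1, hlL⟩ := hT₂ t ht6
  have h3 := hT₃ t ht7
  have hG' := hG (2 * t) (by linarith)
  unfold LL at hG'
  have hlog2 : Real.log (2 * t) = Real.log 2 + Real.log t :=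
    Real.log_mul (by norm_num) ht0.ne'
  have h20 : 0 < Real.log 2 := Real.log_pos (by norm_num)
  set L := Real.log t with hLdef
  set l := Real.log L with hldef
  set L' := Real.log (2 * t) with hL'def
  set l' := Real.log L' with hl'def
  have hl0 : 0 < l := by linarith
  have hL0 : 0 < L := by linarith
  have hLL' : L ≤ L' := by linarith
  have hL'0 : 0 < L' := by linarith
  have hll' : l ≤ l' := Real.log_le_log hL0 hLL'
  have hl'0 : 0 < l' := by linarith
  have hL'1 : L' ≤ (1 + ε) * L := by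
    rw [div_le_iff₀ hε] at h3
    rw [hlog2]
    linarith
  have h2L : L' ≤ 2 * L := by
    have : Real.log 2 ≤ 1 := by
      have := Real.log_le_sub_one_of_pos (show (0:ℝ) < 2 by norm_num)
      linarith
    rw [hlog2]
    linarith
  -- `x / log x` is increasing
  have hinc : L / l ≤ L' / l' := by
    have he : Real.exp 1 ≤ L := by
      rw [← Real.exp_log hL0]
      exact Real.exp_le_exp.2 hl1
    have h5 := Real.log_div_self_antitoneOn (show L ∈ {x : ℝ | Real.exp 1 ≤ x} from he)
      (show L' ∈ {x : ℝ | Real.exp 1 ≤ x} from he.trans hLL') hLL'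
    simp only at h5
    rw [div_le_div_iff₀ hL'0 hL0] at h5
    rw [div_le_div_iff₀ hl0 hl'0]
    linarith
  set j := Real.sqrt (L' / l') with hjdef
  have hjsq : j ^ 2 = L' / l' := Real.sq_sqrt (by positivity)
  have hj2 : 2 ≤ j := by
    rw [hjdef]
    apply Real.le_sqrt_of_sq_le
    refine le_trans ?_ hinc
    rw [le_div_iff₀ hl0]
    linarith
  have hj0 : 0 < j := by linarith
  set s := Real.sqrt (L * l) with hsdef
  have hssq : s ^ 2 = L * l := Real.sq_sqrt (by positivity)
  have hs0 : 0 < s := Real.sqrt_pos.2 (by positivity)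
  -- `l j` is small
  have hjl2 : (l * j) ^ 2 ≤ l * L' := by
    rw [mul_pow, hjsq]
    have : l ^ 2 * (L' / l') = l * L' * (l / l') := by ring
    rw [this]
    have h6 : l / l' ≤ 1 := (div_le_one hl'0).2 hll'
    have h7 : 0 ≤ l * L' := by positivity
    nlinarith
  have hjlL : l * j ≤ L := by
    apply le_of_sq_le_sq _ hL0.le
    refine hjl2.trans ?_
    nlinarith
  have hjls : l * j ≤ (1 + ε) * s := by
    apply le_of_sq_le_sq _ (by positivity)
    rw [mul_pow (1 + ε), hssq]
    refine hjl2.trans ?_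
    have h8 : l * L' ≤ l * ((1 + ε) * L) := mul_le_mul_of_nonneg_left hL'1 hl0.le
    have h9 : 0 ≤ l * L := by positivity
    nlinarith
  have hLj : L / j ≤ s := by
    rw [div_le_iff₀ hj0]
    apply le_of_sq_le_sq _ (by positivity)
    rw [mul_pow, hssq, hjsq]
    have h8 : L * l * (L / l) ≤ L * l * (L' / l') := mul_le_mul_of_nonneg_left hinc (by positivity)
    have h9 : L * l * (L / l) = L ^ 2 := by field_simp
    linarith
  have e3 : t = Real.exp L := (Real.exp_log ht0).symm
  have hpow : L ^ j ≤ t := by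
    rw [Real.rpow_def_of_pos hL0, ← hldef]
    conv_rhs => rw [e3]
    exact Real.exp_le_exp.2 hjlL
  have key := hT₁ t j ht5 (by linarith) hpow hG' t ht0.le le_rfl
  refine key.trans ?_
  rw [Real.rpow_def_of_pos ht0, Real.rpow_def_of_pos hL0, ← Real.exp_add, ← hLdef, ← hldef]
  apply Real.exp_le_exp.2
  have e1 : L * ((1 + ε) / (2 * j)) = (1 + ε) / 2 * (L / j) := by field_simp
  have e2 : l * (j / 2) = 1 / 2 * (l * j) := by ring
  rw [e1, e2]
  have h10 : (1 + ε) / 2 * (L / j) ≤ (1 + ε) / 2 * s :=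
    mul_le_mul_of_nonneg_left hLj (by positivity)
  linarith

end Pool.Agent.H83M
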