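import Pool.Agent.H83M.Stm3
import Pool.Agent.H83M.MAX

/-!
# Project ZM part 3, piece MAX2 (helper67, modification of MAX1 of helper23): the single order `√L(T)`, sharp form
-/

set_option autoImplicit false

namespace Pool.Agent.H83M

open Filter

theorem t_MAX2 (h : S_SUP2) : S_MAX2 := by
  rintro ⟨T₀, hG⟩
  obtain ⟨C, T₁, hC1, hT₁⟩ := h
  obtain ⟨T₂, hT₂⟩ := MAX.ev
  refine ⟨C * Real.exp (5 / 2), max T₀ (max T₁ T₂), fun t ht => ?_⟩
  have ht4 : T₀ ≤ t := le_trans (le_max_left _ _) ht
  have ht5 : T₁ ≤ t := le_trans (le_trans (le_max_left _ _) (le_max_right _ _)) ht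
  have ht6 : T₂ ≤ t := le_trans (le_trans (le_max_right _ _) (le_max_right _ _)) ht
  obtain ⟨ht0, hl1, hlL⟩ := hT₂ t ht6
  have hG' := hG (2 * t) (by linarith)
  unfold LL at hG'
  have hlog2 : Real.log (2 * t) = Real.log 2 + Real.log t :=
    Real.log_mul (by norm_num) ht0.ne'
  have h20 : 0 < Real.log 2 := Real.log_pos (by norm_num)
  have h21 : Real.log 2 ≤ 1 := by
    have := Real.log_le_sub_one_of_pos (show (0:ℝ) < 2 by norm_num)
    linarith
  set L := Real.log t with hLdef
  set l := Real.log L with hldef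
  set L' := Real.log (2 * t) with hL'def
  set l' := Real.log L' with hl'def
  have hl0 : 0 < l := by linarith
  have hL0 : 0 < L := by linarith
  have hLL' : L ≤ L' := by linarith
  have hL'0 : 0 < L' := by linarith
  have hll' : l ≤ l' := Real.log_le_log hL0 hLL'
  have hl'0 : 0 < l' := by linarith
  have hL'1 : L' ≤ L + 1 := by
    rw [hlog2]
    linarith
  have h2L : L' ≤ 2 * L := by
    linarith
  -- `x / log x` is increasing
  have hinc : L / l ≤ L' / l' := by
    have he : Real.exp 1 ≤ L := by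
      rw [← Real.exp_log hL0]
      exact Real.exp_le_exp.2 hl1
    have h5 := Real.log_div_self_antitoneOn (show L ∈ {x : ℝ | Real.exp 1 ≤ x} from he)
      (show L' ∈ {x : ℝ | Real.exp 1 ≤ x} from he.trans hLL') hLL'
    simp only at h5
    rw [div_le_div_iff₀ hL'0 hL0] at h5
    rw [div_le_div_iff₀ hl0 hl'0]
    linarith
  set j := Real.sqrt (L' / l') with hjdef
  have hjsq : j ^ 2 = L' / l' := Real.sq_sqrt (by positivity)
  have hj2 : 2 ≤ j := by
    rw [hjdef]
    apply Real.le_sqrt_of_sq_le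
    refine le_trans ?_ hinc
    rw [le_div_iff₀ hl0]
    linarith
  have hj0 : 0 < j := by linarith
  set s := Real.sqrt (L * l) with hsdef
  have hssq : s ^ 2 = L * l := Real.sq_sqrt (by positivity)
  have hs0 : 0 < s := Real.sqrt_pos.2 (by positivity)
  have hls : l ≤ s := by
    apply le_of_sq_le_sq _ hs0.le
    rw [hssq]
    nlinarith
  -- `l j` is small
  have hjl2 : (l * j) ^ 2 ≤ l * L' := by
    rw [mul_pow, hjsq]
    have : l ^ 2 * (L' / l') = l * L' * (l / l') := by ring
    rw [this]
    have h6 : l / l' ≤ 1 := (div_le_one hl'0).2 hll'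
    have h7 : 0 ≤ l * L' := by positivity
    nlinarith
  have hjlL : l * j ≤ L := by
    apply le_of_sq_le_sq _ hL0.le
    refine hjl2.trans ?_
    nlinarith
  have hjls : l * j ≤ s + 1 := by
    apply le_of_sq_le_sq _ (by positivity)
    refine hjl2.trans ?_
    have h8 : l * L' ≤ l * (L + 1) := mul_le_mul_of_nonneg_left hL'1 hl0.le
    nlinarith
  have hLj : L / j ≤ s := by
    rw [div_le_iff₀ hj0]
    apply le_of_sq_le_sq _ (by positivity)
    rw [mul_pow, hssq, hjsq]
    have h8 : L * l * (L / l) ≤ L * l * (L' / l') := mul_le_mul_of_nonneg_left hinc (by positivity)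
    have h9 : L * l * (L / l) = L ^ 2 := by field_simp
    linarith
  -- `l / j` is bounded
  have hlj : l / j ≤ 4 := by
    rw [div_le_iff₀ hj0]
    apply le_of_sq_le_sq _ (by positivity)
    rw [mul_pow, hjsq]
    have h8 : l ^ 3 ≤ 6 * L := by
      have h9 := Real.pow_div_factorial_le_exp l hl0.le 3
      have h10 : Real.exp l = L := Real.exp_log hL0
      rw [h10] at h9
      have h11 : ((Nat.factorial 3 : ℕ) : ℝ) = 6 := by norm_num [Nat.factorial]
      rw [h11, div_le_iff₀ (by norm_num)] at h9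
      linarith
    have h12 : l ^ 2 ≤ 6 * (L / l) := by
      rw [← mul_div_assoc, le_div_iff₀ hl0]
      calc l ^ 2 * l = l ^ 3 := by ring
        _ ≤ 6 * L := h8
    have h13 : 0 ≤ L / l := by positivity
    nlinarith
  have e3 : t = Real.exp L := (Real.exp_log ht0).symm
  have hpow : L ^ j ≤ t := by
    rw [Real.rpow_def_of_pos hL0, ← hldef]
    conv_rhs => rw [e3]
    exact Real.exp_le_exp.2 hjlL
  have key := hT₁ t j ht5 (by linarith) hpow hG' t ht0.le le_rfl
  refine key.trans ?_
  have hC0 : 0 ≤ C := by linarith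
  rw [mul_assoc, mul_assoc]
  apply mul_le_mul_of_nonneg_left _ hC0
  rw [Real.rpow_def_of_pos ht0, Real.rpow_def_of_pos hL0, ← Real.exp_add, ← Real.exp_add,
    ← hLdef, ← hldef]
  apply Real.exp_le_exp.2
  have e1 : L * (1 / (2 * j)) = 1 / 2 * (L / j) := by field_simp
  have e2 : l * (j / 2 + 1 / (2 * j)) = 1 / 2 * (l * j) + 1 / 2 * (l / j) := by field_simp
  rw [e1, e2]
  linarith

end Pool.Agent.H83M
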