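import Pool.Agent.H83M.Stm

/-!
# Project ZM, piece REF: reflection of the orders (helper69)
-/

set_option autoImplicit false

namespace Pool.Agent.H83M

open Complex MeasureTheory Set Filter

namespace REF

theorem Z_nonneg (t : ℝ) : 0 ≤ Z t := norm_nonneg _

theorem Z_continuous : Continuous Z := by
  unfold Z
  refine Continuous.norm ?_
  rw [continuous_iff_continuousAt]
  intro t
  have h1 : (1 / 2 + (t : ℂ) * I) ≠ 1 := by
    intro h
    have := congrArg Complex.re h
    simp at this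
  have h2 : ContinuousAt riemannZeta (1 / 2 + (t : ℂ) * I) :=
    (differentiableAt_riemannZeta h1).continuousAt
  have h3 : ContinuousAt (fun t : ℝ => 1 / 2 + (t : ℂ) * I) t := by fun_prop
  exact ContinuousAt.comp (f := fun t : ℝ => 1 / 2 + (t : ℂ) * I) h2 h3

theorem Zp_int {k : ℝ} (hk : 0 ≤ k) (T : ℝ) :
    IntervalIntegrable (fun t => Z t ^ (2 * k)) volume 0 T :=
  (Z_continuous.rpow_const fun _ => Or.inr (by positivity)).intervalIntegrable 0 T

/-- if `Z ≤ B` on `[0, T]` then `M k T ≤ B^{2(k-j)} M j T` -/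
theorem M_le {T j k B : ℝ} (hT : 0 ≤ T) (hj : 0 ≤ j) (hk : j ≤ k)
    (hB : ∀ t, 0 ≤ t → t ≤ T → Z t ≤ B) : M k T ≤ B ^ (2 * (k - j)) * M j T := by
  unfold M
  rw [← intervalIntegral.integral_const_mul]
  refine intervalIntegral.integral_mono_on hT (Zp_int (hj.trans hk) T)
    ((Zp_int hj T).const_mul _) fun t ht => ?_
  have e : 2 * k = 2 * (k - j) + 2 * j := by ring
  rw [e, Real.rpow_add_of_nonneg (Z_nonneg t) (by linarith) (by linarith)]
  exact mul_le_mul_of_nonneg_right
    (Real.rpow_le_rpow (Z_nonneg t) (hB t ht.1 ht.2) (by linarith))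
    (Real.rpow_nonneg (Z_nonneg t) _)

theorem M_le' {T k B : ℝ} (hT : 0 ≤ T) (hk : 0 ≤ k)
    (hB : ∀ t, 0 ≤ t → t ≤ T → Z t ≤ B) : M k T ≤ B ^ (2 * k) * T := by
  have h := M_le (j := 0) hT le_rfl hk hB
  have e : M 0 T = T := by
    unfold M
    simp
  rwa [e, sub_zero] at h

end REF

open REF

theorem t_REF (h1 : S_SUP) (h2 : S_CVX) : S_REF := by
  intro c hc
  obtain ⟨T₁, hT₁⟩ := h1 (c - 1) (by linarith)
  obtain ⟨T₂, hT₂⟩ := h2
  refine ⟨max (max T₁ T₂) (Real.exp 1), fun T j k hT hj hg hg2 hjk hc2 => ?_⟩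
  have hTa : T₁ ≤ T := (le_max_left _ _).trans ((le_max_left _ _).trans hT)
  have hTb : T₂ ≤ T := (le_max_right _ _).trans ((le_max_left _ _).trans hT)
  have hTe : Real.exp 1 ≤ T := (le_max_right _ _).trans hT
  have hT0 : 0 < T := (Real.exp_pos 1).trans_le hTe
  have hl : 1 ≤ Real.log T := by
    rw [Real.le_log_iff_exp_le hT0]
    exact hTe
  have hl0 : 0 < Real.log T := by linarith
  have hk1 : 1 ≤ k := hj.trans hjk
  unfold Good
  rcases lt_or_ge T (Real.log T ^ j) with hlt | hle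
  · -- the convexity bound
    have h3 := M_le' (T := T) (k := k) (B := T ^ (1 / 2 : ℝ)) hT0.le (by linarith)
      (fun t h0 ht => hT₂ T t hTb h0 ht)
    have e1 : (T ^ (1 / 2 : ℝ)) ^ (2 * k) = T ^ k := by
      rw [← Real.rpow_mul hT0.le]
      congr 1
      ring
    rw [e1] at h3
    have h4 : T ≤ Real.log T ^ k := hlt.le.trans (Real.rpow_le_rpow_of_exponent_le hl hjk)
    have h5 : T ^ k ≤ Real.log T ^ (k ^ 2) := by
      calc T ^ k ≤ (Real.log T ^ k) ^ k := Real.rpow_le_rpow hT0.le h4 (by linarith)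
        _ = Real.log T ^ (k ^ 2) := by rw [← Real.rpow_mul hl0.le, sq]
    calc M k T ≤ T ^ k * T := h3
      _ ≤ Real.log T ^ (k ^ 2) * T := mul_le_mul_of_nonneg_right h5 hT0.le
      _ = T * Real.log T ^ (k ^ 2) := mul_comm _ _
  · have hB : ∀ t, 0 ≤ t → t ≤ T → Z t ≤ Real.log T ^ ((j + k) / 2) := by
      intro t h0 ht
      have h3 := hT₁ T j hTa hj hle hg2 t h0 ht
      have e1 : (1 + (c - 1)) / (2 * j) = c * (1 / (2 * j)) := by ring
      rw [e1, Real.rpow_mul hT0.le] at h3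
      have h4 : (T ^ c) ^ (1 / (2 * j)) ≤ Real.log T ^ (k / 2) := by
        calc (T ^ c) ^ (1 / (2 * j)) ≤ (Real.log T ^ (j * k)) ^ (1 / (2 * j)) :=
              Real.rpow_le_rpow (Real.rpow_nonneg hT0.le c) hc2 (by positivity)
          _ = Real.log T ^ (k / 2) := by
              rw [← Real.rpow_mul hl0.le]
              congr 1
              field_simp
      calc Z t ≤ (T ^ c) ^ (1 / (2 * j)) * Real.log T ^ (j / 2) := h3
        _ ≤ Real.log T ^ (k / 2) * Real.log T ^ (j / 2) :=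
            mul_le_mul_of_nonneg_right h4 (Real.rpow_nonneg hl0.le _)
        _ = Real.log T ^ ((j + k) / 2) := by
            rw [← Real.rpow_add hl0]
            congr 1
            ring
    have h3 := M_le (T := T) (j := j) (k := k) hT0.le (by linarith) hjk hB
    have e1 : (Real.log T ^ ((j + k) / 2)) ^ (2 * (k - j)) = Real.log T ^ (k ^ 2 - j ^ 2) := by
      rw [← Real.rpow_mul hl0.le]
      congr 1
      ring
    rw [e1] at h3
    calc M k T ≤ Real.log T ^ (k ^ 2 - j ^ 2) * M j T := h3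
      _ ≤ Real.log T ^ (k ^ 2 - j ^ 2) * (T * Real.log T ^ (j ^ 2)) :=
          mul_le_mul_of_nonneg_left hg (Real.rpow_nonneg hl0.le _)
      _ = T * (Real.log T ^ (k ^ 2 - j ^ 2) * Real.log T ^ (j ^ 2)) := by ring
      _ = T * Real.log T ^ (k ^ 2) := by
          rw [← Real.rpow_add hl0]
          congr 2
          ring

end Pool.Agent.H83M
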