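import Pool.Agent.H83M.Stm2
import Pool.Agent.H83M.REF

set_option autoImplicit false

namespace Pool.Agent.H83M

open Filter

namespace ONE

lemma ev (A g : ℝ) (hA : 0 < A) (hg : 1 < g) : ∃ t₀ : ℝ, ∀ t : ℝ, t₀ ≤ t →
    0 < t ∧ 1 ≤ Real.log (Real.log t) ∧ A * Real.log (Real.log t) ≤ Real.log t ∧
    Real.log (2 * t) ≤ g * Real.log t := by
  have h1 : ∀ᶠ x : ℝ in atTop, A * Real.log x ≤ x := by
    have := (Real.isLittleO_log_id_atTop).bound (show (0:ℝ) < A⁻¹ by positivity)
    filter_upwards [this, eventually_ge_atTop (1:ℝ)] with x hx hx1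
    rw [Real.norm_eq_abs, Real.norm_eq_abs, id, abs_of_nonneg (Real.log_nonneg hx1),
      abs_of_pos (by linarith)] at hx
    calc A * Real.log x ≤ A * (A⁻¹ * x) := by gcongr
      _ = x := by field_simp
  have h2 := Real.tendsto_log_atTop.eventually h1
  have h3 := (Real.tendsto_log_atTop.comp Real.tendsto_log_atTop).eventually
    (eventually_ge_atTop (1:ℝ))
  have h4 := Real.tendsto_log_atTop.eventually (eventually_ge_atTop (Real.log 2 / (g - 1)))
  obtain ⟨t₀, ht₀⟩ := eventually_atTop.1 (h2.and (h3.and (h4.and (eventually_gt_atTop (0:ℝ)))))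
  refine ⟨t₀, fun t ht => ⟨(ht₀ t ht).2.2.2, (ht₀ t ht).2.1, (ht₀ t ht).1, ?_⟩⟩
  have h5 := (ht₀ t ht).2.2.1
  have h6 := (ht₀ t ht).2.2.2
  rw [Real.log_mul (by norm_num) h6.ne']
  rw [div_le_iff₀ (by linarith)] at h5
  linarith

lemma LL_mono {T : ℝ} (hT : 0 < T) (hL : 0 < Real.log T) (h : 1 ≤ Real.log (Real.log T)) :
    LL T ≤ LL (2 * T) := by
  have h1 : Real.exp 1 ≤ Real.log T := (Real.le_log_iff_exp_le hL).1 h
  have h2 : Real.log T ≤ Real.log (2 * T) := Real.log_le_log hT (by linarith)
  have h3 := Real.log_div_self_antitoneOn (show Real.log T ∈ {x | Real.exp 1 ≤ x} from h1)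
    (show Real.log (2 * T) ∈ {x | Real.exp 1 ≤ x} from h1.trans h2) h2
  have h4 : 0 < Real.log (2 * T) := by linarith
  have h5 : Real.log (Real.log T) ≤ Real.log (Real.log (2 * T)) := Real.log_le_log hL h2
  simp only at h3
  rw [div_le_div_iff₀ h4 hL] at h3
  unfold LL
  rw [div_le_div_iff₀ (by linarith) (by linarith)]
  linarith

lemma LL_le {T g : ℝ} (hT : 0 < T) (hL : 0 < Real.log T) (h : 1 ≤ Real.log (Real.log T))
    (hg : Real.log (2 * T) ≤ g * Real.log T) : LL (2 * T) ≤ g * LL T := by
  have h2 : Real.log T ≤ Real.log (2 * T) := Real.log_le_log hT (by linarith)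
  have h5 : Real.log (Real.log T) ≤ Real.log (Real.log (2 * T)) := Real.log_le_log hL h2
  unfold LL
  calc Real.log (2 * T) / Real.log (Real.log (2 * T))
      ≤ Real.log (2 * T) / Real.log (Real.log T) :=
        div_le_div_of_nonneg_left (by linarith) (by linarith) h5
    _ ≤ (g * Real.log T) / Real.log (Real.log T) :=
        div_le_div_of_nonneg_right hg (by linarith)
    _ = _ := by ring

end ONE

theorem t_ONE (h : S_SUP) : S_ONE := by
  intro c hc
  constructor
  · rintro ⟨T₀, hG⟩
    obtain ⟨g, hgdef⟩ : ∃ g : ℝ, g = (3 * c - 1) / (2 * c) := ⟨_, rfl⟩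
    have hg1 : 1 < g := by
      rw [hgdef, lt_div_iff₀ (by linarith)]
      linarith
    have hgc : g * (2 * c) = 3 * c - 1 := by
      rw [hgdef]
      field_simp
    have hg2 : 1 < g ^ 2 := by nlinarith
    obtain ⟨T₁, hT₁⟩ := h ((c - 1) / 2) (by linarith)
    obtain ⟨T₂, hT₂⟩ := ONE.ev (max 4 (g ^ 2 * c)) (g ^ 2) (by positivity) hg2
    refine ⟨max T₀ (max T₁ T₂), fun T k hT hk hTk => ?_⟩
    have hTa : T₀ ≤ T := (le_max_left _ _).trans hT
    have hTb : T₁ ≤ T := (le_max_left _ _).trans ((le_max_right _ _).trans hT)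
    have hTc : T₂ ≤ T := (le_max_right _ _).trans ((le_max_right _ _).trans hT)
    obtain ⟨h0, h1, h2, h3⟩ := hT₂ T hTc
    have h4 : 4 * Real.log (Real.log T) ≤ Real.log T :=
      (mul_le_mul_of_nonneg_right (le_max_left _ _) (by linarith)).trans h2
    have h5 : g ^ 2 * c * Real.log (Real.log T) ≤ Real.log T :=
      (mul_le_mul_of_nonneg_right (le_max_right _ _) (by linarith)).trans h2
    have hL0 : 0 < Real.log T := by linarith
    have hl0 : 0 < Real.log (Real.log T) := by linarith
    have hmono := ONE.LL_mono h0 hL0 h1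
    have hup := ONE.LL_le h0 hL0 h1 h3
    have hLL0 : 4 ≤ LL T := by
      unfold LL
      rw [le_div_iff₀ hl0]
      exact h4
    have hLLl : LL T * Real.log (Real.log T) = Real.log T := by
      unfold LL
      field_simp
    obtain ⟨j, hj⟩ : ∃ j : ℝ, j = Real.sqrt (c * LL T) := ⟨_, rfl⟩
    obtain ⟨j', hj'⟩ : ∃ j' : ℝ, j' = Real.sqrt (c * LL (2 * T)) := ⟨_, rfl⟩
    have hjj : j * j = c * LL T := by
      rw [hj]
      exact Real.mul_self_sqrt (by positivity)
    have hj1 : 1 ≤ j := by
      rw [hj]
      apply Real.le_sqrt_of_sq_le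
      nlinarith
    have hjj' : j ≤ j' := by
      rw [hj, hj']
      exact Real.sqrt_le_sqrt (mul_le_mul_of_nonneg_left hmono (by linarith))
    have hj'g : j' ≤ g * j := by
      rw [hj', hj]
      have : g * Real.sqrt (c * LL T) = Real.sqrt (g ^ 2 * (c * LL T)) := by
        rw [Real.sqrt_mul (show (0:ℝ) ≤ g ^ 2 by positivity), Real.sqrt_sq (by linarith)]
      rw [this]
      apply Real.sqrt_le_sqrt
      calc c * LL (2 * T) ≤ c * (g ^ 2 * LL T) := mul_le_mul_of_nonneg_left hup (by linarith)
        _ = g ^ 2 * (c * LL T) := by ring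
    have hj0 : 0 < j := by linarith
    have hj'0 : 0 < j' := by linarith
    have hjk : j ≤ k := by
      rw [hj]
      apply Real.sqrt_le_iff.2 ⟨by linarith, ?_⟩
      rw [Real.rpow_def_of_pos h0, Real.rpow_def_of_pos hL0, Real.exp_le_exp, ← hLLl] at hTk
      have h6 : c * LL T * Real.log (Real.log T) ≤ k ^ 2 * Real.log (Real.log T) := by
        rw [hLLl] at hTk
        calc c * LL T * Real.log (Real.log T) = c * (LL T * Real.log (Real.log T)) := by ring
          _ = c * Real.log T := by rw [hLLl]
          _ ≤ k ^ 2 * Real.log (Real.log T) := by linarith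
      exact le_of_mul_le_mul_right h6 hl0
    have hgjl : g * j * Real.log (Real.log T) ≤ Real.log T := by
      have e : (g * j * Real.log (Real.log T)) * (g * j * Real.log (Real.log T)) ≤
          Real.log T * Real.log T := by
        calc (g * j * Real.log (Real.log T)) * (g * j * Real.log (Real.log T))
            = g ^ 2 * (j * j) * Real.log (Real.log T) * Real.log (Real.log T) := by ring
          _ = (g ^ 2 * c * Real.log (Real.log T)) * (LL T * Real.log (Real.log T)) := by
              rw [hjj]
              ring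
          _ ≤ Real.log T * (LL T * Real.log (Real.log T)) :=
              mul_le_mul_of_nonneg_right h5 (by positivity)
          _ = Real.log T * Real.log T := by rw [hLLl]
      by_contra hcon
      push Not at hcon
      nlinarith
    have hpow : Real.log T ^ j' ≤ T := by
      rw [Real.rpow_def_of_pos hL0]
      calc Real.exp (Real.log (Real.log T) * j') ≤ Real.exp (Real.log T) := by
            apply Real.exp_le_exp.2
            calc Real.log (Real.log T) * j' ≤ Real.log (Real.log T) * (g * j) :=
                  mul_le_mul_of_nonneg_left hj'g hl0.le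
              _ = g * j * Real.log (Real.log T) := by ring
              _ ≤ Real.log T := hgjl
        _ = T := Real.exp_log h0
    have hGj : Good j T := by
      rw [hj]
      exact hG T hTa
    have hGj' : Good j' (2 * T) := by
      rw [hj']
      exact hG (2 * T) (by linarith)
    have hB : ∀ t, 0 ≤ t → t ≤ T → Z t ≤ Real.log T ^ j := by
      intro t ht0 ht1
      refine (hT₁ T j' hTb (hj1.trans hjj') hpow hGj' t ht0 ht1).trans ?_
      rw [Real.rpow_def_of_pos h0, Real.rpow_def_of_pos hL0, Real.rpow_def_of_pos hL0,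
        ← Real.exp_add]
      apply Real.exp_le_exp.2
      have a1 : Real.log T * ((1 + (c - 1) / 2) / (2 * j')) ≤
          Real.log T * ((1 + (c - 1) / 2) / (2 * j)) := by
        apply mul_le_mul_of_nonneg_left _ hL0.le
        apply div_le_div_of_nonneg_left (by linarith) (by linarith) (by linarith)
      have a2 : Real.log T * ((1 + (c - 1) / 2) / (2 * j)) =
          (c + 1) / (4 * c) * (j * Real.log (Real.log T)) := by
        rw [← hLLl]
        have : LL T = j * j / c := by
          rw [hjj]
          field_simp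
        rw [this]
        have e0 : Real.log (j * j / c * Real.log (Real.log T)) = Real.log (Real.log T) := by
          rw [← this, hLLl]
        rw [e0]
        field_simp
        ring
      have a3 : Real.log (Real.log T) * (j' / 2) ≤
          (3 * c - 1) / (4 * c) * (j * Real.log (Real.log T)) := by
        calc Real.log (Real.log T) * (j' / 2) ≤ Real.log (Real.log T) * ((g * j) / 2) := by
              apply mul_le_mul_of_nonneg_left _ hl0.le
              linarith
          _ = (3 * c - 1) / (4 * c) * (j * Real.log (Real.log T)) := by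
              rw [hgdef]
              field_simp
              ring
      have a4 : (c + 1) / (4 * c) * (j * Real.log (Real.log T)) +
          (3 * c - 1) / (4 * c) * (j * Real.log (Real.log T)) = Real.log (Real.log T) * j := by
        field_simp
        ring
      linarith
    have hM := REF.M_le h0.le hj0.le hjk hB
    have e1 : (Real.log T ^ j) ^ (2 * (k - j)) = Real.log T ^ (2 * j * (k - j)) := by
      rw [← Real.rpow_mul hL0.le]
      congr 1
      ring
    rw [e1] at hM
    have hl1 : 1 ≤ Real.log T := by linarith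
    unfold Good at hGj ⊢
    calc M k T ≤ Real.log T ^ (2 * j * (k - j)) * M j T := hM
      _ ≤ Real.log T ^ (2 * j * (k - j)) * (T * Real.log T ^ (j ^ 2)) :=
          mul_le_mul_of_nonneg_left hGj (Real.rpow_nonneg hL0.le _)
      _ = T * (Real.log T ^ (2 * j * (k - j)) * Real.log T ^ (j ^ 2)) := by ring
      _ = T * Real.log T ^ (2 * j * (k - j) + j ^ 2) := by rw [← Real.rpow_add hL0]
      _ ≤ T * Real.log T ^ (k ^ 2) := by
          apply mul_le_mul_of_nonneg_left _ h0.le
          apply Real.rpow_le_rpow_of_exponent_le hl1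
          nlinarith [sq_nonneg (k - j)]
  · rintro ⟨T₀, hG⟩
    obtain ⟨T₂, hT₂⟩ := ONE.ev 4 2 (by norm_num) (by norm_num)
    refine ⟨max T₀ T₂, fun T hT => ?_⟩
    obtain ⟨h0, h1, h2, h3⟩ := hT₂ T ((le_max_right _ _).trans hT)
    have hL0 : 0 < Real.log T := by linarith
    have hl0 : 0 < Real.log (Real.log T) := by linarith
    have hLL0 : 4 ≤ LL T := by
      unfold LL
      rw [le_div_iff₀ hl0]
      exact h2
    have hLLl : LL T * Real.log (Real.log T) = Real.log T := by
      unfold LL
      field_simp
    apply hG T _ ((le_max_left _ _).trans hT)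
    · apply Real.le_sqrt_of_sq_le
      nlinarith
    · rw [Real.sq_sqrt (by positivity), Real.rpow_def_of_pos h0, Real.rpow_def_of_pos hL0]
      apply Real.exp_le_exp.2
      calc Real.log T * c = c * (LL T * Real.log (Real.log T)) := by rw [hLLl]; ring
        _ ≤ Real.log (Real.log T) * (c * LL T) := by linarith

end Pool.Agent.H83M
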