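import Pool.Agent.H83M.Stm3
import Pool.Agent.H83M.ONE

/-!
# Project ZM part 3, piece ONE2 (helper23): the critical order
-/

set_option autoImplicit false

namespace Pool.Agent.H83M

open Filter

namespace ONE2

lemma ev (A : ℝ) (hA : 0 < A) : ∃ t₀ : ℝ, ∀ t : ℝ, t₀ ≤ t →
    0 < t ∧ 1 ≤ Real.log (Real.log t) ∧ A * Real.log (Real.log t) ^ 3 ≤ Real.log t := by
  have h1 : ∀ᶠ x : ℝ in atTop, A * Real.log x ^ 3 ≤ x := by
    have := (Real.isLittleO_pow_log_id_atTop (n := 3)).bound (show (0:ℝ) < A⁻¹ by positivity)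
    filter_upwards [this, eventually_ge_atTop (1:ℝ)] with x hx hx1
    rw [Real.norm_eq_abs, Real.norm_eq_abs, id, abs_of_nonneg
      (pow_nonneg (Real.log_nonneg hx1) 3), abs_of_pos (by linarith)] at hx
    calc A * Real.log x ^ 3 ≤ A * (A⁻¹ * x) := by gcongr
      _ = x := by field_simp
  have h2 := Real.tendsto_log_atTop.eventually h1
  have h3 := (Real.tendsto_log_atTop.comp Real.tendsto_log_atTop).eventually
    (eventually_ge_atTop (1:ℝ))
  obtain ⟨t₀, ht₀⟩ := eventually_atTop.1 (h2.and (h3.and (eventually_gt_atTop (0:ℝ))))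
  exact ⟨t₀, fun t ht => ⟨(ht₀ t ht).2.2, (ht₀ t ht).2.1, (ht₀ t ht).1⟩⟩

/-- the numbers -/
lemma num {l x x' y C c : ℝ} (hl : 1 ≤ l) (hC : 1 ≤ C) (hy0 : 0 < y) (hyC : y ≤ C)
    (hx : 2 * l * (C ^ 2 + 1) ≤ x) (hxx : x ≤ x') (hx' : x' ≤ x + 1 / (4 * l)) (hc : 0 ≤ c)
    (hcC : 2 * c + 1 ≤ C) :
    2 * c + (l * x ^ 2) / (x' + y) + l * (x' + y) + l / (x' + y) ≤ 2 * (l * x + C) := by
  have hl0 : 0 < l := by linarith
  have hx0 : 0 < x := by
    have : 0 < 2 * l * (C ^ 2 + 1) := by positivity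
    linarith
  have hj0 : 0 < x' + y := by linarith
  have h1 : (l * x ^ 2) / (x' + y) ≤ l * (x - y + y ^ 2 / x) := by
    rw [div_le_iff₀ hj0]
    have e1 : x - y + y ^ 2 / x = (x ^ 2 - x * y + y ^ 2) / x := by field_simp
    have e2 : 0 ≤ (x ^ 2 - x * y + y ^ 2) / x := by
      apply div_nonneg _ hx0.le
      nlinarith [sq_nonneg (x - y)]
    have e3 : x ^ 2 ≤ (x - y + y ^ 2 / x) * (x + y) := by
      have e4 : (x - y + y ^ 2 / x) * (x + y) = x ^ 2 + y ^ 3 / x := by
        field_simp
        ring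
      rw [e4]
      have : 0 ≤ y ^ 3 / x := by positivity
      linarith
    have e5 : (x - y + y ^ 2 / x) * (x + y) ≤ (x - y + y ^ 2 / x) * (x' + y) := by
      apply mul_le_mul_of_nonneg_left (by linarith)
      rw [e1]
      exact e2
    calc l * x ^ 2 ≤ l * ((x - y + y ^ 2 / x) * (x' + y)) :=
          mul_le_mul_of_nonneg_left (e3.trans e5) hl0.le
      _ = l * (x - y + y ^ 2 / x) * (x' + y) := by ring
  have h2 : l * (x' + y) ≤ l * x + 1 / 4 + l * y := by
    have e1 : l * (x' + y) ≤ l * (x + 1 / (4 * l) + y) := by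
      apply mul_le_mul_of_nonneg_left _ hl0.le
      linarith
    have e2 : l * (x + 1 / (4 * l) + y) = l * x + 1 / 4 + l * y := by
      field_simp
    linarith
  have h3 : l / (x' + y) ≤ l / x := div_le_div_of_nonneg_left hl0.le hx0 (by linarith)
  have h4 : l * (y ^ 2 / x) + l / x ≤ 1 / 2 := by
    have e1 : l * (y ^ 2 / x) + l / x = l * (y ^ 2 + 1) / x := by
      field_simp
    rw [e1, div_le_iff₀ hx0]
    have e2 : y ^ 2 ≤ C ^ 2 := pow_le_pow_left₀ hy0.le hyC 2
    have e3 : l * (y ^ 2 + 1) ≤ l * (C ^ 2 + 1) := mul_le_mul_of_nonneg_left (by linarith) hl0.le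
    linarith
  have h5 : l * (x - y + y ^ 2 / x) = l * x - l * y + l * (y ^ 2 / x) := by ring
  linarith

end ONE2

theorem t_ONE2 (h : S_SUP2) : S_ONE2 := by
  obtain ⟨C₂, T₁, hC₂, hS⟩ := h
  refine ⟨2 * Real.log C₂ + 1, fun C hC => ⟨?_, ?_⟩⟩
  · rintro ⟨T₀, hG⟩
    have hlC : 0 ≤ Real.log C₂ := Real.log_nonneg hC₂
    have hC1 : 1 ≤ C := by linarith
    obtain ⟨T₂, hT₂⟩ := ONE2.ev (4 * (C ^ 2 + 1) ^ 2) (by positivity)
    refine ⟨max T₀ (max T₁ T₂), fun T k hT hjk => ?_⟩
    have hTa : T₀ ≤ T := (le_max_left _ _).trans hT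
    have hTb : T₁ ≤ T := (le_max_left _ _).trans ((le_max_right _ _).trans hT)
    have hTc : T₂ ≤ T := (le_max_right _ _).trans ((le_max_right _ _).trans hT)
    obtain ⟨h0, h1, h2⟩ := hT₂ T hTc
    have hGj := hG T hTa
    have hGj' := hG (2 * T) (by linarith)
    have hl0 : 0 < Real.log (Real.log T) := by linarith
    have hl3 : 1 ≤ Real.log (Real.log T) ^ 3 := one_le_pow₀ h1
    have hL4 : 4 ≤ Real.log T := by
      have : (4 : ℝ) * 1 ≤ 4 * (C ^ 2 + 1) ^ 2 * Real.log (Real.log T) ^ 3 := by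
        have : 1 ≤ (C ^ 2 + 1) ^ 2 := by nlinarith [sq_nonneg C]
        nlinarith
      linarith
    have hL0 : 0 < Real.log T := by linarith
    have hmono := ONE.LL_mono h0 hL0 h1
    have hLLl : Real.log (Real.log T) * LL T = Real.log T := by
      unfold LL
      field_simp
    have hL' : Real.log T ≤ Real.log (2 * T) := Real.log_le_log h0 (by linarith)
    have hl' : Real.log (Real.log T) ≤ Real.log (Real.log (2 * T)) := Real.log_le_log hL0 hL'
    have hlog2 : Real.log 2 ≤ 1 := by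
      have := Real.log_le_sub_one_of_pos (show (0:ℝ) < 2 by norm_num)
      linarith
    have hup : LL (2 * T) ≤ LL T + 1 / Real.log (Real.log T) := by
      have e1 := ONE.LL_le (g := 1 + Real.log 2 / Real.log T) h0 hL0 h1 (by
        rw [Real.log_mul (by norm_num) h0.ne']
        apply le_of_eq
        field_simp
        ring)
      refine e1.trans ?_
      have e2 : Real.log 2 / Real.log T * LL T = Real.log 2 / Real.log (Real.log T) := by
        unfold LL
        field_simp
      rw [add_mul, one_mul, e2]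
      have : Real.log 2 / Real.log (Real.log T) ≤ 1 / Real.log (Real.log T) :=
        div_le_div_of_nonneg_right hlog2 hl0.le
      linarith
    obtain ⟨x, hx⟩ : ∃ x : ℝ, x = Real.sqrt (LL T) := ⟨_, rfl⟩
    obtain ⟨x', hx'⟩ : ∃ x' : ℝ, x' = Real.sqrt (LL (2 * T)) := ⟨_, rfl⟩
    rw [← hx] at hGj hjk
    rw [← hx'] at hGj'
    have hLL0 : 0 ≤ LL T := by
      unfold LL
      positivity
    have hxx : x ^ 2 = LL T := by
      rw [hx]
      exact Real.sq_sqrt hLL0
    obtain ⟨l, hldef⟩ : ∃ l : ℝ, l = Real.log (Real.log T) := ⟨_, rfl⟩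
    rw [← hldef] at h1 h2 hGj hjk hl0 hLLl hl' hup hl3
    have hxbig : 2 * l * (C ^ 2 + 1) ≤ x := by
      rw [hx]
      apply Real.le_sqrt_of_sq_le
      unfold LL
      rw [← hldef, le_div_iff₀ hl0]
      calc (2 * l * (C ^ 2 + 1)) ^ 2 * l = 4 * (C ^ 2 + 1) ^ 2 * l ^ 3 := by ring
        _ ≤ Real.log T := h2
    have hx4 : 4 * C ≤ x := by
      have e1 : 2 * C ≤ C ^ 2 + 1 := by nlinarith [sq_nonneg (C - 1)]
      have e2 : 2 * (C ^ 2 + 1) ≤ 2 * l * (C ^ 2 + 1) := by nlinarith [sq_nonneg C]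
      linarith
    have hx0 : 0 < x := by linarith
    have hxmono : x ≤ x' := by
      rw [hx, hx']
      exact Real.sqrt_le_sqrt hmono
    have hxup : x' ≤ x + 1 / (4 * l) := by
      rw [hx']
      apply Real.sqrt_le_iff.2 ⟨by positivity, ?_⟩
      refine hup.trans ?_
      rw [← hxx]
      have e1 : (x + 1 / (4 * l)) ^ 2 = x ^ 2 + x / (2 * l) + (1 / (4 * l)) ^ 2 := by
        field_simp
        ring
      have e2 : 1 / l ≤ x / (2 * l) := by
        rw [div_le_div_iff₀ hl0 (by positivity)]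
        nlinarith
      have e3 := sq_nonneg (1 / (4 * l))
      rw [e1]
      linarith
    obtain ⟨y, hydef⟩ : ∃ y : ℝ, y = C / Real.log (Real.log (2 * T)) := ⟨_, rfl⟩
    rw [← hydef] at hGj'
    have hl'0 : 0 < Real.log (Real.log (2 * T)) := by linarith
    have hy0 : 0 < y := by
      rw [hydef]
      positivity
    have hyl : y ≤ C / l := by
      rw [hydef]
      exact div_le_div_of_nonneg_left (by linarith) hl0 hl'
    have hyC : y ≤ C := by
      refine hyl.trans ?_
      exact div_le_self (by linarith) h1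
    obtain ⟨j, hj⟩ : ∃ j : ℝ, j = x + C / l := ⟨_, rfl⟩
    obtain ⟨j', hj'⟩ : ∃ j' : ℝ, j' = x' + y := ⟨_, rfl⟩
    rw [← hj] at hGj hjk
    rw [← hj'] at hGj'
    have hlj : l * j = l * x + C := by
      rw [hj]
      field_simp
    have hj0 : 0 < j := by
      rw [hj]
      positivity
    have hj'1 : 1 ≤ j' := by linarith
    have hj'0 : 0 < j' := by linarith
    have hnum := ONE2.num h1 hC1 hy0 hyC hxbig hxmono hxup hlC (by linarith)
    rw [← hj', hxx, hLLl, ← hlj] at hnum
    have hpow : Real.log T ^ j' ≤ T := by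
      rw [Real.rpow_def_of_pos hL0, ← hldef]
      calc Real.exp (l * j') ≤ Real.exp (Real.log T) := by
            apply Real.exp_le_exp.2
            have e1 : l * j' ≤ l * (x + 1 / (4 * l) + C / l) := by
              apply mul_le_mul_of_nonneg_left _ hl0.le
              linarith
            have e2 : l * (x + 1 / (4 * l) + C / l) = l * x + 1 / 4 + C := by
              field_simp
            have e3 : Real.log T = l * (x * x) := by
              rw [← hLLl, ← hxx]
              ring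
            have e4 : l * x + 1 / 4 + C ≤ l * (x * x) := by
              have e5 : l * x * 4 ≤ l * x * x := by
                apply mul_le_mul_of_nonneg_left _ (by positivity)
                linarith
              have e6 : x ≤ l * x := by nlinarith
              nlinarith
            rw [e3]
            linarith
        _ = T := Real.exp_log h0
    have hB : ∀ t, 0 ≤ t → t ≤ T → Z t ≤ Real.log T ^ j := by
      intro t ht0 ht1
      refine (hS T j' hTb hj'1 hpow hGj' t ht0 ht1).trans ?_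
      have hC0 : 0 < C₂ := by linarith
      rw [Real.rpow_def_of_pos h0, Real.rpow_def_of_pos hL0, Real.rpow_def_of_pos hL0, ← hldef]
      conv_lhs => rw [← Real.exp_log hC0]
      rw [← Real.exp_add, ← Real.exp_add]
      apply Real.exp_le_exp.2
      have a1 : Real.log T * (1 / (2 * j')) = 1 / 2 * (Real.log T / j') := by field_simp
      have a2 : l * (j' / 2 + 1 / (2 * j')) = 1 / 2 * (l * j') + 1 / 2 * (l / j') := by
        field_simp
      rw [a1, a2]
      linarith
    have hM := REF.M_le h0.le hj0.le hjk hB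
    have e1 : (Real.log T ^ j) ^ (2 * (k - j)) = Real.log T ^ (2 * j * (k - j)) := by
      rw [← Real.rpow_mul hL0.le]
      congr 1
      ring
    rw [e1] at hM
    have hl1 : 1 ≤ Real.log T := by linarith
    unfold Good at hGj ⊢
    calc M k T ≤ Real.log T ^ (2 * j * (k - j)) * M j T := hM
      _ ≤ Real.log T ^ (2 * j * (k - j)) * (T * Real.log T ^ (j ^ 2)) :=
          mul_le_mul_of_nonneg_left hGj (Real.rpow_nonneg hL0.le _)
      _ = T * (Real.log T ^ (2 * j * (k - j)) * Real.log T ^ (j ^ 2)) := by ring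
      _ = T * Real.log T ^ (2 * j * (k - j) + j ^ 2) := by rw [← Real.rpow_add hL0]
      _ ≤ T * Real.log T ^ (k ^ 2) := by
          apply mul_le_mul_of_nonneg_left _ h0.le
          apply Real.rpow_le_rpow_of_exponent_le hl1
          nlinarith [sq_nonneg (k - j)]
  · rintro ⟨T₀, hG⟩
    exact ⟨T₀, fun T hT => hG T _ hT le_rfl⟩

end Pool.Agent.H83M
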