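import Pool.Agent.H83M.Stm

/-!
# Piece PW of project ZM: a pointwise bound by a moment
-/

set_option autoImplicit false

namespace Pool.Agent.H83M

open Complex MeasureTheory Set Filter

namespace PW

theorem J_nonneg {T p : ℝ} (hT : 0 ≤ T) : 0 ≤ ∫ y in (0:ℝ)..(2 * T), Z y ^ p :=
  intervalIntegral.integral_nonneg (by linarith) fun y _ => Real.rpow_nonneg (norm_nonneg _) _

theorem lower {t : ℝ} (ht : 0 ≤ t) : Z t / 3 ≤ ‖FF t (((1 / 2 : ℝ) : ℂ) + t * I)‖ := by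
  have hs : (((1 / 2 : ℝ) : ℂ) + t * I) ≠ 1 := by
    intro h
    have := congrArg Complex.re h
    simp at this
  have h1 : FF t (((1 / 2 : ℝ) : ℂ) + t * I) =
      ((((1 / 2 : ℝ) : ℂ) + t * I) - 1) * riemannZeta (1 / 2 + t * I) / (1 + t) := by
    unfold FF
    rw [Q97.MM.Z1_of_ne hs, sub_self]
    simp
  rw [h1, norm_div, norm_mul]
  have h2 : ‖((1 : ℂ) + (t : ℂ))‖ = 1 + t := by
    have : ((1 : ℂ) + (t : ℂ)) = ((1 + t : ℝ) : ℂ) := by push_cast; ring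
    rw [this, Complex.norm_real, Real.norm_eq_abs, abs_of_nonneg (by linarith)]
  have h3 : (1 + t) / 3 ≤ ‖(((1 / 2 : ℝ) : ℂ) + t * I) - 1‖ := by
    have h4 : ‖(((1 / 2 : ℝ) : ℂ) + t * I) - 1‖ ^ 2 = 1 / 4 + t ^ 2 := by
      rw [← Complex.normSq_eq_norm_sq, Complex.normSq_apply]
      simp
      ring
    refine le_of_sq_le_sq ?_ (norm_nonneg _)
    rw [h4]
    nlinarith [sq_nonneg (t - 1 / 8)]
  rw [h2]
  have hZ : 0 ≤ Z t := norm_nonneg _
  have h5 : ‖riemannZeta (1 / 2 + t * I)‖ = Z t := rfl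
  rw [h5, le_div_iff₀ (by linarith)]
  have := mul_le_mul_of_nonneg_right h3 hZ
  linarith

end PW

open PW in
theorem t_PW (h1 : S_AREA) (h2 : S_GDF) (h3 : S_GAB) (h4 : S_HALF) : S_PW := by
  obtain ⟨C₁, hC₁, h3⟩ := h3
  obtain ⟨C₂, hC₂, h4⟩ := h4
  refine ⟨max (12 * C₁) (max C₂ (Real.exp 4)), ?_, ?_⟩
  · exact le_max_of_le_right (le_max_of_le_left hC₂)
  · intro T t p hT ht htT hp
    have hT₁ : 12 * C₁ ≤ T := (le_max_left _ _).trans hT
    have hT₂ : C₂ ≤ T := (le_max_left _ _).trans ((le_max_right _ _).trans hT)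
    have hT₃ : Real.exp 4 ≤ T := (le_max_right _ _).trans ((le_max_right _ _).trans hT)
    have hT₀ : 0 < T := lt_of_lt_of_le (Real.exp_pos _) hT₃
    have hlog : 4 ≤ Real.log T := by
      rw [Real.le_log_iff_exp_le hT₀]
      exact hT₃
    have hlog0 : 0 < Real.log T := by linarith
    have hρ : 1 / Real.log T ≤ 1 / 4 := one_div_le_one_div_of_le (by norm_num) hlog
    have hρ0 : 0 < 1 / Real.log T := by positivity
    obtain ⟨hd, hg⟩ := h2 t ht
    obtain ⟨J, hJ⟩ : ∃ J : ℝ, J = ∫ y in (0:ℝ)..(2 * T), Z y ^ p := ⟨_, rfl⟩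
    have hJ0 : 0 ≤ J := by rw [hJ]; exact J_nonneg hT₀.le
    have h5 := h4 T t p hT₂ ht htT hp
    rw [← hJ] at h5 ⊢
    have hC₁p : 0 ≤ C₁ ^ p := Real.rpow_nonneg (by linarith) _
    have h6 := h1 (FF t) p (1 / 4) 3 (1 / 2) t (1 / Real.log T) (C₁ ^ p * (2 * 2 ^ p * J + 1 + 1)) hd
      (by linarith) hg hρ0 (by linarith) (by linarith) (by
        intro x hx1 hx2
        refine (h3 T t p x (by linarith) ht htT hp ?_).trans ?_
        · rw [abs_le]
          constructor <;> linarith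
        · exact mul_le_mul_of_nonneg_left (by linarith) hC₁p)
    have h7 := lower ht
    have hZ : 0 ≤ Z t := norm_nonneg _
    have h8 : (Z t / 3) ^ p ≤ ‖FF t (((1 / 2 : ℝ) : ℂ) + t * I)‖ ^ p :=
      Real.rpow_le_rpow (by positivity) h7 (by linarith)
    have h9 := h8.trans h6
    rw [div_div_eq_mul_div, div_one, Real.div_rpow hZ (by norm_num),
      div_le_iff₀ (Real.rpow_pos_of_pos (by norm_num) _)] at h9
    have h2p : (2 : ℝ) ≤ 2 ^ p := by
      calc (2 : ℝ) = 2 ^ (1 : ℝ) := (Real.rpow_one 2).symm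
        _ ≤ 2 ^ p := Real.rpow_le_rpow_of_exponent_le (by norm_num) hp
    have h3p : (0 : ℝ) < 3 ^ p := Real.rpow_pos_of_pos (by norm_num) _
    have h10 : 2 * 2 ^ p * J + 1 + 1 ≤ (2 ^ p * 2 ^ p) * (1 + J) := by
      nlinarith [mul_nonneg (mul_nonneg (by linarith : (0:ℝ) ≤ 2 ^ p) (by linarith : (0:ℝ) ≤ 2 ^ p - 2)) hJ0]
    have h11 : (12 * C₁) ^ p = C₁ ^ p * (2 ^ p * 2 ^ p) * 3 ^ p := by
      rw [← Real.mul_rpow (by norm_num) (by norm_num), ← Real.mul_rpow (by linarith) (by norm_num),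
        ← Real.mul_rpow (by nlinarith) (by norm_num)]
      congr 1
      ring
    have h12 : (12 * C₁) ^ p ≤ (max (12 * C₁) (max C₂ (Real.exp 4))) ^ p :=
      Real.rpow_le_rpow (by linarith) (le_max_left _ _) (by linarith)
    calc Z t ^ p ≤ C₁ ^ p * (2 * 2 ^ p * J + 1 + 1) * Real.log T * 3 ^ p := h9
      _ ≤ C₁ ^ p * ((2 ^ p * 2 ^ p) * (1 + J)) * Real.log T * 3 ^ p := by
          gcongr
      _ = (12 * C₁) ^ p * Real.log T * (1 + J) := by rw [h11]; ring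
      _ ≤ _ := by gcongr

end Pool.Agent.H83M
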