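import Pool.Agent.H83M.Stm

/-!
# Project ZM, piece RED
-/

set_option autoImplicit false

namespace Pool.Agent.H83M

open Complex MeasureTheory Set Filter

theorem t_RED (h : S_REF) : S_RED := by
  intro c hc
  constructor
  · rintro ⟨T₀, hT⟩
    exact ⟨T₀, fun T k h1 h2 _ => hT T k h1 h2⟩
  · rintro ⟨Ta, ha⟩
    obtain ⟨c₁, hc₁⟩ : ∃ c₁ : ℝ, c₁ = (1 + c) / 2 := ⟨_, rfl⟩
    have hc1 : 1 < c₁ := by linarith
    have hc2 : c₁ < c := by linarith
    obtain ⟨Tb, hb⟩ := h c₁ hc1
    have e1 : ∀ᶠ x : ℝ in atTop, 1 ≤ Real.log x :=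
      Real.tendsto_log_atTop.eventually_ge_atTop _
    have e1' : ∀ᶠ x : ℝ in atTop, c₁ * Real.log 2 / (c - c₁) ≤ Real.log x :=
      Real.tendsto_log_atTop.eventually_ge_atTop _
    have e2 : ∀ᶠ x : ℝ in atTop, ‖Real.log x‖ ≤ 1 / 4 * ‖x‖ :=
      Real.isLittleO_log_id_atTop.def (by norm_num)
    have e3 : ∀ᶠ x : ℝ in atTop, 1 ≤ x := eventually_ge_atTop 1
    obtain ⟨Tc, hTc⟩ := eventually_atTop.1 (Real.tendsto_log_atTop.eventually
      (e1.and (e1'.and (e2.and e3))))
    refine ⟨max (max Ta Tb) (max Tc 2), fun T k hT hk => ?_⟩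
    have hTa : Ta ≤ T := le_trans (le_trans (le_max_left _ _) (le_max_left _ _)) hT
    have hTb : Tb ≤ T := le_trans (le_trans (le_max_right _ _) (le_max_left _ _)) hT
    have hTc' : Tc ≤ T := le_trans (le_trans (le_max_left _ _) (le_max_right _ _)) hT
    have hT2 : 2 ≤ T := le_trans (le_trans (le_max_right _ _) (le_max_right _ _)) hT
    obtain ⟨h1, h1', h2, h3⟩ := hTc T hTc'
    obtain ⟨x, hx⟩ : ∃ x : ℝ, x = Real.log T := ⟨_, rfl⟩
    rw [← hx] at h1 h1' h2 h3
    have hT0 : 0 < T := by linarith
    have hx0 : 0 < x := by linarith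
    have hy0 : 0 < Real.log x := by linarith
    rw [Real.norm_eq_abs, Real.norm_eq_abs, abs_of_pos hy0, abs_of_pos hx0] at h2
    -- the order `j`
    obtain ⟨j, hj⟩ : ∃ j : ℝ, j = Real.sqrt (c₁ * (x / Real.log x)) := ⟨_, rfl⟩
    have h4 : 4 ≤ x / Real.log x := by
      rw [le_div_iff₀ hy0]
      linarith
    have h5 : 4 ≤ c₁ * (x / Real.log x) := by nlinarith
    have hjsq : j ^ 2 = c₁ * (x / Real.log x) := by
      rw [hj]
      exact Real.sq_sqrt (by linarith)
    have hj0 : 0 ≤ j := by rw [hj]; exact Real.sqrt_nonneg _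
    have hj2 : 2 ≤ j := by nlinarith
    have hjx : j ^ 2 * Real.log x = c₁ * x := by
      rw [hjsq]
      field_simp
    have hTx : T = Real.exp x := by rw [hx, Real.exp_log hT0]
    have hpow : Real.log T ^ (j ^ 2) = T ^ c₁ := by
      rw [← hx, Real.rpow_def_of_pos hx0, Real.rpow_def_of_pos hT0, ← hx]
      congr 1
      linarith
    have hT1 : 1 ≤ T := by linarith
    have hle : T ^ c₁ ≤ T ^ c := Real.rpow_le_rpow_of_exponent_le hT1 hc2.le
    have g1 : Good j T := ha T j hTa hj2 (by rw [hpow]; exact hle)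
    -- twice `T`
    have hx2 : Real.log (2 * T) = Real.log 2 + x := by
      rw [Real.log_mul (by norm_num) hT0.ne', hx]
    have hl2 : 0 < Real.log 2 := Real.log_pos (by norm_num)
    have hl21 : Real.log 2 ≤ 1 := by
      have := Real.log_le_sub_one_of_pos (by norm_num : (0 : ℝ) < 2)
      linarith
    have hx20 : 0 < Real.log (2 * T) := by rw [hx2]; linarith
    have hll : Real.log (Real.log (2 * T)) ≤ Real.log 2 + Real.log x := by
      rw [← Real.log_mul (by norm_num) hx0.ne']
      apply Real.log_le_log hx20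
      rw [hx2]
      linarith
    have h6 : c₁ * Real.log (Real.log (2 * T)) ≤ c * Real.log x := by
      rw [div_le_iff₀ (by linarith)] at h1'
      have : c₁ * Real.log (Real.log (2 * T)) ≤ c₁ * (Real.log 2 + Real.log x) :=
        mul_le_mul_of_nonneg_left hll (by linarith)
      linarith
    have h7 : Real.log (Real.log (2 * T)) * j ^ 2 ≤ Real.log (2 * T) * c := by
      have h8 : Real.log (Real.log (2 * T)) * j ^ 2 * Real.log x ≤
          Real.log (2 * T) * c * Real.log x := by
        calc Real.log (Real.log (2 * T)) * j ^ 2 * Real.log x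
            = c₁ * Real.log (Real.log (2 * T)) * x := by
              rw [mul_assoc, hjx]; ring
          _ ≤ c * Real.log x * x := mul_le_mul_of_nonneg_right h6 hx0.le
          _ ≤ c * Real.log x * Real.log (2 * T) := by
              apply mul_le_mul_of_nonneg_left
              · rw [hx2]; linarith
              · exact mul_nonneg (by linarith) hy0.le
          _ = Real.log (2 * T) * c * Real.log x := by ring
      exact le_of_mul_le_mul_right h8 hy0
    have g2 : Good j (2 * T) := by
      refine ha (2 * T) j (by linarith) hj2 ?_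
      rw [Real.rpow_def_of_pos hx20, Real.rpow_def_of_pos (by linarith : (0 : ℝ) < 2 * T)]
      exact Real.exp_le_exp.mpr h7
    by_cases hcase : Real.log T ^ (k ^ 2) ≤ T ^ c
    · exact ha T k hTa hk hcase
    · rw [not_le] at hcase
      have hx1 : 1 < Real.log T := by
        rw [← hx]
        by_contra hcon
        have : Real.log x ≤ 0 := Real.log_nonpos hx0.le (not_lt.mp hcon)
        linarith
      have hjk : j ≤ k := by
        by_contra hcon
        rw [not_le] at hcon
        have h8 : k ^ 2 ≤ j ^ 2 := by nlinarith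
        have h9 : Real.log T ^ (k ^ 2) ≤ Real.log T ^ (j ^ 2) :=
          Real.rpow_le_rpow_of_exponent_le hx1.le h8
        rw [hpow] at h9
        linarith
      refine hb T j k hTb (by linarith) g1 g2 hjk ?_
      rw [← hpow]
      exact Real.rpow_le_rpow_of_exponent_le hx1.le (by nlinarith)

end Pool.Agent.H83M
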