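import Pool.Agent.H83M.Stm3
import Pool.Agent.H83M.CRI

/-!
# ZM, piece RED2 (helper83): only the orders `k ≤ √(LL T) + C / log log T` matter
-/

set_option autoImplicit false

namespace Pool.Agent.H83M

open Complex MeasureTheory Set Filter

/-- RED2 -/
def S_RED2 : Prop := ∃ C₀ : ℝ, ∀ C : ℝ, C₀ ≤ C →
  ((∃ T₀ : ℝ, ∀ T k : ℝ, T₀ ≤ T → 2 ≤ k → Good k T) ↔
    ∃ T₀ : ℝ, ∀ T k : ℝ, T₀ ≤ T → 2 ≤ k →
      k ≤ Real.sqrt (LL T) + C / Real.log (Real.log T) → Good k T)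

open CRI in
theorem t_RED2 (h : S_ONE2) : S_RED2 := by
  obtain ⟨C₀, hC₀⟩ := h
  refine ⟨max C₀ 0, fun C hC => ⟨fun ⟨T₀, h⟩ => ⟨T₀, fun T k hT hk _ => h T k hT hk⟩, ?_⟩⟩
  rintro ⟨T₀, h⟩
  have hC1 : C₀ ≤ C := (le_max_left _ _).trans hC
  have hC2 : 0 ≤ C := (le_max_right _ _).trans hC
  -- the order is at least two
  have ev : ∀ᶠ T : ℝ in atTop, Good (Real.sqrt (LL T) + C / Real.log (Real.log T)) T := by
    filter_upwards [eventually_ge_atTop (Real.exp (Real.exp 1)), eventually_ge_atTop T₀, ev1 4]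
      with T h1 h2 h3
    obtain ⟨hT0, hL, hLL⟩ := big h1
    refine h T _ h2 ?_ le_rfl
    have e1 : 2 ≤ Real.sqrt (LL T) := by
      refine Real.le_sqrt_of_sq_le ?_
      unfold LL
      rw [le_div_iff₀ (by linarith)]
      linarith
    have e2 : 0 ≤ C / Real.log (Real.log T) := by positivity
    linarith
  obtain ⟨T₁, hT₁⟩ := eventually_atTop.1 ev
  obtain ⟨T₂, hT₂⟩ := (hC₀ C hC1).1 ⟨T₁, hT₁⟩
  refine ⟨max T₀ T₂, fun T k hT hk => ?_⟩
  rcases le_total k (Real.sqrt (LL T) + C / Real.log (Real.log T)) with hc | hc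
  · exact h T k ((le_max_left _ _).trans hT) hk hc
  · exact hT₂ T k ((le_max_right _ _).trans hT) hc

end Pool.Agent.H83M
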