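import Pool.Agent.H83M.Stm3
import Pool.Agent.H83M.REF

/-!
# Project ZM part 3, piece REF2: reflection of the orders, sharp form (helper4)
-/

set_option autoImplicit false

namespace Pool.Agent.H83M

open Complex MeasureTheory Set Filter

open REF

theorem t_REF2 (h1 : S_SUP2) (h2 : S_CVX) : S_REF2 := by
  obtain ⟨C₂, T₁, hC₂, hT₁⟩ := h1
  obtain ⟨T₂, hT₂⟩ := h2
  refine ⟨2 * Real.log C₂, max (max T₁ T₂) (Real.exp 1), fun T j k hT hj hg hg2 hjk hc2 => ?_⟩
  have hTa : T₁ ≤ T := (le_max_left _ _).trans ((le_max_left _ _).trans hT)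
  have hTb : T₂ ≤ T := (le_max_right _ _).trans ((le_max_left _ _).trans hT)
  have hTe : Real.exp 1 ≤ T := (le_max_right _ _).trans hT
  have hT0 : 0 < T := (Real.exp_pos 1).trans_le hTe
  have hl : 1 ≤ Real.log T := by
    rw [Real.le_log_iff_exp_le hT0]
    exact hTe
  have hl0 : 0 < Real.log T := by linarith
  have hj0 : 0 < j := by linarith
  have hC0 : 0 < C₂ := by linarith
  have hk1 : 1 ≤ k := hj.trans hjk
  unfold Good
  rcases lt_or_ge T (Real.log T ^ j) with hlt | hle
  · -- the convexity bound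
    have h3 := M_le' (T := T) (k := k) (B := T ^ (1 / 2 : ℝ)) hT0.le (by linarith)
      (fun t h0 ht => hT₂ T t hTb h0 ht)
    have e1 : (T ^ (1 / 2 : ℝ)) ^ (2 * k) = T ^ k := by
      rw [← Real.rpow_mul hT0.le]
      congr 1
      ring
    rw [e1] at h3
    have h4 : T ≤ Real.log T ^ k := hlt.le.trans (Real.rpow_le_rpow_of_exponent_le hl hjk)
    have h5 : T ^ k ≤ Real.log T ^ (k ^ 2) := by
      calc T ^ k ≤ (Real.log T ^ k) ^ k := Real.rpow_le_rpow hT0.le h4 (by linarith)
        _ = Real.log T ^ (k ^ 2) := by rw [← Real.rpow_mul hl0.le, sq]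
    calc M k T ≤ T ^ k * T := h3
      _ ≤ Real.log T ^ (k ^ 2) * T := mul_le_mul_of_nonneg_right h5 hT0.le
      _ = T * Real.log T ^ (k ^ 2) := mul_comm _ _
  · have h4 : C₂ * T ^ (1 / (2 * j)) * Real.log T ^ (1 / (2 * j)) ≤ Real.log T ^ (k / 2) := by
      have e1 : C₂ * T ^ (1 / (2 * j)) * Real.log T ^ (1 / (2 * j)) =
          Real.exp (Real.log C₂ + Real.log T * (1 / (2 * j)) +
            Real.log (Real.log T) * (1 / (2 * j))) := by
        rw [Real.exp_add, Real.exp_add, Real.exp_log hC0, Real.rpow_def_of_pos hT0,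
          Real.rpow_def_of_pos hl0]
      rw [e1, Real.rpow_def_of_pos hl0]
      refine Real.exp_le_exp.2 ?_
      have e2 : Real.log C₂ + Real.log T * (1 / (2 * j)) +
            Real.log (Real.log T) * (1 / (2 * j)) =
          (Real.log T + Real.log (Real.log T) + 2 * Real.log C₂ * j) / (2 * j) := by
        field_simp
        ring
      rw [e2, div_le_iff₀ (by positivity)]
      calc Real.log T + Real.log (Real.log T) + 2 * Real.log C₂ * j
          ≤ j * k * Real.log (Real.log T) := hc2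
        _ = Real.log (Real.log T) * (k / 2) * (2 * j) := by ring
    have hB : ∀ t, 0 ≤ t → t ≤ T → Z t ≤ Real.log T ^ ((j + k) / 2) := by
      intro t h0 ht
      calc Z t ≤ C₂ * T ^ (1 / (2 * j)) * Real.log T ^ (j / 2 + 1 / (2 * j)) :=
            hT₁ T j hTa hj hle hg2 t h0 ht
        _ = (C₂ * T ^ (1 / (2 * j)) * Real.log T ^ (1 / (2 * j))) * Real.log T ^ (j / 2) := by
            rw [Real.rpow_add hl0]
            ring
        _ ≤ Real.log T ^ (k / 2) * Real.log T ^ (j / 2) :=
            mul_le_mul_of_nonneg_right h4 (Real.rpow_nonneg hl0.le _)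
        _ = Real.log T ^ ((j + k) / 2) := by
            rw [← Real.rpow_add hl0]
            congr 1
            ring
    have h3 := M_le (T := T) (j := j) (k := k) hT0.le (by linarith) hjk hB
    have e1 : (Real.log T ^ ((j + k) / 2)) ^ (2 * (k - j)) = Real.log T ^ (k ^ 2 - j ^ 2) := by
      rw [← Real.rpow_mul hl0.le]
      congr 1
      ring
    rw [e1] at h3
    calc M k T ≤ Real.log T ^ (k ^ 2 - j ^ 2) * M j T := h3
      _ ≤ Real.log T ^ (k ^ 2 - j ^ 2) * (T * Real.log T ^ (j ^ 2)) :=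
          mul_le_mul_of_nonneg_left hg (Real.rpow_nonneg hl0.le _)
      _ = T * (Real.log T ^ (k ^ 2 - j ^ 2) * Real.log T ^ (j ^ 2)) := by ring
      _ = T * Real.log T ^ (k ^ 2) := by
          rw [← Real.rpow_add hl0]
          congr 2
          ring

end Pool.Agent.H83M
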