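import Pool.Agent.H83M.Stm3
import Pool.Agent.H83M.REF

set_option autoImplicit false

namespace Pool.Agent.H83M

open Complex MeasureTheory Set Filter

open REF in
theorem t_REF3 (h1 : S_SUP2) (h2 : S_CVX) : S_REF2 := by
  obtain ⟨C, T₁, hC, hT₁⟩ := h1
  obtain ⟨T₂, hT₂⟩ := h2
  refine ⟨2 * Real.log C, max (max T₁ T₂) (Real.exp 1), fun T j k hT hj hg hg2 hjk hc2 => ?_⟩
  have hTa : T₁ ≤ T := (le_max_left _ _).trans ((le_max_left _ _).trans hT)
  have hTb : T₂ ≤ T := (le_max_right _ _).trans ((le_max_left _ _).trans hT)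
  have hTe : Real.exp 1 ≤ T := (le_max_right _ _).trans hT
  have hT0 : 0 < T := (Real.exp_pos 1).trans_le hTe
  have hl : 1 ≤ Real.log T := by
    rw [Real.le_log_iff_exp_le hT0]
    exact hTe
  have hl0 : 0 < Real.log T := by linarith
  have hk1 : 1 ≤ k := hj.trans hjk
  have hj0 : 0 < j := by linarith
  have hC0 : 0 < C := by linarith
  unfold Good
  rcases lt_or_ge T (Real.log T ^ j) with hlt | hle
  · -- the convexity bound
    have h3 := M_le' (T := T) (k := k) (B := T ^ (1 / 2 : ℝ)) hT0.le (by linarith)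
      (fun t h0 ht => hT₂ T t hTb h0 ht)
    have e1 : (T ^ (1 / 2 : ℝ)) ^ (2 * k) = T ^ k := by
      rw [← Real.rpow_mul hT0.le]
      congr 1
      ring
    rw [e1] at h3
    have h4 : T ≤ Real.log T ^ k := hlt.le.trans (Real.rpow_le_rpow_of_exponent_le hl hjk)
    have h5 : T ^ k ≤ Real.log T ^ (k ^ 2) := by
      calc T ^ k ≤ (Real.log T ^ k) ^ k := Real.rpow_le_rpow hT0.le h4 (by linarith)
        _ = Real.log T ^ (k ^ 2) := by rw [← Real.rpow_mul hl0.le, sq]
    calc M k T ≤ T ^ k * T := h3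
      _ ≤ Real.log T ^ (k ^ 2) * T := mul_le_mul_of_nonneg_right h5 hT0.le
      _ = T * Real.log T ^ (k ^ 2) := mul_comm _ _
  · have hB : ∀ t, 0 ≤ t → t ≤ T → Z t ≤ Real.log T ^ ((j + k) / 2) := by
      intro t h0 ht
      refine (hT₁ T j hTa hj hle hg2 t h0 ht).trans ?_
      rw [Real.rpow_def_of_pos hT0, Real.rpow_def_of_pos hl0, Real.rpow_def_of_pos hl0]
      nth_rewrite 1 [← Real.exp_log hC0]
      rw [← Real.exp_add, ← Real.exp_add]
      apply Real.exp_le_exp.2
      have e1 : Real.log C + Real.log T * (1 / (2 * j)) +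
          Real.log (Real.log T) * (j / 2 + 1 / (2 * j)) =
          (Real.log T + Real.log (Real.log T) + 2 * Real.log C * j) / (2 * j) +
            Real.log (Real.log T) * (j / 2) := by
        field_simp
        ring
      have e2 : (Real.log T + Real.log (Real.log T) + 2 * Real.log C * j) / (2 * j) ≤
          j * k * Real.log (Real.log T) / (2 * j) :=
        div_le_div_of_nonneg_right hc2 (by positivity)
      have e3 : j * k * Real.log (Real.log T) / (2 * j) = Real.log (Real.log T) * (k / 2) := by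
        field_simp
      rw [e1]
      rw [e3] at e2
      have e4 : Real.log (Real.log T) * ((j + k) / 2) =
          Real.log (Real.log T) * (k / 2) + Real.log (Real.log T) * (j / 2) := by ring
      rw [e4]
      linarith
    have h3 := M_le (T := T) (j := j) (k := k) hT0.le (by linarith) hjk hB
    have e1 : (Real.log T ^ ((j + k) / 2)) ^ (2 * (k - j)) = Real.log T ^ (k ^ 2 - j ^ 2) := by
      rw [← Real.rpow_mul hl0.le]
      congr 1
      ring
    rw [e1] at h3
    calc M k T ≤ Real.log T ^ (k ^ 2 - j ^ 2) * M j T := h3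
      _ ≤ Real.log T ^ (k ^ 2 - j ^ 2) * (T * Real.log T ^ (j ^ 2)) :=
          mul_le_mul_of_nonneg_left hg (Real.rpow_nonneg hl0.le _)
      _ = T * (Real.log T ^ (k ^ 2 - j ^ 2) * Real.log T ^ (j ^ 2)) := by ring
      _ = T * Real.log T ^ (k ^ 2) := by
          rw [← Real.rpow_add hl0]
          congr 2
          ring

end Pool.Agent.H83M
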