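import Pool.Agent.H83M.Stm

/-!
# Project ZM, piece SUP: the pointwise bound from one good pair
-/

set_option autoImplicit false

namespace Pool.Agent.H83M

open Complex MeasureTheory Set Filter

namespace SUP

theorem num (ε C T x j : ℝ) (hε : 0 < ε) (hC : 3 ≤ C) (hT : 1 ≤ T) (hx : x = Real.log T)
    (hx3 : 3 ≤ x) (hj : 1 ≤ j) (hjx : x ^ j ≤ T) (hc : 8 * Real.log C / ε ≤ Real.log x)
    (hd : 4 / ε ≤ Real.log x) (he : Real.log x ≤ ε / 4 * x) (hf : 4 * Real.log 3 / ε ≤ x) :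
    3 * (C ^ (2 * j) * x * Real.exp (j ^ 2 / x)) ≤ T ^ ε := by
  have hx0 : 0 < x := by linarith
  have hT0 : 0 < T := by linarith
  have hC0 : 0 < C := by linarith
  have hlx1 : 1 ≤ Real.log x := by
    rw [Real.le_log_iff_exp_le hx0]
    have := Real.exp_one_lt_d9
    linarith
  have hjl : j * Real.log x ≤ x := by
    have h1 := Real.log_le_log (Real.rpow_pos_of_pos hx0 j) hjx
    rw [Real.log_rpow hx0, ← hx] at h1
    exact h1
  have h1 : Real.log C * (2 * j) ≤ ε / 4 * x := by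
    rw [div_le_iff₀ hε] at hc
    have h2 : Real.log C * (2 * j) ≤ (Real.log x * ε / 8) * (2 * j) :=
      mul_le_mul_of_nonneg_right (by linarith) (by linarith)
    have h3 : (Real.log x * ε / 8) * (2 * j) = ε / 4 * (j * Real.log x) := by ring
    rw [h3] at h2
    exact h2.trans (mul_le_mul_of_nonneg_left hjl (by positivity))
  have h2 : j ^ 2 / x ≤ ε / 4 * x := by
    rw [div_le_iff₀ hx0]
    rw [div_le_iff₀ hε] at hd
    have h3 : (j * Real.log x) ^ 2 ≤ x ^ 2 := pow_le_pow_left₀ (by positivity) hjl 2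
    have h4 : 1 ≤ ε / 4 * Real.log x ^ 2 := by
      have h5 : 1 ≤ ε / 4 * Real.log x := by linarith
      have h6 : ε / 4 * Real.log x ≤ ε / 4 * Real.log x ^ 2 := by
        refine mul_le_mul_of_nonneg_left ?_ (by positivity)
        nlinarith
      linarith
    have h5 : j ^ 2 ≤ j ^ 2 * (ε / 4 * Real.log x ^ 2) := le_mul_of_one_le_right (by positivity) h4
    have h6 : j ^ 2 * (ε / 4 * Real.log x ^ 2) = ε / 4 * (j * Real.log x) ^ 2 := by ring
    rw [h6] at h5
    have h7 : ε / 4 * (j * Real.log x) ^ 2 ≤ ε / 4 * x ^ 2 :=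
      mul_le_mul_of_nonneg_left h3 (by positivity)
    have h8 : ε / 4 * x * x = ε / 4 * x ^ 2 := by ring
    rw [h8]
    exact h5.trans h7
  have h3 : Real.log 3 ≤ ε / 4 * x := by
    rw [div_le_iff₀ hε] at hf
    linarith
  have e1 : (3 : ℝ) = Real.exp (Real.log 3) := (Real.exp_log (by norm_num)).symm
  have e2 : C ^ (2 * j) = Real.exp (Real.log C * (2 * j)) := Real.rpow_def_of_pos hC0 _
  have e3 : x = Real.exp (Real.log x) := (Real.exp_log hx0).symm
  have e4 : T ^ ε = Real.exp (x * ε) := by rw [Real.rpow_def_of_pos hT0, ← hx]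
  calc 3 * (C ^ (2 * j) * x * Real.exp (j ^ 2 / x))
      = Real.exp (Real.log 3) * (Real.exp (Real.log C * (2 * j)) * Real.exp (Real.log x) *
          Real.exp (j ^ 2 / x)) := by rw [← e1, ← e2, ← e3]
    _ = Real.exp (Real.log 3 + (Real.log C * (2 * j) + Real.log x + j ^ 2 / x)) := by
        rw [Real.exp_add, Real.exp_add, Real.exp_add]
    _ ≤ Real.exp (x * ε) := by
        rw [Real.exp_le_exp]
        linarith
    _ = T ^ ε := e4.symm

end SUP

theorem t_SUP (h : S_PW) : S_SUP := by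
  intro ε hε
  obtain ⟨C, hC3, hC⟩ := h
  have hx := Real.tendsto_log_atTop
  have hlx := Real.tendsto_log_atTop.comp Real.tendsto_log_atTop
  have hev : ∀ᶠ T : ℝ in atTop, C ≤ T ∧ 3 ≤ Real.log T ∧
      8 * Real.log C / ε ≤ Real.log (Real.log T) ∧ 4 / ε ≤ Real.log (Real.log T) ∧
      Real.log (Real.log T) ≤ ε / 4 * Real.log T ∧ 4 * Real.log 3 / ε ≤ Real.log T := by
    have h1 := hx.eventually (Real.isLittleO_log_id_atTop.def (show 0 < ε / 4 by positivity))
    filter_upwards [eventually_ge_atTop C, hx.eventually_ge_atTop 3,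
      hlx.eventually_ge_atTop (8 * Real.log C / ε), hlx.eventually_ge_atTop (4 / ε), h1,
      hx.eventually_ge_atTop (4 * Real.log 3 / ε)] with T a b c d e f
    refine ⟨a, b, c, d, ?_, f⟩
    rw [id, Real.norm_eq_abs, Real.norm_eq_abs, abs_of_nonneg (by linarith : (0:ℝ) ≤ Real.log T)] at e
    exact (le_abs_self _).trans e
  obtain ⟨T₀, hT₀⟩ := eventually_atTop.1 hev
  refine ⟨T₀, fun T j hT hj hjT hg t ht0 htT => ?_⟩
  obtain ⟨a, b, c, d, e, f⟩ := hT₀ T hT
  obtain ⟨x, hxd⟩ : ∃ x, x = Real.log T := ⟨_, rfl⟩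
  rw [← hxd] at b c d e f hjT ⊢
  have hT1 : 1 ≤ T := by linarith
  have hT0 : 0 < T := by linarith
  have hx0 : 0 < x := by linarith
  have hj0 : 0 < j := by linarith
  have hnum := SUP.num ε C T x j hε hC3 hT1 hxd b hj hjT c d e f
  have h1 := hC T t (2 * j) a ht0 htT (by linarith)
  rw [← hxd] at h1
  have hM : (∫ y in (0:ℝ)..(2 * T), Z y ^ (2 * j)) ≤ 2 * T * Real.log (2 * T) ^ (j ^ 2) := hg
  -- the logarithm of `2 T`
  have hlog : Real.log (2 * T) ≤ x * Real.exp (1 / x) := by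
    rw [Real.log_mul (by norm_num) hT0.ne', ← hxd]
    have h2 : 1 / x + 1 ≤ Real.exp (1 / x) := Real.add_one_le_exp _
    have h3 : x * (1 / x + 1) ≤ x * Real.exp (1 / x) := mul_le_mul_of_nonneg_left h2 hx0.le
    have h4 : x * (1 / x + 1) = 1 + x := by
      field_simp
    have h5 : Real.log 2 ≤ 1 := by
      have := Real.log_two_lt_d9
      linarith
    linarith
  have hlog0 : 0 ≤ Real.log (2 * T) := Real.log_nonneg (by linarith)
  have hpow : Real.log (2 * T) ^ (j ^ 2) ≤ x ^ (j ^ 2) * Real.exp (j ^ 2 / x) := by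
    have h2 : Real.log (2 * T) ^ (j ^ 2) ≤ (x * Real.exp (1 / x)) ^ (j ^ 2) :=
      Real.rpow_le_rpow hlog0 hlog (by positivity)
    rw [Real.mul_rpow hx0.le (Real.exp_pos _).le, ← Real.exp_mul] at h2
    have h3 : 1 / x * j ^ 2 = j ^ 2 / x := by ring
    rwa [h3] at h2
  obtain ⟨E, hE⟩ : ∃ E, E = x ^ (j ^ 2) * Real.exp (j ^ 2 / x) := ⟨_, rfl⟩
  have hE1 : 1 ≤ E := by
    rw [hE]
    have h2 : 1 ≤ x ^ (j ^ 2) := Real.one_le_rpow (by linarith) (by positivity)
    have h3 : 1 ≤ Real.exp (j ^ 2 / x) := Real.one_le_exp (by positivity)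
    calc (1 : ℝ) = 1 * 1 := (one_mul 1).symm
      _ ≤ _ := mul_le_mul h2 h3 zero_le_one (by positivity)
  rw [← hE] at hpow
  have hsum : 1 + (∫ y in (0:ℝ)..(2 * T), Z y ^ (2 * j)) ≤ 3 * (T * E) := by
    have h2 : 2 * T * Real.log (2 * T) ^ (j ^ 2) ≤ 2 * T * E :=
      mul_le_mul_of_nonneg_left hpow (by positivity)
    have h3 : 1 ≤ T * E := by nlinarith
    linarith
  have hZ : Z t ^ (2 * j) ≤ T ^ ε * (T * x ^ (j ^ 2)) := by
    have hCp : 0 ≤ C ^ (2 * j) * x := by positivity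
    calc Z t ^ (2 * j) ≤ C ^ (2 * j) * x * (1 + ∫ y in (0:ℝ)..(2 * T), Z y ^ (2 * j)) := h1
      _ ≤ C ^ (2 * j) * x * (3 * (T * E)) := mul_le_mul_of_nonneg_left hsum hCp
      _ = 3 * (C ^ (2 * j) * x * Real.exp (j ^ 2 / x)) * (T * x ^ (j ^ 2)) := by
          rw [hE]
          ring
      _ ≤ T ^ ε * (T * x ^ (j ^ 2)) := mul_le_mul_of_nonneg_right hnum (by positivity)
  have hZ0 : 0 ≤ Z t := norm_nonneg _
  have hR : (T ^ ((1 + ε) / (2 * j)) * x ^ (j / 2)) ^ (2 * j) = T ^ ε * (T * x ^ (j ^ 2)) := by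
    rw [Real.mul_rpow (by positivity) (by positivity), ← Real.rpow_mul hT0.le,
      ← Real.rpow_mul hx0.le]
    have h2 : (1 + ε) / (2 * j) * (2 * j) = 1 + ε := by field_simp
    have h3 : j / 2 * (2 * j) = j ^ 2 := by ring
    rw [h2, h3, Real.rpow_add hT0, Real.rpow_one]
    ring
  rw [← hR] at hZ
  exact (Real.rpow_le_rpow_iff hZ0 (by positivity) (by positivity)).1 hZ

end Pool.Agent.H83M
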