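import Pool.Agent.H83M.Stm3

/-!
# Project ZM, piece SUP2 (helper45): sharp form of SUP (modification of SUP.lean of the project)
-/

set_option autoImplicit false

namespace Pool.Agent.H83M

open Complex MeasureTheory Set Filter

namespace SUP2

theorem num (C x j : ℝ) (hC : 3 ≤ C) (hx3 : 3 ≤ x) (hj : 1 ≤ j) (hjl : j * Real.log x ≤ x) :
    3 * (C ^ (2 * j) * Real.exp (j ^ 2 / x)) ≤ (3 * C) ^ (2 * j) := by
  have hx0 : 0 < x := by linarith
  have hC0 : 0 < C := by linarith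
  have hlx1 : 1 ≤ Real.log x := by
    rw [Real.le_log_iff_exp_le hx0]
    have := Real.exp_one_lt_d9
    linarith
  have hjx : j ≤ x := by nlinarith
  have h1 : j ^ 2 / x ≤ j := by
    rw [div_le_iff₀ hx0]
    nlinarith
  have h2 : Real.exp (j ^ 2 / x) ≤ 3 ^ j := by
    rw [Real.rpow_def_of_pos (by norm_num : (0 : ℝ) < 3), Real.exp_le_exp]
    have h3 : 1 ≤ Real.log 3 := by
      rw [Real.le_log_iff_exp_le (by norm_num)]
      have := Real.exp_one_lt_d9
      linarith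
    nlinarith
  have h3 : (3 : ℝ) ≤ 3 ^ j := by
    calc (3 : ℝ) = 3 ^ (1 : ℝ) := (Real.rpow_one 3).symm
      _ ≤ 3 ^ j := Real.rpow_le_rpow_of_exponent_le (by norm_num) hj
  have h4 : (3 * C) ^ (2 * j) = 3 ^ j * 3 ^ j * C ^ (2 * j) := by
    rw [Real.mul_rpow (by norm_num) hC0.le, two_mul, Real.rpow_add (by norm_num)]
  rw [h4]
  have h5 : 0 ≤ C ^ (2 * j) := by positivity
  have h6 : 3 * Real.exp (j ^ 2 / x) ≤ 3 ^ j * 3 ^ j :=
    mul_le_mul h3 h2 (Real.exp_pos _).le (by positivity)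
  calc 3 * (C ^ (2 * j) * Real.exp (j ^ 2 / x)) = (3 * Real.exp (j ^ 2 / x)) * C ^ (2 * j) := by ring
    _ ≤ _ := mul_le_mul_of_nonneg_right h6 h5

end SUP2

theorem t_SUP2 (h : S_PW) : S_SUP2 := by
  obtain ⟨C, hC3, hC⟩ := h
  refine ⟨3 * C, max C (Real.exp 3), by linarith, fun T j hT hj hjT hg t ht0 htT => ?_⟩
  have a : C ≤ T := (le_max_left _ _).trans hT
  have hT0 : 0 < T := by linarith
  have hT1 : 1 ≤ T := by linarith
  have b : 3 ≤ Real.log T := by
    rw [Real.le_log_iff_exp_le hT0]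
    exact (le_max_right _ _).trans hT
  obtain ⟨x, hxd⟩ : ∃ x, x = Real.log T := ⟨_, rfl⟩
  rw [← hxd] at b hjT ⊢
  have hx0 : 0 < x := by linarith
  have hj0 : 0 < j := by linarith
  have hC0 : 0 < C := by linarith
  have hjl : j * Real.log x ≤ x := by
    have h1 := Real.log_le_log (Real.rpow_pos_of_pos hx0 j) hjT
    rw [Real.log_rpow hx0, ← hxd] at h1
    exact h1
  have hnum := SUP2.num C x j hC3 b hj hjl
  have h1 := hC T t (2 * j) a ht0 htT (by linarith)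
  rw [← hxd] at h1
  have hM : (∫ y in (0:ℝ)..(2 * T), Z y ^ (2 * j)) ≤ 2 * T * Real.log (2 * T) ^ (j ^ 2) := hg
  -- the logarithm of `2 T`
  have hlog : Real.log (2 * T) ≤ x * Real.exp (1 / x) := by
    rw [Real.log_mul (by norm_num) hT0.ne', ← hxd]
    have h2 : 1 / x + 1 ≤ Real.exp (1 / x) := Real.add_one_le_exp _
    have h3 : x * (1 / x + 1) ≤ x * Real.exp (1 / x) := mul_le_mul_of_nonneg_left h2 hx0.le
    have h4 : x * (1 / x + 1) = 1 + x := by
      field_simp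
    have h5 : Real.log 2 ≤ 1 := by
      have := Real.log_two_lt_d9
      linarith
    linarith
  have hlog0 : 0 ≤ Real.log (2 * T) := Real.log_nonneg (by linarith)
  have hpow : Real.log (2 * T) ^ (j ^ 2) ≤ x ^ (j ^ 2) * Real.exp (j ^ 2 / x) := by
    have h2 : Real.log (2 * T) ^ (j ^ 2) ≤ (x * Real.exp (1 / x)) ^ (j ^ 2) :=
      Real.rpow_le_rpow hlog0 hlog (by positivity)
    rw [Real.mul_rpow hx0.le (Real.exp_pos _).le, ← Real.exp_mul] at h2
    have h3 : 1 / x * j ^ 2 = j ^ 2 / x := by ring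
    rwa [h3] at h2
  obtain ⟨E, hE⟩ : ∃ E, E = x ^ (j ^ 2) * Real.exp (j ^ 2 / x) := ⟨_, rfl⟩
  have hE1 : 1 ≤ E := by
    rw [hE]
    have h2 : 1 ≤ x ^ (j ^ 2) := Real.one_le_rpow (by linarith) (by positivity)
    have h3 : 1 ≤ Real.exp (j ^ 2 / x) := Real.one_le_exp (by positivity)
    calc (1 : ℝ) = 1 * 1 := (one_mul 1).symm
      _ ≤ _ := mul_le_mul h2 h3 zero_le_one (by positivity)
  rw [← hE] at hpow
  have hsum : 1 + (∫ y in (0:ℝ)..(2 * T), Z y ^ (2 * j)) ≤ 3 * (T * E) := by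
    have h2 : 2 * T * Real.log (2 * T) ^ (j ^ 2) ≤ 2 * T * E :=
      mul_le_mul_of_nonneg_left hpow (by positivity)
    have h3 : 1 ≤ T * E := by nlinarith
    linarith
  have hZ : Z t ^ (2 * j) ≤ (3 * C) ^ (2 * j) * (T * x ^ (j ^ 2 + 1)) := by
    have hCp : 0 ≤ C ^ (2 * j) * x := by positivity
    calc Z t ^ (2 * j) ≤ C ^ (2 * j) * x * (1 + ∫ y in (0:ℝ)..(2 * T), Z y ^ (2 * j)) := h1
      _ ≤ C ^ (2 * j) * x * (3 * (T * E)) := mul_le_mul_of_nonneg_left hsum hCp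
      _ = 3 * (C ^ (2 * j) * Real.exp (j ^ 2 / x)) * (T * x ^ (j ^ 2 + 1)) := by
          rw [hE, Real.rpow_add hx0, Real.rpow_one]
          ring
      _ ≤ (3 * C) ^ (2 * j) * (T * x ^ (j ^ 2 + 1)) := mul_le_mul_of_nonneg_right hnum (by positivity)
  have hZ0 : 0 ≤ Z t := norm_nonneg _
  have hR : (3 * C * T ^ (1 / (2 * j)) * x ^ (j / 2 + 1 / (2 * j))) ^ (2 * j) =
      (3 * C) ^ (2 * j) * (T * x ^ (j ^ 2 + 1)) := by
    rw [Real.mul_rpow (by positivity) (by positivity), Real.mul_rpow (by positivity) (by positivity),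
      ← Real.rpow_mul hT0.le, ← Real.rpow_mul hx0.le]
    have h2 : 1 / (2 * j) * (2 * j) = 1 := by field_simp
    have h3 : (j / 2 + 1 / (2 * j)) * (2 * j) = j ^ 2 + 1 := by
      field_simp
    rw [h2, h3, Real.rpow_one]
    ring
  rw [← hR] at hZ
  exact (Real.rpow_le_rpow_iff hZ0 (by positivity) (by positivity)).1 hZ

end Pool.Agent.H83M
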