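import Pool.Agent.Q97.RB.Lin
import Pool.Agent.Q97.MM.Zg

/-!
# PROJECT ZM (helper83), hard MP_3d0d30_nt (moments of the zeta function, Q2): statements of the pieces.
Statements only (NOT results). `M k T = ∫_0^T |ζ(1/2 + it)|^{2k} dt`, the pair `(k, T)` is good if
`M k T ≤ T (log T)^{k²}` (Q2: all pairs `k ≥ 2`, `T > 1000` are good).

THEOREM. For large `T` only the orders `k` with `(log T)^{k²} ≤ T^c`, any fixed `c > 1`, matter (known from the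
starting files: `(log T)^{6k} ≤ T`): if `(j, T)` and `(j, 2T)` are good, `k ≥ j` and `(log T)^{jk} ≥ T^c`, then
`(k, T)` is good. The inequality for all `k` with `(log T)^k ≥ T^ε` (every `ε > 0`, `T ≥ T(ε)`) is equivalent to
the Lindelöf hypothesis; for all `k` with `(log T)^{k²} ≥ T^C` (some `C`) it is equivalent to
`log |ζ(1/2 + it)| = O(√(log t log log t))`.

Every `S_XXX` is a piece; the docstring contains the proof. File `Pool/Agent/H83M/XXX.lean`, theorem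
`t_XXX : S_XXX` in the namespace `Pool.Agent.H83M` (used pieces are hypotheses, e.g.
`theorem t_GAB (h1 : S_GDF) (h2 : S_EDGE) : S_GAB`), auxiliary lemmas in `Pool.Agent.H83M.XXX`.
-/

set_option autoImplicit false

namespace Pool.Agent.H83M

open Complex MeasureTheory Set Filter

noncomputable section

/-- `|ζ(1/2 + it)|` -/
def Z (t : ℝ) : ℝ := ‖riemannZeta (1 / 2 + t * I)‖

/-- `M_k(T) = ∫_0^T |ζ(1/2 + it)|^{2k} dt` -/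
def M (k T : ℝ) : ℝ := ∫ t in (0:ℝ)..T, Z t ^ (2 * k)

/-- the inequality of Q2 for the pair `(k, T)` -/
def Good (k T : ℝ) : Prop := M k T ≤ T * Real.log T ^ (k ^ 2)

/-- the test function `(s - 1) ζ(s) exp((s - 1/2 - it)²) / (1 + t)` -/
def FF (t : ℝ) (s : ℂ) : ℂ :=
  Q97.MM.Z1 s * Complex.exp ((s - (((1 / 2 : ℝ) : ℂ) + t * I)) ^ 2) / (1 + t)

/-- AREA (120 lines): mean value over a disc. Proof: `Q97.RB.jensen_ineq` (file Pool/Agent/Q97/RB/Jen.lean, with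
`Q97.RB.NN_nonneg`) gives `‖F c‖^β ≤ circleAverage (‖F ·‖^β) c r` for all `r > 0`. Multiply by `r` and integrate over
`0 < r < ρ`: with polar coordinates (`Complex.integral_comp_polarCoord_symm` or
`Complex.lintegral_comp_polarCoord_symm` for the indicator function of the disc)
`(ρ²/2) ‖F c‖^β ≤ (1/2π) ∫_disc ‖F‖^β ≤ (1/2π) ∫_{x₀-ρ}^{x₀+ρ} LI F β x dx ≤ (1/2π) 2 ρ B`. So `‖F c‖^β ≤ 2B/(πρ) ≤ B/ρ`.
(Measurability: everything is continuous. The disc is contained in the vertical strip.) -/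
def S_AREA : Prop := ∀ (F : ℂ → ℂ) (β α α' x₀ y₀ ρ B : ℝ), Differentiable ℂ F → 0 < β →
  Q97.RB.Gd F α α' → 0 < ρ → α ≤ x₀ - ρ → x₀ + ρ ≤ α' →
  (∀ x, x₀ - ρ ≤ x → x ≤ x₀ + ρ → Q97.RB.LI F β x ≤ B) → ‖F (x₀ + y₀ * I)‖ ^ β ≤ B / ρ

/-- GDF (60 lines): `FF t` is entire with Gaussian decay. Proof: `Q97.MM.Z1_differentiable`, `Q97.MM.Z1_growth`:
`‖Z1 (x + iy)‖ ≤ 45 (1 + |y|)²`; `|exp((x + iy - 1/2 - it)²)| = exp((x - 1/2)² - (y - t)²)`. -/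
def S_GDF : Prop := ∀ t : ℝ, 0 ≤ t → Differentiable ℂ (FF t) ∧ Q97.RB.Gd (FF t) (1 / 4) 3

/-- EDGE (100 lines). Proof: with `u = y - t`: `‖FF t (x + iy)‖ ≤ 45 e^{25/4} (1 + |y|)² e^{-u²} / (1 + t)`,
`1 + |y| ≤ (1 + t)(1 + |u|)`, `(1 + |u|)² e^{-u²/2} ≤ 4`; so `‖FF t‖ ≤ 180 e^{25/4} (1 + t) e^{-u²/2}` and
`∫ e^{-p u²/2} du = √(2π/p) ≤ 3 ≤ 3^p`. -/
def S_EDGE : Prop := ∃ C : ℝ, 1 ≤ C ∧ ∀ t p x : ℝ, 0 ≤ t → 1 ≤ p → 1 / 4 ≤ x → x ≤ 3 →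
  Q97.RB.LI (FF t) p x ≤ (C * (1 + t) ^ 2) ^ p

/-- GAB (120 lines, `theorem t_GAB (h1 : S_GDF) (h2 : S_EDGE) : S_GAB`): Gabriel's convexity theorem
`Q97.RB.LI_logconv` (file Pool/Agent/Q97/RB/Gab.lean). `x = 1/2`: clear. `x > 1/2`: the lines `1/2` and `1`:
`θ = 2 (x - 1/2) ≤ 2 / log T`, `LI(x) ≤ LI(1/2)^{1-θ} LI(1)^θ ≤ (LI(1/2) + 1) (C (1 + T)²)^{pθ}` and
`(C (1 + T)²)^{2/log T}` is bounded. `x < 1/2`: the lines `1/4` and `1/2`, `1 - θ = 4 (1/2 - x) ≤ 4 / log T`,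
`LI(x) ≤ LI(1/4)^{1-θ} LI(1/2)^θ`. (`LI > 0`: `FF t` is entire and not identically zero, `Z1 1 = 1`, so it is not
zero on a whole line; `y ↦ ‖FF t (x + iy)‖^p` is continuous, nonnegative, not zero; `Q97.RB.li_int`.) -/
def S_GAB : Prop := ∃ C : ℝ, 3 ≤ C ∧ ∀ T t p x : ℝ, C ≤ T → 0 ≤ t → t ≤ T → 1 ≤ p →
  |x - 1 / 2| ≤ 1 / Real.log T → Q97.RB.LI (FF t) p x ≤ C ^ p * (Q97.RB.LI (FF t) p (1 / 2) + 1)

/-- HALF (120 lines). Proof: with `u = y - t`, `‖FF t (1/2 + iy)‖ = |-1/2 + iy| Z(y) e^{-u²}/(1 + t) ≤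
(1 + |u|) e^{-u²} Z(y) ≤ 2 Z(y)`, and `Z(-y) = Z(y)` (`riemannZeta_conj`), so the part `|y| ≤ 2T` of the integral is at most
`2 · 2^p ∫_0^{2T} Z^p`. For `|y| > 2T` we have `|u| ≥ T` and by `Q97.MM.Z1_growth`
`‖FF t (1/2 + iy)‖ ≤ 45 (1 + |y|)² e^{-u²}/(1 + t) ≤ 45 (1 + T)(1 + |u|)² e^{-u²} ≤ 180 (1 + T) e^{-u²/2} ≤
180 (1 + T) e^{-T²/4} e^{-u²/4} ≤ e^{-u²/4}/4` for large `T`, and `∫ (e^{-u²/4}/4)^p du ≤ (1/4) √(4π) ≤ 1`. -/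
def S_HALF : Prop := ∃ C : ℝ, 3 ≤ C ∧ ∀ T t p : ℝ, C ≤ T → 0 ≤ t → t ≤ T → 1 ≤ p →
  Q97.RB.LI (FF t) p (1 / 2) ≤ 2 * 2 ^ p * (∫ y in (0:ℝ)..(2 * T), Z y ^ p) + 1

/-- PW (80 lines, `theorem t_PW (h1 : S_AREA) (h2 : S_GDF) (h3 : S_GAB) (h4 : S_HALF) : S_PW`). Proof: AREA for `FF t`,
`x₀ = 1/2`, `y₀ = t`, `ρ = 1 / log T` (`≤ 1/4` for large `T`), `B` from GAB and HALF. And
`‖FF t (1/2 + it)‖ = |-1/2 + it| Z(t)/(1 + t) ≥ Z(t)/3`. -/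
def S_PW : Prop := ∃ C : ℝ, 3 ≤ C ∧ ∀ T t p : ℝ, C ≤ T → 0 ≤ t → t ≤ T → 1 ≤ p →
  Z t ^ p ≤ C ^ p * Real.log T * (1 + ∫ y in (0:ℝ)..(2 * T), Z y ^ p)

/-- SUP (120 lines, `theorem t_SUP (h : S_PW) : S_SUP`), numbers. Proof: PW with `p = 2j`:
`Z(t)^{2j} ≤ C^{2j} log T (1 + 2T (log 2T)^{j²}) ≤ 4 C^{2j} (log T) T (log 2T)^{j²}`, and
`(log 2T)^{j²} = (log T)^{j²} (1 + log 2/log T)^{j²} ≤ (log T)^{j²} exp(j²/log T)`. As `j ≤ log T/log log T`,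
`4 C^{2j} (log T) exp(j²/log T) ≤ T^ε` for large `T`. Take the root of order `2j`. -/
def S_SUP : Prop := ∀ ε : ℝ, 0 < ε → ∃ T₀ : ℝ, ∀ T j : ℝ, T₀ ≤ T → 1 ≤ j → Real.log T ^ j ≤ T →
  Good j (2 * T) → ∀ t : ℝ, 0 ≤ t → t ≤ T → Z t ≤ T ^ ((1 + ε) / (2 * j)) * Real.log T ^ (j / 2)

/-- convexity bound (from the starting files, proved by helper83) -/
def S_CVX : Prop := ∃ T₀ : ℝ, ∀ T t : ℝ, T₀ ≤ T → 0 ≤ t → t ≤ T → Z t ≤ T ^ (1 / 2 : ℝ)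

/-- REF (100 lines, `theorem t_REF (h1 : S_SUP) (h2 : S_CVX) : S_REF`), reflection. Proof, `L = log T/log log T`. If
`(log T)^j > T`, then `k ≥ j > L` and `M k T ≤ T · T^{k} ≤ T (log T)^{k²}` by CVX. Otherwise SUP with
`ε = c - 1` gives `Z ≤ (log T)^κ` on `[0, T]` with `2κ = j + c L/j`; `jk ≥ c L` by hypothesis, so `2κ ≤ j + k`, and
`M k T ≤ (log T)^{2κ(k-j)} M j T ≤ T (log T)^{2κ(k-j) + j²}`, `2κ(k - j) + j² ≤ (k + j)(k - j) + j² = k²`.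
(`Z` is continuous: `differentiableAt_riemannZeta`.) -/
def S_REF : Prop := ∀ c : ℝ, 1 < c → ∃ T₀ : ℝ, ∀ T j k : ℝ, T₀ ≤ T → 1 ≤ j → Good j T → Good j (2 * T) →
  j ≤ k → T ^ c ≤ Real.log T ^ (j * k) → Good k T

/-- RED (100 lines, `theorem t_RED (h : S_REF) : S_RED`). Proof of `←`: let `c₁ = (1 + c)/2`, `j = √(c₁ L)`,
`L = log T/log log T`; `(log T)^{j²} = T^{c₁} ≤ T^c`, and `(log 2T)^{j²} ≤ (2T)^c` for large `T` since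
`c₁ log T log log (2T) / log log T ≤ c log (2T)`. So `(j, T)`, `(j, 2T)` are good. If `(log T)^{k²} > T^c` then `k ≥ j`
and `(log T)^{jk} ≥ (log T)^{j²} = T^{c₁}`: REF for `c₁`. -/
def S_RED : Prop := ∀ c : ℝ, 1 < c → ((∃ T₀ : ℝ, ∀ T k : ℝ, T₀ ≤ T → 2 ≤ k → Good k T) ↔
  ∃ T₀ : ℝ, ∀ T k : ℝ, T₀ ≤ T → 2 ≤ k → Real.log T ^ (k ^ 2) ≤ T ^ c → Good k T)

/-- LIN (120 lines, `theorem t_LIN (h : S_SUP) : S_LIN`), the Lindelöf hypothesis. Proof of `→`: for `0 < ε` take the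
bound `Z t ≤ T^{ε/2}` on `[0, T]`, `T` large (for `t ≤ t₀` by continuity, `t₀` for the exponent `ε/2`); then
`M k T ≤ T T^{εk} ≤ T (log T)^{k²}` if `(log T)^k ≥ T^ε`. `←`: `ε ≤ 1`; `j = ε L(t)`, `T = t`: `(log T)^j = T^ε` and
`(log 2T)^j ≥ (2T)^{ε/2}` for large `T`, so `(j, 2T)` is good (hypothesis for `ε/2`), and SUP with `ε = 1` gives
`Z t ≤ T^{1/j} (log T)^{j/2} = exp(log log T/ε) T^{ε/2} ≤ T^ε`. -/
def S_LIN : Prop := (∀ ε : ℝ, 0 < ε → ∃ t₀ : ℝ, ∀ t : ℝ, t₀ ≤ t → Z t ≤ t ^ ε) ↔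
  ∀ ε : ℝ, 0 < ε → ∃ T₀ : ℝ, ∀ T k : ℝ, T₀ ≤ T → 2 ≤ k → T ^ ε ≤ Real.log T ^ k → Good k T

/-- CRI (120 lines, `theorem t_CRI (h : S_SUP) : S_CRI`), the critical scale. Proof of `→`: `A ≥ 0`; for large `T`
the bound `Z t ≤ exp((A + 1) √(log T log log T))` holds on `[0, T]` (monotone for `t ≥ t₀`; continuity for `t ≤ t₀`), so
`M k T ≤ T exp(2k(A + 1)√(log T log log T)) ≤ T (log T)^{k²}` if `k ≥ 2(A + 1)√L`, that is `(log T)^{k²} ≥ T^{4(A+1)²}`.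
`←`: `C ≥ 1`; `j = √(2 C L(t))`, `T = t`: `(log 2T)^{j²} ≥ (log T)^{j²} = T^{2C} ≥ (2T)^C`, so `(j, 2T)` is good; SUP with
`ε = 1`: `Z t ≤ T^{1/j} (log T)^{j/2} = exp((1/√(2C) + √(2C)/2) √(log T log log T))`. -/
def S_CRI : Prop := (∃ A t₀ : ℝ, ∀ t : ℝ, t₀ ≤ t →
    Z t ≤ Real.exp (A * Real.sqrt (Real.log t * Real.log (Real.log t)))) ↔
  ∃ C T₀ : ℝ, ∀ T k : ℝ, T₀ ≤ T → 2 ≤ k → T ^ C ≤ Real.log T ^ (k ^ 2) → Good k T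

/-- MAX (60 lines, `theorem t_MAX (h : S_SUP) : S_MAX`): Q2 for large `T` gives the constant one. Proof: `T = t`,
`j = √L(t)`, `(log T)^j ≤ T` for large `T`; `T^{(1+ε)/(2j)} = exp((1 + ε)/2 √(log T log log T))`,
`(log T)^{j/2} = exp(1/2 √(log T log log T))`. -/
def S_MAX : Prop := (∃ T₀ : ℝ, ∀ T k : ℝ, T₀ ≤ T → 2 ≤ k → Good k T) → ∀ ε : ℝ, 0 < ε →
  ∃ t₀ : ℝ, ∀ t : ℝ, t₀ ≤ t →
    Z t ≤ Real.exp ((1 + ε) * Real.sqrt (Real.log t * Real.log (Real.log t)))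

end

end Pool.Agent.H83M
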