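import Pool.Agent.H83M.Stm

/-!
# PROJECT ZM, part 2 (helper83), MP_3d0d30_nt: a single order decides
Statements only (NOT results). `L = L(T) = log T / log log T`. The inequality of Q2 for ONE order per `T` (the order
`√(c L)`, `ε L`) gives it for all larger orders. File `Pool/Agent/H83M/XXX.lean`, theorem `t_XXX`, as in part 1.
All three follow from `S_SUP` with `j' = j(2T)`, the order for `2T` (so `Good j' (2T)` is the hypothesis).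
-/

set_option autoImplicit false

namespace Pool.Agent.H83M

open Complex MeasureTheory Set Filter

noncomputable section

/-- `L(T) = log T / log log T` -/
def LL (T : ℝ) : ℝ := Real.log T / Real.log (Real.log T)

/-- ONE (120 lines, `theorem t_ONE (h : S_SUP) : S_ONE`). Proof of `→`: let `j = √(c L(T))`, `j' = √(c L(2T)) ≥ j`
(`L` is increasing for large `T`), `ε = (c - 1)/2`. `(log T)^{k²} ≥ T^c` means `k ≥ j`. SUP for `j'` (`1 ≤ j'`,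
`(log T)^{j'} ≤ T` for large `T`): `Z ≤ (log T)^κ` on `[0, T]` with `2κ = j' + (1+ε) L(T)/j' ≤ j' + (1+ε) j/c ≤ 2j`, as
`j'/j → 1` (`L(2T) ≤ (1 + log 2/log T) L(T)`) and `(1+ε)/c < 1`. So
`M k T ≤ (log T)^{2κ(k-j)} M j T ≤ T (log T)^{2j(k-j) + j²} ≤ T (log T)^{k²}` (lemma `REF.M_le`, `Good j T` is the hypothesis
for `T`). `←`: `k = √(c L(T)) ≥ 2` for large `T` and `(log T)^{k²} = T^c`. -/
def S_ONE : Prop := ∀ c : ℝ, 1 < c →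
  ((∃ T₀ : ℝ, ∀ T : ℝ, T₀ ≤ T → Good (Real.sqrt (c * LL T)) T) ↔
    ∃ T₀ : ℝ, ∀ T k : ℝ, T₀ ≤ T → 2 ≤ k → T ^ c ≤ Real.log T ^ (k ^ 2) → Good k T)

/-- LIN1 (80 lines, `theorem t_LIN1 (h : S_SUP) : S_LIN1`), modification of LIN. `→`: `t_LIN` (file LIN.lean) with the
exponent `ε` and `k = ε L(T) ≥ 2`, `(log T)^k = T^ε`. `←`: `ε ≤ 1`, `T = t`, `j' = (ε/2) L(2t)`: SUP (with `ε = 1`) gives
`Z t ≤ t^{1/j'} (log t)^{j'/2}`, `L(t) ≤ L(2t) ≤ 2 L(t)`, so this is at most `exp(2 log log t/ε) t^{ε/2} ≤ t^ε`. -/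
def S_LIN1 : Prop := (∀ ε : ℝ, 0 < ε → ∃ t₀ : ℝ, ∀ t : ℝ, t₀ ≤ t → Z t ≤ t ^ ε) ↔
  ∀ ε : ℝ, 0 < ε → ∃ T₀ : ℝ, ∀ T : ℝ, T₀ ≤ T → Good (ε * LL T) T

/-- MAX1 (80 lines, `theorem t_MAX1 (h : S_SUP) : S_MAX1`), the single order `√L(T)`. `T = t`, `j' = √L(2t) ≥ √L(t)`:
`t^{(1+δ)/(2j')} ≤ exp((1+δ)/2 √(log t log log t))`, `(log t)^{j'/2} ≤ exp((1+δ)/2 √(log t log log t))` for large `t`
(`L(2t) ≤ (1 + log 2/log t) L(t)`), `δ = ε`. -/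
def S_MAX1 : Prop := (∃ T₀ : ℝ, ∀ T : ℝ, T₀ ≤ T → Good (Real.sqrt (LL T)) T) → ∀ ε : ℝ, 0 < ε →
  ∃ t₀ : ℝ, ∀ t : ℝ, t₀ ≤ t →
    Z t ≤ Real.exp ((1 + ε) * Real.sqrt (Real.log t * Real.log (Real.log t)))

end

end Pool.Agent.H83M
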