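import Pool.Agent.H83M.Stm2

/-!
# PROJECT ZM, part 3 (helper83), MP_3d0d30_nt: the sharp forms
Statements only (NOT results). `ℓ = log log T`, `LL T = log T / ℓ`. The critical order is `√(LL T) + C/ℓ`.
File `Pool/Agent/H83M/XXX.lean`, theorem `t_XXX`, as in parts 1 and 2. All are modifications of finished pieces
(SUP2: SUP.lean, REF2: REF.lean, MAX2: MAX1.lean, ONE2: see also ONE.lean).
-/

set_option autoImplicit false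

namespace Pool.Agent.H83M

open Complex MeasureTheory Set Filter

noncomputable section

/-- SUP2 (80 lines, `theorem t_SUP2 (h : S_PW) : S_SUP2`), modification of SUP. PW with `p = 2j`:
`Z^{2j} ≤ C^{2j} log T (1 + 2T (log 2T)^{j²}) ≤ 3 C^{2j} T (log T) (log 2T)^{j²}`, and
`(log 2T)^{j²} ≤ (log T)^{j²} exp(j²/log T) ≤ (log T)^{j²} e^j`, since `j ≤ log T` (from `(log T)^j ≤ T`, `log log T ≥ 1`).
`3 ≤ 3^j`. Take the root of order `2j`; the constant is `C √(3e)`, e.g. `3 C`. -/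
def S_SUP2 : Prop := ∃ C T₀ : ℝ, 1 ≤ C ∧ ∀ T j : ℝ, T₀ ≤ T → 1 ≤ j → Real.log T ^ j ≤ T →
  Good j (2 * T) → ∀ t : ℝ, 0 ≤ t → t ≤ T →
    Z t ≤ C * T ^ (1 / (2 * j)) * Real.log T ^ (j / 2 + 1 / (2 * j))

/-- REF2 (80 lines, `theorem t_REF2 (h1 : S_SUP2) (h2 : S_CVX) : S_REF2`), modification of REF, constant `2 log C`.
If `(log T)^j > T`: as in REF. Otherwise SUP2: `Z ≤ (log T)^{(j+k)/2}` on `[0, T]`, because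
`2 log C + log T/j + (j + 1/j) ℓ ≤ (j + k) ℓ` is the hypothesis divided by `j`. -/
def S_REF2 : Prop := ∃ C T₀ : ℝ, ∀ T j k : ℝ, T₀ ≤ T → 1 ≤ j → Good j T → Good j (2 * T) → j ≤ k →
  Real.log T + Real.log (Real.log T) + C * j ≤ j * k * Real.log (Real.log T) → Good k T

/-- ONE2 (150 lines, `theorem t_ONE2 (h : S_SUP2) : S_ONE2`), the critical order. `←` is clear (`k` = the order).
`→`: `C₁ = 2 log C_{SUP2} ≥ 0`, `C₀ = C₁ + 1`. `ℓ = log log T`, `ℓ' = log log 2T`, `L = LL T`, `L' = LL (2T)`,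
`j = √L + C/ℓ`, `j' = √L' + C/ℓ'`. For large `T`: `L ≤ L' ≤ (1 + 1/log T) L`, so
`√L ≤ √L' ≤ √L + √L/log T ≤ √L + 1/(4ℓ)` (`√L/log T = 1/√(ℓ log T)`), `1 ≤ j'`, `(log T)^{j'} ≤ T`. SUP2 for `j'`:
`Z ≤ (log T)^κ` on `[0, T]`, `2κ = j' + L/j' + 1/j' + C₁/ℓ`. With `x = √L`, `y = C/ℓ'`:
`L/j' ≤ x²/(x + y) ≤ x - y + y²/x`, so `2κ ≤ (x + 1/(4ℓ) + y) + (x - y + y²/x) + 1/x + C₁/ℓ
= 2x + (C₁ + 1/4)/ℓ + C²/(ℓ'² x) + 1/x ≤ 2x + 2C/ℓ = 2j` for large `T` (depending on `C`; `ℓ/x → 0`, `2C - C₁ ≥ 1`).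
So for `k ≥ j` by `REF.M_le`: `M k T ≤ (log T)^{2κ(k-j)} M j T ≤ T (log T)^{2j(k-j) + j²} ≤ T (log T)^{k²}`. -/
def S_ONE2 : Prop := ∃ C₀ : ℝ, ∀ C : ℝ, C₀ ≤ C →
  ((∃ T₀ : ℝ, ∀ T : ℝ, T₀ ≤ T → Good (Real.sqrt (LL T) + C / Real.log (Real.log T)) T) ↔
    ∃ T₀ : ℝ, ∀ T k : ℝ, T₀ ≤ T → Real.sqrt (LL T) + C / Real.log (Real.log T) ≤ k → Good k T)

/-- MAX2 (80 lines, `theorem t_MAX2 (h : S_SUP2) : S_MAX2`), modification of MAX1. `T = t`, `j' = √(LL (2t))`: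
`t^{1/(2j')} ≤ exp(1/2 √(log t ℓ))`, `j' ≤ √(LL t) (1 + 1/log t)`, so
`(log t)^{j'/2} ≤ exp(1/2 √(log t ℓ)) exp(1/2 √(ℓ/log t)) ≤ e exp(1/2 √(log t ℓ))`, `(log t)^{1/(2j')} ≤ e`. -/
def S_MAX2 : Prop := (∃ T₀ : ℝ, ∀ T : ℝ, T₀ ≤ T → Good (Real.sqrt (LL T)) T) →
  ∃ C t₀ : ℝ, ∀ t : ℝ, t₀ ≤ t →
    Z t ≤ C * Real.exp (Real.sqrt (Real.log t * Real.log (Real.log t)))

end

end Pool.Agent.H83M
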